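import Mathlib

-- part MP_024ca5_nt.Basic
section

/-! Eigen-cone of an integer matrix with irreducible characteristic polynomial: coordinates,
irrationality, small points, gift wrapping. -/

set_option autoImplicit false
open Matrix

namespace Pool.Agent.MP_024ca5_nt

def det3 {R : Type*} [CommRing R] (x y z : Fin 3 → R) : R :=
  x 0 * (y 1 * z 2 - y 2 * z 1) - x 1 * (y 0 * z 2 - y 2 * z 0) + x 2 * (y 0 * z 1 - y 1 * z 0)

def cr {R : Type*} [CommRing R] (x y : Fin 3 → R) : Fin 3 → R :=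
  ![x 1 * y 2 - x 2 * y 1, x 2 * y 0 - x 0 * y 2, x 0 * y 1 - x 1 * y 0]

lemma cr_dot {R : Type*} [CommRing R] (x y z : Fin 3 → R) : cr x y ⬝ᵥ z = det3 x y z := by
  simp [cr, det3, dotProduct, Fin.sum_univ_three]; ring

lemma det3_eq_det {R : Type*} [CommRing R] (x y z : Fin 3 → R) :
    det3 x y z = (Matrix.of ![x, y, z]).det := by
  simp [det3, Matrix.det_fin_three]; ring

lemma det3_mul_det3 {R : Type*} [CommRing R] (f g h x y z : Fin 3 → R) :
    det3 f g h * det3 x y z =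
      det3 ![f ⬝ᵥ x, f ⬝ᵥ y, f ⬝ᵥ z] ![g ⬝ᵥ x, g ⬝ᵥ y, g ⬝ᵥ z] ![h ⬝ᵥ x, h ⬝ᵥ y, h ⬝ᵥ z] := by
  simp [det3, dotProduct, Fin.sum_univ_three]; ring

lemma det3_mulVec {R : Type*} [CommRing R] (M : Matrix (Fin 3) (Fin 3) R) (x y z : Fin 3 → R) :
    det3 (M *ᵥ x) (M *ᵥ y) (M *ᵥ z) = M.det * det3 x y z := by
  simp [det3, Matrix.det_fin_three, mulVec, dotProduct, Fin.sum_univ_three]; ring

/-- Cramer's rule -/
lemma cramer3 {R : Type*} [CommRing R] (u v w x : Fin 3 → R) :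
    det3 u v w • x = det3 x v w • u + det3 u x w • v + det3 u v x • w := by
  ext j; fin_cases j <;> simp [det3] <;> ring

def rc (x : Fin 3 → ℤ) : Fin 3 → ℝ := fun j => (x j : ℝ)

lemma rc_det3 (x y z : Fin 3 → ℤ) : det3 (rc x) (rc y) (rc z) = ((det3 x y z : ℤ) : ℝ) := by
  simp [det3, rc]

lemma rc_cr (x y : Fin 3 → ℤ) : rc (cr x y) = cr (rc x) (rc y) := by
  ext j; fin_cases j <;> simp [cr, rc]

lemma rc_dot (x y : Fin 3 → ℤ) : rc x ⬝ᵥ rc y = ((x ⬝ᵥ y : ℤ) : ℝ) := by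
  simp [dotProduct, rc]

lemma rc_add (x y : Fin 3 → ℤ) : rc (x + y) = rc x + rc y := by ext j; simp [rc]
lemma rc_sub (x y : Fin 3 → ℤ) : rc (x - y) = rc x - rc y := by ext j; simp [rc]
lemma rc_neg (x : Fin 3 → ℤ) : rc (-x) = - rc x := by ext j; simp [rc]
lemma rc_smul (a : ℤ) (x : Fin 3 → ℤ) : rc (a • x) = (a : ℝ) • rc x := by ext j; simp [rc]
lemma rc_inj {x y : Fin 3 → ℤ} (h : rc x = rc y) : x = y := by
  ext j; have := congrFun h j; simpa [rc] using this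

lemma rc_mulVec (M : Matrix (Fin 3) (Fin 3) ℤ) (x : Fin 3 → ℤ) :
    rc (M *ᵥ x) = (M.map (Int.cast : ℤ → ℝ)) *ᵥ rc x := by
  ext j; simp [rc, mulVec, dotProduct]

lemma rc_vecMul (M : Matrix (Fin 3) (Fin 3) ℤ) (f : Fin 3 → ℤ) (y : Fin 3 → ℝ) :
    rc (f ᵥ* M) ⬝ᵥ y = rc f ⬝ᵥ ((M.map (Int.cast : ℤ → ℝ)) *ᵥ y) := by
  rw [dotProduct_mulVec]
  congr 1
  ext j; simp [rc, vecMul, dotProduct]

structure Ctx where
  A : Matrix (Fin 3) (Fin 3) ℤ
  μ : Fin 3 → ℝ
  b : Module.Basis (Fin 3) ℝ (Fin 3 → ℝ)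
  inj : Function.Injective μ
  eig : ∀ i, (A.map (Int.cast : ℤ → ℝ)) *ᵥ b i = μ i • b i
  irr : ∀ a : Fin 3 → ℤ, a ≠ 0 →
    (a 0 • (1 : Matrix (Fin 3) (Fin 3) ℤ) + a 1 • A + a 2 • (A * A)).det ≠ 0

namespace Ctx
variable (c : Ctx)

noncomputable def l (i : Fin 3) (x : Fin 3 → ℤ) : ℝ := c.b.repr (rc x) i

lemma repr3 (y : Fin 3 → ℝ) :
    y = c.b.repr y 0 • c.b 0 + c.b.repr y 1 • c.b 1 + c.b.repr y 2 • c.b 2 := by
  conv_lhs => rw [← c.b.sum_repr y, Fin.sum_univ_three]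

lemma rc_eq (x : Fin 3 → ℤ) : rc x = c.l 0 x • c.b 0 + c.l 1 x • c.b 1 + c.l 2 x • c.b 2 :=
  c.repr3 _

lemma l_add (i : Fin 3) (x y : Fin 3 → ℤ) : c.l i (x + y) = c.l i x + c.l i y := by
  simp [l, rc_add]
lemma l_sub (i : Fin 3) (x y : Fin 3 → ℤ) : c.l i (x - y) = c.l i x - c.l i y := by
  simp [l, rc_sub]
lemma l_smul (i : Fin 3) (a : ℤ) (x : Fin 3 → ℤ) : c.l i (a • x) = a * c.l i x := by
  simp only [l, rc_smul, map_smul, Finsupp.smul_apply, smul_eq_mul]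

lemma dot_eq (lam : Fin 3 → ℝ) (x : Fin 3 → ℤ) : lam ⬝ᵥ rc x =
    c.l 0 x * (lam ⬝ᵥ c.b 0) + c.l 1 x * (lam ⬝ᵥ c.b 1) + c.l 2 x * (lam ⬝ᵥ c.b 2) := by
  conv_lhs => rw [c.rc_eq x]
  simp [dotProduct_add, dotProduct_smul]

lemma l_diag (M : Matrix (Fin 3) (Fin 3) ℤ) (r : Fin 3 → ℝ)
    (h : ∀ i, (M.map (Int.cast : ℤ → ℝ)) *ᵥ c.b i = r i • c.b i) (i : Fin 3) (x : Fin 3 → ℤ) :
    c.l i (M *ᵥ x) = r i * c.l i x := by
  have : rc (M *ᵥ x) = (r 0 * c.l 0 x) • c.b 0 + (r 1 * c.l 1 x) • c.b 1 +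
      (r 2 * c.l 2 x) • c.b 2 := by
    rw [rc_mulVec]
    conv_lhs => rw [c.rc_eq x]
    simp only [mulVec_add, mulVec_smul, h, smul_smul]
    simp only [mul_comm]
  unfold l
  rw [this]
  fin_cases i <;> simp [l]

noncomputable def D : ℝ := det3 (c.b 0) (c.b 1) (c.b 2)
noncomputable def Vd : ℝ := (c.μ 1 - c.μ 0) * (c.μ 2 - c.μ 0) * (c.μ 2 - c.μ 1)

lemma det3_expand (y z w : Fin 3 → ℝ) :
    det3 y z w = det3 (c.b.repr y) (c.b.repr z) (c.b.repr w) * c.D := by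
  conv_lhs => rw [c.repr3 y, c.repr3 z, c.repr3 w]
  simp only [det3, D, Pi.add_apply, Pi.smul_apply, smul_eq_mul]
  ring

lemma D_ne : c.D ≠ 0 := by
  intro h
  have := c.det3_expand ![1, 0, 0] ![0, 1, 0] ![0, 0, 1]
  rw [h, mul_zero] at this
  simp [det3] at this

lemma Vd_ne : c.Vd ≠ 0 := by
  have h01 : c.μ 1 ≠ c.μ 0 := fun h => by simpa using c.inj h
  have h02 : c.μ 2 ≠ c.μ 0 := fun h => by simpa using c.inj h
  have h12 : c.μ 2 ≠ c.μ 1 := fun h => by simpa using c.inj h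
  exact mul_ne_zero (mul_ne_zero (sub_ne_zero.mpr h01) (sub_ne_zero.mpr h02))
    (sub_ne_zero.mpr h12)

/-- integer norm of a vector -/
def nv (x : Fin 3 → ℤ) : ℤ := det3 x (c.A *ᵥ x) (c.A *ᵥ (c.A *ᵥ x))
/-- integer norm of a covector -/
def nf (f : Fin 3 → ℤ) : ℤ := det3 f (f ᵥ* c.A) ((f ᵥ* c.A) ᵥ* c.A)

lemma nv_eq (x : Fin 3 → ℤ) :
    (c.nv x : ℝ) = c.l 0 x * c.l 1 x * c.l 2 x * c.Vd * c.D := by
  rw [nv, ← rc_det3, c.det3_expand]
  have h1 := fun i => c.l_diag c.A c.μ c.eig i x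
  have h2 := fun i => c.l_diag c.A c.μ c.eig i (c.A *ᵥ x)
  simp only [l] at h1 h2
  simp only [det3, h1, h2, l, Vd]
  ring

lemma nf_eq (f : Fin 3 → ℤ) :
    (c.nf f : ℝ) * c.D = (rc f ⬝ᵥ c.b 0) * (rc f ⬝ᵥ c.b 1) * (rc f ⬝ᵥ c.b 2) * c.Vd := by
  rw [nf, ← rc_det3, D, det3_mul_det3]
  simp only [rc_vecMul, c.eig, dotProduct_smul, smul_eq_mul]
  simp [det3, Vd]
  ring

lemma nv_ne {x : Fin 3 → ℤ} (hx : x ≠ 0) : c.nv x ≠ 0 := by
  intro h
  rw [nv, det3_eq_det] at h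
  obtain ⟨a, ha, h2⟩ := Matrix.exists_vecMul_eq_zero_iff.mpr h
  apply c.irr a ha
  apply Matrix.exists_mulVec_eq_zero_iff.mp
  refine ⟨x, hx, ?_⟩
  rw [← h2]
  simp only [add_mulVec, smul_mulVec, one_mulVec, ← mulVec_mulVec]
  ext j
  simp [vecMul, dotProduct, Fin.sum_univ_three]

lemma nf_ne {f : Fin 3 → ℤ} (hf : f ≠ 0) : c.nf f ≠ 0 := by
  intro h
  rw [nf, det3_eq_det] at h
  obtain ⟨a, ha, h2⟩ := Matrix.exists_vecMul_eq_zero_iff.mpr h
  apply c.irr a ha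
  apply Matrix.exists_vecMul_eq_zero_iff.mp
  refine ⟨f, hf, ?_⟩
  rw [← h2]
  simp only [vecMul_add, vecMul_smul, vecMul_one, ← vecMul_vecMul]
  ext j
  simp [vecMul, dotProduct, Fin.sum_univ_three]

lemma l_ne {x : Fin 3 → ℤ} (hx : x ≠ 0) (i : Fin 3) : c.l i x ≠ 0 := by
  have h : (c.nv x : ℝ) ≠ 0 := by exact_mod_cast c.nv_ne hx
  rw [nv_eq] at h
  intro h0
  apply h
  fin_cases i <;> simp at h0 <;> simp [h0]

lemma f_ne {f : Fin 3 → ℤ} (hf : f ≠ 0) (i : Fin 3) : rc f ⬝ᵥ c.b i ≠ 0 := by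
  have h : (c.nf f : ℝ) * c.D ≠ 0 := mul_ne_zero (by exact_mod_cast c.nf_ne hf) c.D_ne
  rw [nf_eq] at h
  intro h0
  apply h
  fin_cases i <;> simp at h0 <;> simp [h0]

/-- lattice points of the open cone -/
def S : Set (Fin 3 → ℤ) := {x | ∀ i, 0 < c.l i x}

lemma S_ne {x : Fin 3 → ℤ} (hx : x ∈ c.S) : x ≠ 0 := by
  rintro rfl
  have := hx 0
  have h0 : rc 0 = 0 := by ext j; simp [rc]
  simp [l, h0] at this

lemma S_nonempty : c.S.Nonempty := by
  let C : ℝ := ∑ i, ‖LinearMap.toContinuousLinearMap (c.b.coord i)‖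
  let y : Fin 3 → ℝ := (C + 1) • (c.b 0 + c.b 1 + c.b 2)
  refine ⟨fun j => ⌊y j⌋, fun i => ?_⟩
  have h1 : ‖y - rc (fun j => ⌊y j⌋)‖ ≤ 1 := by
    refine (pi_norm_le_iff_of_nonneg zero_le_one).mpr fun j => ?_
    simp only [Pi.sub_apply, rc, Int.self_sub_floor, Real.norm_eq_abs]
    rw [abs_of_nonneg (Int.fract_nonneg _)]
    exact (Int.fract_lt_one _).le
  have h2 := (LinearMap.toContinuousLinearMap (c.b.coord i)).le_opNorm (y - rc (fun j => ⌊y j⌋))
  have h3 : ‖LinearMap.toContinuousLinearMap (c.b.coord i)‖ ≤ C :=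
    Finset.single_le_sum (f := fun i => ‖LinearMap.toContinuousLinearMap (c.b.coord i)‖)
      (fun _ _ => norm_nonneg _) (Finset.mem_univ i)
  have h4 : c.b.repr y i = C + 1 := by
    fin_cases i <;> simp [y]
  have h5 : |c.b.repr y i - c.l i (fun j => ⌊y j⌋)| ≤ C := by
    have : ‖LinearMap.toContinuousLinearMap (c.b.coord i)‖ * ‖y - rc (fun j => ⌊y j⌋)‖ ≤ C * 1 :=
      mul_le_mul h3 h1 (norm_nonneg _) ((norm_nonneg _).trans h3)
    simp only [LinearMap.coe_toContinuousLinearMap', map_sub, Module.Basis.coord_apply,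
      Real.norm_eq_abs] at h2
    unfold l
    linarith
  rw [h4] at h5
  have := (abs_le.mp h5).2
  linarith

end Ctx

lemma approx2 (s t ε : ℝ) (hε : 0 < ε) : ∃ a : Fin 3 → ℤ, a ≠ 0 ∧
    |a 0 + a 1 * s + a 2 * s ^ 2| < ε ∧ |a 0 + a 1 * t + a 2 * t ^ 2| < ε := by
  obtain ⟨N, hN⟩ := exists_nat_gt ((1 + |s| + |t|) / ε)
  have hpos : 0 < 1 + |s| + |t| := by positivity
  have hN0 : (0 : ℝ) < N := lt_trans (div_pos hpos hε) hN
  set θ1 : ℝ := -(s * t)
  set θ2 : ℝ := s + t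
  let g : ℤ → ℤ × ℤ := fun n => (⌊N * Int.fract (n * θ1)⌋, ⌊N * Int.fract (n * θ2)⌋)
  have hg : ∀ x : ℝ, ⌊N * Int.fract x⌋ ∈ Finset.Icc (0 : ℤ) N := by
    intro x
    rw [Finset.mem_Icc]
    constructor
    · exact Int.floor_nonneg.mpr (mul_nonneg hN0.le (Int.fract_nonneg x))
    · have : N * Int.fract x ≤ N := by nlinarith [Int.fract_lt_one x]
      exact_mod_cast (Int.floor_le _).trans this
  obtain ⟨m, -, n, -, hmn, hE⟩ := Set.infinite_univ.exists_ne_map_eq_of_mapsTo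
    (f := g) (t := ((Finset.Icc (0 : ℤ) N ×ˢ Finset.Icc (0 : ℤ) N : Finset (ℤ × ℤ)) : Set _))
    (fun n _ => Finset.mem_coe.mpr (Finset.mem_product.mpr ⟨hg _, hg _⟩))
    (Finset.finite_toSet _)
  have h1 := Int.abs_sub_lt_one_of_floor_eq_floor (congrArg Prod.fst hE)
  have h2 := Int.abs_sub_lt_one_of_floor_eq_floor (congrArg Prod.snd hE)
  rw [← mul_sub, abs_mul, abs_of_pos hN0] at h1 h2
  set d1 := Int.fract (m * θ1) - Int.fract (n * θ1) with hd1
  set d2 := Int.fract (m * θ2) - Int.fract (n * θ2) with hd2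
  have key : ∀ r : ℝ, r ^ 2 = θ1 + θ2 * r → |r| ≤ |s| + |t| →
      |((⌊n * θ1⌋ - ⌊m * θ1⌋ : ℤ) : ℝ) + ((⌊n * θ2⌋ - ⌊m * θ2⌋ : ℤ) : ℝ) * r +
        ((m - n : ℤ) : ℝ) * r ^ 2| < ε := by
    intro r hr hr2
    have : ((⌊n * θ1⌋ - ⌊m * θ1⌋ : ℤ) : ℝ) + ((⌊n * θ2⌋ - ⌊m * θ2⌋ : ℤ) : ℝ) * r +
        ((m - n : ℤ) : ℝ) * r ^ 2 = d1 + d2 * r := by
      rw [hd1, hd2, hr]; simp only [Int.fract]; push_cast; ring
    rw [this]
    have h3 : |d1 + d2 * r| ≤ |d1| + |d2| * |r| := by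
      rw [← abs_mul]; exact abs_add_le _ _
    have h4 : N * |d1 + d2 * r| < 1 + |s| + |t| := by
      have := abs_nonneg r
      have := abs_nonneg d2
      nlinarith
    rw [div_lt_iff₀ hε] at hN
    nlinarith [abs_nonneg (d1 + d2 * r)]
  refine ⟨![⌊n * θ1⌋ - ⌊m * θ1⌋, ⌊n * θ2⌋ - ⌊m * θ2⌋, m - n], ?_, ?_, ?_⟩
  · intro h0
    have := congrFun h0 2
    simp at this
    omega
  · exact key s (by simp [θ1, θ2]; ring) (by linarith [abs_nonneg t])
  · exact key t (by simp [θ1, θ2]; ring) (by linarith [abs_nonneg s])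

namespace Ctx
variable (c : Ctx)

lemma small (j k : Fin 3) (ε : ℝ) (hε : 0 < ε) : ∃ x ∈ c.S, c.l j x < ε ∧ c.l k x < ε := by
  obtain ⟨u, hu⟩ := c.S_nonempty
  have hj := hu j
  have hk := hu k
  set η : ℝ := min 1 (ε / (c.l j u + c.l k u)) with hη
  have hη0 : 0 < η := lt_min one_pos (by positivity)
  obtain ⟨a, ha, h1, h2⟩ := approx2 (c.μ j) (c.μ k) η hη0
  set M := a 0 • (1 : Matrix (Fin 3) (Fin 3) ℤ) + a 1 • c.A + a 2 • (c.A * c.A) with hM
  set r : Fin 3 → ℝ := fun i => a 0 + a 1 * c.μ i + a 2 * c.μ i ^ 2 with hr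
  have hl : ∀ i x, c.l i (M *ᵥ x) = r i * c.l i x := by
    intro i x
    simp only [hM, add_mulVec, smul_mulVec, one_mulVec, ← mulVec_mulVec, l_add, l_smul,
      c.l_diag c.A c.μ c.eig, hr]
    ring
  have hMu : M *ᵥ u ≠ 0 := fun h => c.irr a ha
    (Matrix.exists_mulVec_eq_zero_iff.mp ⟨u, c.S_ne hu, h⟩)
  have hr0 : ∀ i, r i ≠ 0 := by
    intro i h0
    have := c.l_ne hMu i
    rw [hl, h0] at this
    simp at this
  have hsq : ∀ i, |r i| < η → r i * (r i * (c.l j u + c.l k u)) < ε := by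
    intro i hi
    have e1 : η ≤ 1 := min_le_left _ _
    have e2 : η ≤ ε / (c.l j u + c.l k u) := min_le_right _ _
    rw [le_div_iff₀ (by positivity)] at e2
    have e3 : r i * r i < η := by
      rw [← abs_mul_abs_self]
      nlinarith [abs_nonneg (r i)]
    nlinarith
  refine ⟨M *ᵥ (M *ᵥ u), fun i => ?_, ?_, ?_⟩
  · rw [hl, hl, ← mul_assoc]
    exact mul_pos (mul_self_pos.mpr (hr0 i)) (hu i)
  · rw [hl, hl]
    have := hsq j h1
    nlinarith [mul_self_nonneg (r j)]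
  · rw [hl, hl]
    have := hsq k h2
    nlinarith [mul_self_nonneg (r k)]

lemma interior (lam : Fin 3 → ℝ) (h : ∀ x ∈ c.S, 1 ≤ lam ⬝ᵥ rc x) (i : Fin 3) :
    0 < lam ⬝ᵥ c.b i := by
  by_contra h0
  push Not at h0
  have aux : ∀ j k : Fin 3, (∀ x, lam ⬝ᵥ rc x = c.l i x * (lam ⬝ᵥ c.b i) +
      c.l j x * (lam ⬝ᵥ c.b j) + c.l k x * (lam ⬝ᵥ c.b k)) → False := by
    intro j k hjk
    set a := lam ⬝ᵥ c.b j
    set b := lam ⬝ᵥ c.b k
    obtain ⟨x, hx, h1, h2⟩ := c.small j k (1 / (1 + |a| + |b|)) (by positivity)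
    have h3 := h x hx
    rw [hjk] at h3
    rw [lt_div_iff₀ (by positivity)] at h1 h2
    have := hx i
    have := hx j
    have := hx k
    have e1 : c.l j x * a ≤ c.l j x * |a| := by gcongr; exact le_abs_self a
    have e2 : c.l k x * b ≤ c.l k x * |b| := by gcongr; exact le_abs_self b
    have e3 : c.l i x * (lam ⬝ᵥ c.b i) ≤ 0 := by nlinarith
    have e4 : (c.l j x * |a| + c.l k x * |b|) * (1 + |a| + |b|) ≤ |a| + |b| := by
      nlinarith [abs_nonneg a, abs_nonneg b]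
    have e5 : 1 ≤ c.l j x * |a| + c.l k x * |b| := by linarith
    nlinarith [abs_nonneg a, abs_nonneg b]
  fin_cases i
  · exact aux 1 2 fun x => by rw [c.dot_eq]; simp
  · exact aux 0 2 fun x => by rw [c.dot_eq]; simp; ring
  · exact aux 0 1 fun x => by rw [c.dot_eq]; simp; ring

lemma fin_cap (lam : Fin 3 → ℝ) (h : ∀ i, 0 < lam ⬝ᵥ c.b i) :
    {x ∈ c.S | lam ⬝ᵥ rc x ≤ 1}.Finite := by
  set B : ℝ := ‖c.b 0‖ / (lam ⬝ᵥ c.b 0) + ‖c.b 1‖ / (lam ⬝ᵥ c.b 1) + ‖c.b 2‖ / (lam ⬝ᵥ c.b 2)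
  refine (Set.finite_Icc (fun _ : Fin 3 => -⌈B⌉) (fun _ => ⌈B⌉)).subset ?_
  rintro x ⟨hx, hx1⟩
  rw [c.dot_eq] at hx1
  have p0 := mul_pos (hx 0) (h 0)
  have p1 := mul_pos (hx 1) (h 1)
  have p2 := mul_pos (hx 2) (h 2)
  have q : ∀ i, c.l i x * (lam ⬝ᵥ c.b i) ≤ 1 → ‖c.l i x • c.b i‖ ≤ ‖c.b i‖ / (lam ⬝ᵥ c.b i) := by
    intro i hi
    rw [norm_smul, Real.norm_eq_abs, abs_of_pos (hx i), le_div_iff₀ (h i)]
    nlinarith [norm_nonneg (c.b i)]
  have hn : ‖rc x‖ ≤ B := by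
    rw [c.rc_eq x]
    refine norm_add₃_le.trans ?_
    have := q 0 (by linarith)
    have := q 1 (by linarith)
    have := q 2 (by linarith)
    simp only [B]; linarith
  have hj : ∀ j, |(x j : ℝ)| ≤ ⌈B⌉ := fun j =>
    ((norm_le_pi_norm (rc x) j).trans hn).trans (Int.le_ceil B)
  constructor
  · intro j
    have := (abs_le.mp (hj j)).1
    exact_mod_cast this
  · intro j
    have := (abs_le.mp (hj j)).2
    exact_mod_cast this

/-- gift wrapping step -/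
lemma gift (lam n : Fin 3 → ℝ) (h : ∀ x ∈ c.S, 1 ≤ lam ⬝ᵥ rc x) (x0 : Fin 3 → ℤ)
    (hx0 : x0 ∈ c.S) (hn0 : n ⬝ᵥ rc x0 < 0) :
    ∃ s : ℝ, 0 ≤ s ∧ (∀ x ∈ c.S, 1 ≤ (lam + s • n) ⬝ᵥ rc x) ∧
      ∃ x ∈ c.S, n ⬝ᵥ rc x < 0 ∧ (lam + s • n) ⬝ᵥ rc x = 1 := by
  let ρ : (Fin 3 → ℤ) → ℝ := fun x => (lam ⬝ᵥ rc x - 1) / (-(n ⬝ᵥ rc x))
  let T : Set (Fin 3 → ℤ) := {x ∈ c.S | n ⬝ᵥ rc x < 0}
  have hρ0 : ∀ x ∈ T, 0 ≤ ρ x := fun x hx =>
    div_nonneg (by linarith [h x hx.1]) (by linarith [hx.2])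
  have hne : (ρ '' T).Nonempty := ⟨_, x0, ⟨hx0, hn0⟩, rfl⟩
  have hbd : BddBelow (ρ '' T) := ⟨0, by rintro _ ⟨x, hx, rfl⟩; exact hρ0 x hx⟩
  set s := sInf (ρ '' T) with hs
  have hs0 : 0 ≤ s := le_csInf hne (by rintro _ ⟨x, hx, rfl⟩; exact hρ0 x hx)
  have hle : ∀ x ∈ T, s ≤ ρ x := fun x hx => csInf_le hbd ⟨x, hx, rfl⟩
  have hge : ∀ x ∈ c.S, 1 ≤ (lam + s • n) ⬝ᵥ rc x := by
    intro x hx
    rw [add_dotProduct, smul_dotProduct, smul_eq_mul]
    rcases lt_or_ge (n ⬝ᵥ rc x) 0 with h1 | h1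
    · have := hle x ⟨hx, h1⟩
      simp only [ρ] at this
      rw [le_div_iff₀ (by linarith)] at this
      linarith
    · have := h x hx
      nlinarith
  refine ⟨s, hs0, hge, ?_⟩
  have hint := c.interior _ hge
  obtain ⟨ε, hε, hε2⟩ : ∃ ε : ℝ, 0 < ε ∧ ∀ i, 0 < (lam + (s + ε) • n) ⬝ᵥ c.b i := by
    have hc : ∀ i, ∀ᶠ e in nhds (0 : ℝ), 0 < (lam + (s + e) • n) ⬝ᵥ c.b i := by
      intro i
      have : Continuous fun e : ℝ => (lam + (s + e) • n) ⬝ᵥ c.b i := by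
        simp only [add_dotProduct, smul_dotProduct, smul_eq_mul]
        fun_prop
      exact this.continuousAt.eventually (lt_mem_nhds (by simpa using hint i))
    have := (Filter.eventually_all.mpr hc).filter_mono (nhdsWithin_le_nhds (s := Set.Ioi 0))
    obtain ⟨e, he1, he2⟩ := (this.and self_mem_nhdsWithin).exists
    exact ⟨e, he2, he1⟩
  let Z : Set (Fin 3 → ℤ) := {x ∈ T | ρ x < s + ε}
  have hZf : Z.Finite := by
    refine (c.fin_cap _ hε2).subset ?_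
    rintro x ⟨hx, hx2⟩
    refine ⟨hx.1, ?_⟩
    simp only [ρ] at hx2
    rw [div_lt_iff₀ (by linarith [hx.2])] at hx2
    rw [add_dotProduct, smul_dotProduct, smul_eq_mul]
    linarith
  have hZn : Z.Nonempty := by
    obtain ⟨_, ⟨x, hx, rfl⟩, h2⟩ := exists_lt_of_csInf_lt hne (by linarith : s < s + ε)
    exact ⟨x, hx, h2⟩
  obtain ⟨x, hx, hmin⟩ := Set.exists_min_image Z ρ hZf hZn
  refine ⟨x, hx.1.1, hx.1.2, ?_⟩
  have h1 : ρ x ≤ s := by
    refine le_csInf hne ?_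
    rintro _ ⟨y, hy, rfl⟩
    by_cases hyZ : ρ y < s + ε
    · exact hmin y ⟨hy, hyZ⟩
    · have := hx.2
      linarith
  have h2 : ρ x = s := le_antisymm h1 (hle x hx.1)
  simp only [ρ] at h2
  rw [div_eq_iff (by linarith [hx.1.2])] at h2
  rw [add_dotProduct, smul_dotProduct, smul_eq_mul]
  linarith

/-- a nonzero functional vanishing at a point of the open cone is negative somewhere on it -/
lemma exists_neg (n : Fin 3 → ℤ) (hn : n ≠ 0) (u : Fin 3 → ℤ) (hu : u ∈ c.S)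
    (hnu : n ⬝ᵥ u = 0) : ∃ x ∈ c.S, n ⬝ᵥ x < 0 := by
  have hnn : 0 < n ⬝ᵥ n := by
    rcases (dotProduct_self_star_nonneg n).lt_or_eq with h | h
    · simpa using h
    · exact absurd (dotProduct_self_eq_zero.mp (by simpa using h.symm)) hn
  have hc : ∀ i, ∀ᶠ k : ℕ in Filter.atTop, c.l i n / c.l i u < k := fun i =>
    tendsto_natCast_atTop_atTop.eventually_gt_atTop _
  obtain ⟨k, hk⟩ := (Filter.eventually_all.mpr hc).exists
  refine ⟨(k : ℤ) • u - n, fun i => ?_, ?_⟩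
  · have := hk i
    rw [div_lt_iff₀ (hu i)] at this
    rw [l_sub, l_smul]
    push_cast; linarith
  · rw [dotProduct_sub, dotProduct_smul, hnu]; simpa using hnn

end Ctx

end Pool.Agent.MP_024ca5_nt

end

-- part MP_024ca5_nt.Farey
section

/-! Two exactness lemmas on the plane lattice: a potential on the Farey graph
(Dedekind reciprocity type) and a potential for closed cochains on unimodular triangles. -/

set_option autoImplicit false

namespace Pool.Agent.MP_024ca5_nt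

/-- sign function, only used at nonzero arguments -/
noncomputable def sg (x : ℝ) : ℝ := if 0 < x then 1 else -1

/-- the reciprocity cochain -/
noncomputable def EE (a b : ℝ) : ℝ := 3 * (sg a * sg b) - a / b - b / a

lemma sg_pos {x : ℝ} (h : 0 < x) : sg x = 1 := by simp [sg, h]
lemma sg_neg' {x : ℝ} (h : x < 0) : sg x = -1 := by simp [sg, not_lt.mpr h.le]
lemma sg_neg {x : ℝ} (h : x ≠ 0) : sg (-x) = - sg x := by
  rcases lt_or_gt_of_ne h with h | h
  · rw [sg_neg' h, sg_pos (by linarith)]; simp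
  · rw [sg_pos h, sg_neg' (by linarith)]

lemma EE_symm (a b : ℝ) : EE a b = EE b a := by unfold EE; ring

lemma EE_neg_left {a : ℝ} (b : ℝ) (ha : a ≠ 0) : EE (-a) b = - EE a b := by
  unfold EE; rw [sg_neg ha, div_neg, neg_div]; ring

lemma EE_neg_right (a : ℝ) {b : ℝ} (hb : b ≠ 0) : EE a (-b) = - EE a b := by
  rw [EE_symm, EE_neg_left _ hb, EE_symm]

lemma EE_closed {a b : ℝ} (ha : a ≠ 0) (hb : b ≠ 0) (hab : a + b ≠ 0) :
    EE a (a + b) + EE (a + b) b = EE a b := by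
  have h1 : sg a * sg (a + b) + sg (a + b) * sg b - sg a * sg b = 1 := by
    rcases lt_or_gt_of_ne ha with ha | ha <;> rcases lt_or_gt_of_ne hb with hb | hb
    · rw [sg_neg' ha, sg_neg' hb, sg_neg' (by linarith : a + b < 0)]; norm_num
    · rw [sg_neg' ha, sg_pos hb]; ring
    · rw [sg_pos ha, sg_neg' hb]; ring
    · rw [sg_pos ha, sg_pos hb, sg_pos (by linarith : 0 < a + b)]; norm_num
  have h2 : a / (a + b) + (a + b) / a + (a + b) / b + b / (a + b) - a / b - b / a = 3 := by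
    field_simp; ring
  unfold EE
  linarith

/-- recursive potential along the Stern-Brocot tree -/
noncomputable def FF (α β : ℝ) (a b : ℕ) : ℝ :=
  if _hb : b = 0 then 0 else if _ha : a = 0 then EE α β
  else if _hab : b ≤ a then FF α (α + β) (a - b) b
  else EE α (α + β) + FF (α + β) β a (b - a)
termination_by a + b
decreasing_by all_goals omega

def Indep (α β : ℝ) : Prop := ∀ m n : ℤ, (m : ℝ) * α + n * β = 0 → m = 0 ∧ n = 0

lemma Indep.left {α β : ℝ} (h : Indep α β) : α ≠ 0 := by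
  intro h0; have := h 1 0 (by simp [h0]); simp at this
lemma Indep.right {α β : ℝ} (h : Indep α β) : β ≠ 0 := by
  intro h0; have := h 0 1 (by simp [h0]); simp at this
lemma Indep.add {α β : ℝ} (h : Indep α β) : α + β ≠ 0 := by
  intro h0; have := h 1 1 (by simpa using h0); simp at this
lemma Indep.step1 {α β : ℝ} (h : Indep α β) : Indep α (α + β) := by
  intro m n h0
  have := h (m + n) n (by push_cast; linarith)
  omega
lemma Indep.step2 {α β : ℝ} (h : Indep α β) : Indep (α + β) β := by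
  intro m n h0
  have := h m (m + n) (by push_cast; linarith)
  omega
lemma Indep.rot {α β : ℝ} (h : Indep α β) : Indep (-β) α := by
  intro m n h0
  have := h n (-m) (by push_cast; linarith)
  omega

lemma FF_zero (α β : ℝ) (a : ℕ) : FF α β a 0 = 0 := by rw [FF]; simp
lemma FF_zero' (α β : ℝ) {b : ℕ} (hb : b ≠ 0) : FF α β 0 b = EE α β := by rw [FF]; simp [hb]

lemma FF_U1 (α β : ℝ) {a b : ℕ} (hab : b ≤ a) : FF α β a b = FF α (α + β) (a - b) b := by
  rcases Nat.eq_zero_or_pos b with rfl | hb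
  · simp [FF_zero]
  · have ha : a ≠ 0 := by omega
    rw [FF]; simp [hb.ne', hab, ha]

lemma FF_U2 {α β : ℝ} (h : Indep α β) {a b : ℕ} (hab : a ≤ b) (hb : b ≠ 0) :
    FF α β a b = EE α (α + β) + FF (α + β) β a (b - a) := by
  rcases Nat.eq_zero_or_pos a with rfl | ha
  · rw [FF_zero' _ _ hb, Nat.sub_zero, FF_zero' _ _ hb, EE_closed h.left h.right h.add]
  · rcases hab.lt_or_eq with hlt | rfl
    · rw [FF]; simp [hb, ha.ne', not_le.mpr hlt]
    · rw [FF_U1 _ _ le_rfl, Nat.sub_self, FF_zero' _ _ hb, FF_zero, add_zero]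

lemma FF_diff (N : ℕ) : ∀ (α β : ℝ), Indep α β → ∀ a b c d : ℕ, a + b + c + d ≤ N →
    a * d = b * c + 1 →
    FF α β c d - FF α β a b = EE (a * α + b * β) (c * α + d * β) := by
  induction N with
  | zero =>
    intro α β _ a b c d hN h
    have : a = 0 := by omega
    subst this; simp at h
  | succ N ih =>
    intro α β hI a b c d hN h
    have ha : a ≠ 0 := by rintro rfl; simp at h
    have hd : d ≠ 0 := by rintro rfl; simp at h
    by_cases h1 : b ≤ a ∧ d ≤ c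
    · obtain ⟨a', rfl⟩ := Nat.exists_eq_add_of_le h1.1
      obtain ⟨c', rfl⟩ := Nat.exists_eq_add_of_le h1.2
      rw [FF_U1 _ _ h1.1, FF_U1 _ _ h1.2, Nat.add_sub_cancel_left, Nat.add_sub_cancel_left,
        ih α (α + β) hI.step1 a' b c' d (by omega) (by nlinarith)]
      congr 1 <;> push_cast <;> ring
    · by_cases h2 : a ≤ b ∧ c ≤ d
      · obtain ⟨b', rfl⟩ := Nat.exists_eq_add_of_le h2.1
        obtain ⟨d', rfl⟩ := Nat.exists_eq_add_of_le h2.2
        rw [FF_U2 hI h2.1 (by omega), FF_U2 hI h2.2 hd, Nat.add_sub_cancel_left,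
          Nat.add_sub_cancel_left, add_sub_add_left_eq_sub,
          ih (α + β) β hI.step2 a b' c d' (by omega) (by nlinarith)]
        congr 1 <;> push_cast <;> ring
      · have h3 : b < a ∧ c < d := by
          by_contra h4
          have h5 : a ≤ b ∧ d ≤ c := by omega
          nlinarith [Nat.mul_le_mul h5.1 h5.2]
        have hb : b = 0 := by nlinarith [Nat.mul_le_mul h3.1 h3.2]
        have hc : c = 0 := by nlinarith [Nat.mul_le_mul h3.1 h3.2]
        subst hb hc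
        have ha1 : a = 1 := by
          have : a * d = 1 := by simpa using h
          exact Nat.eq_one_of_mul_eq_one_right this
        have hd1 : d = 1 := by
          have : a * d = 1 := by simpa using h
          exact Nat.eq_one_of_mul_eq_one_left this
        subst ha1 hd1
        simp [FF_zero, FF_zero']

/-- symmetric form: determinant `ε = ±1` -/
lemma FF_diff' {α β : ℝ} (hI : Indep α β) (a b c d : ℕ) (ε : ℤ) (hε : ε = 1 ∨ ε = -1)
    (h : (a : ℤ) * d - b * c = ε) :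
    FF α β c d - FF α β a b = ε * EE (a * α + b * β) (c * α + d * β) := by
  rcases hε with rfl | rfl
  · rw [FF_diff _ α β hI a b c d le_rfl (by zify; linarith)]; simp
  · have := FF_diff _ α β hI c d a b le_rfl (by zify; linarith)
    rw [EE_symm] at this
    push_cast; linarith

/-- the potential on all of the plane lattice -/
noncomputable def QQ (α β : ℝ) (m n : ℤ) : ℝ :=
  if 0 ≤ m * n then FF α β m.natAbs n.natAbs else EE α β + FF (-β) α n.natAbs m.natAbs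

lemma QQ_neg (α β : ℝ) (m n : ℤ) : QQ α β (-m) (-n) = QQ α β m n := by
  simp [QQ]

lemma QQ_pos (α β : ℝ) (a b : ℕ) : QQ α β a b = FF α β a b := by
  have : (0 : ℤ) ≤ a * b := by positivity
  simp [QQ, this]

lemma QQ_mixed {α β : ℝ} (hI : Indep α β) (a b : ℕ) (hab : a ≠ 0 ∨ b ≠ 0) :
    QQ α β a (-b) = EE α β + FF (-β) α b a := by
  rcases Nat.eq_zero_or_pos a with rfl | ha
  · have hb : b ≠ 0 := by omega
    simp [QQ, FF_zero, FF_zero' _ _ hb]
  · rcases Nat.eq_zero_or_pos b with rfl | hb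
    · simp only [QQ, Nat.cast_zero, neg_zero, mul_zero, le_refl, if_true, Int.natAbs_zero, FF_zero]
      rw [FF_zero' _ _ ha.ne', EE_neg_left _ hI.right, EE_symm]; ring
    · have : ¬ (0 : ℤ) ≤ a * (-b) := by
        have : (0 : ℤ) < a * b := by positivity
        linarith
      simp only [QQ, this, if_false, Int.natAbs_neg, Int.natAbs_natCast]

lemma QQ_aux {α β : ℝ} (hI : Indep α β) (m n m' n' ε : ℤ) (hε : ε = 1 ∨ ε = -1)
    (h : m * n' - n * m' = ε) (hm : 0 ≤ m) (hm' : 0 ≤ m')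
    (hs : (0 ≤ n ∧ 0 ≤ n') ∨ (n ≤ 0 ∧ n' ≤ 0)) :
    QQ α β m' n' - QQ α β m n = ε * EE (m * α + n * β) (m' * α + n' * β) := by
  obtain ⟨a, rfl⟩ := Int.eq_ofNat_of_zero_le hm
  obtain ⟨c, rfl⟩ := Int.eq_ofNat_of_zero_le hm'
  rcases hs with ⟨hn, hn'⟩ | ⟨hn, hn'⟩
  · obtain ⟨b, rfl⟩ := Int.eq_ofNat_of_zero_le hn
    obtain ⟨d, rfl⟩ := Int.eq_ofNat_of_zero_le hn'
    rw [QQ_pos, QQ_pos, FF_diff' hI a b c d ε hε h]; simp
  · obtain ⟨b, hb⟩ := Int.eq_ofNat_of_zero_le (neg_nonneg.mpr hn)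
    obtain ⟨d, hd⟩ := Int.eq_ofNat_of_zero_le (neg_nonneg.mpr hn')
    obtain rfl : n = -b := by linarith
    obtain rfl : n' = -d := by linarith
    have h1 : a ≠ 0 ∨ b ≠ 0 := by
      by_contra h0; push Not at h0; obtain ⟨rfl, rfl⟩ := h0; simp at h; omega
    have h2 : c ≠ 0 ∨ d ≠ 0 := by
      by_contra h0; push Not at h0; obtain ⟨rfl, rfl⟩ := h0; simp at h; omega
    rw [QQ_mixed hI a b h1, QQ_mixed hI c d h2, add_sub_add_left_eq_sub,
      FF_diff' hI.rot b a d c ε hε (by linarith)]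
    congr 2 <;> push_cast <;> ring

theorem QQ_diff {α β : ℝ} (hI : Indep α β) (m n m' n' ε : ℤ) (hε : ε = 1 ∨ ε = -1)
    (h : m * n' - n * m' = ε) :
    QQ α β m' n' - QQ α β m n = ε * EE (m * α + n * β) (m' * α + n' * β) := by
  have nz : ∀ m n m' n' ε : ℤ, (ε = 1 ∨ ε = -1) → m * n' - n * m' = ε →
      (m : ℝ) * α + n * β ≠ 0 ∧ (m' : ℝ) * α + n' * β ≠ 0 := by
    intro m n m' n' ε hε h
    constructor
    · intro h0; obtain ⟨rfl, rfl⟩ := hI _ _ h0; simp at h; omega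
    · intro h0; obtain ⟨rfl, rfl⟩ := hI _ _ h0; simp at h; omega
  have flip1 : ∀ m n m' n' ε : ℤ, (ε = 1 ∨ ε = -1) → m * n' - n * m' = ε →
      QQ α β m' n' - QQ α β (-m) (-n) = ((-ε : ℤ) : ℝ) *
        EE (((-m : ℤ) : ℝ) * α + ((-n : ℤ) : ℝ) * β) (m' * α + n' * β) →
      QQ α β m' n' - QQ α β m n = ε * EE (m * α + n * β) (m' * α + n' * β) := by
    intro m n m' n' ε hε h h1
    rw [QQ_neg] at h1
    rw [h1, show ((-m : ℤ) : ℝ) * α + ((-n : ℤ) : ℝ) * β = -(m * α + n * β) by push_cast; ring,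
      EE_neg_left _ (nz _ _ _ _ _ hε h).1]
    push_cast; ring
  have flip2 : ∀ m n m' n' ε : ℤ, (ε = 1 ∨ ε = -1) → m * n' - n * m' = ε →
      QQ α β (-m') (-n') - QQ α β m n = ((-ε : ℤ) : ℝ) *
        EE (m * α + n * β) (((-m' : ℤ) : ℝ) * α + ((-n' : ℤ) : ℝ) * β) →
      QQ α β m' n' - QQ α β m n = ε * EE (m * α + n * β) (m' * α + n' * β) := by
    intro m n m' n' ε hε h h1
    rw [QQ_neg] at h1
    rw [h1, show ((-m' : ℤ) : ℝ) * α + ((-n' : ℤ) : ℝ) * β = -(m' * α + n' * β) by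
      push_cast; ring, EE_neg_right _ (nz _ _ _ _ _ hε h).2]
    push_cast; ring
  have key : ∀ m n m' n' ε : ℤ, (ε = 1 ∨ ε = -1) → m * n' - n * m' = ε → 0 ≤ m → 0 ≤ m' →
      QQ α β m' n' - QQ α β m n = ε * EE (m * α + n * β) (m' * α + n' * β) := by
    intro m n m' n' ε hε h hm hm'
    by_cases hs : (0 ≤ n ∧ 0 ≤ n') ∨ (n ≤ 0 ∧ n' ≤ 0)
    · exact QQ_aux hI m n m' n' ε hε h hm hm' hs
    · have hz : m = 0 ∨ m' = 0 := by
        by_contra h0
        have h1 : 0 < m := by omega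
        have h2 : 0 < m' := by omega
        rcases (by omega : (0 < n ∧ n' < 0) ∨ (n < 0 ∧ 0 < n')) with ⟨h3, h4⟩ | ⟨h3, h4⟩
        · have := mul_pos h1 (neg_pos.mpr h4)
          have := mul_pos h3 h2
          rcases hε with rfl | rfl <;> nlinarith
        · have := mul_pos h1 h4
          have := mul_pos (neg_pos.mpr h3) h2
          rcases hε with rfl | rfl <;> nlinarith
      rcases hz with rfl | rfl
      · apply flip1 _ _ _ _ _ hε h
        exact QQ_aux hI _ _ _ _ _ (by omega) (by linarith) (by simp) hm' (by omega)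
      · apply flip2 _ _ _ _ _ hε h
        exact QQ_aux hI _ _ _ _ _ (by omega) (by linarith) hm (by simp) (by omega)
  have key2 : ∀ m n m' n' ε : ℤ, (ε = 1 ∨ ε = -1) → m * n' - n * m' = ε → 0 ≤ m →
      QQ α β m' n' - QQ α β m n = ε * EE (m * α + n * β) (m' * α + n' * β) := by
    intro m n m' n' ε hε h hm
    rcases le_total 0 m' with hm' | hm'
    · exact key _ _ _ _ _ hε h hm hm'
    · apply flip2 _ _ _ _ _ hε h
      exact key _ _ _ _ _ (by omega) (by linarith) hm (by omega)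
  rcases le_total 0 m with hm | hm
  · exact key2 _ _ _ _ _ hε h hm
  · apply flip1 _ _ _ _ _ hε h
    exact key2 _ _ _ _ _ (by omega) (by linarith) (by omega)

/-! ### exactness of closed cochains on the plane lattice -/

lemma exists_prim1 (f : ℤ → ℝ) : ∃ F : ℤ → ℝ, F 0 = 0 ∧ ∀ i, F (i + 1) - F i = f i := by
  refine ⟨fun n => (∑ i ∈ Finset.Ico 0 n, f i) - ∑ i ∈ Finset.Ico n 0, f i, by simp, ?_⟩
  intro i
  rcases le_or_gt 0 i with hi | hi
  · have h1 : Finset.Ico (i + 1) 0 = ∅ := Finset.Ico_eq_empty (by omega)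
    have h2 : Finset.Ico i 0 = ∅ := Finset.Ico_eq_empty (by omega)
    have h3 : Finset.Ico 0 (i + 1) = insert i (Finset.Ico 0 i) := by
      ext x; simp only [Finset.mem_Ico, Finset.mem_insert]; omega
    simp only [h1, h2, h3]
    rw [Finset.sum_insert (by simp)]; simp
  · have h1 : Finset.Ico 0 (i + 1) = ∅ := Finset.Ico_eq_empty (by omega)
    have h2 : Finset.Ico 0 i = ∅ := Finset.Ico_eq_empty (by omega)
    have h3 : Finset.Ico i 0 = insert i (Finset.Ico (i + 1) 0) := by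
      ext x; simp only [Finset.mem_Ico, Finset.mem_insert]; omega
    simp only [h1, h2, h3]
    rw [Finset.sum_insert (by simp)]; simp

theorem planar_exact (W : ℤ × ℤ → ℤ × ℤ → ℝ)
    (hanti : ∀ x y, W x y = - W y x)
    (hcl : ∀ x y z : ℤ × ℤ, (y.1 - x.1) * (z.2 - x.2) - (y.2 - x.2) * (z.1 - x.1) = 1 →
      W x y + W y z + W z x = 0) :
    ∃ h : ℤ × ℤ → ℝ, ∀ x d : ℤ × ℤ, IsCoprime d.1 d.2 → W x (x + d) = h (x + d) - h x := by
  obtain ⟨A, hA0, hA⟩ := exists_prim1 (fun i => W (i, 0) (i + 1, 0))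
  choose B hB0 hB using fun i : ℤ => exists_prim1 (fun j => W (i, j) (i, j + 1))
  let h : ℤ × ℤ → ℝ := fun x => A x.1 + B x.1 x.2
  refine ⟨h, ?_⟩
  let Good : ℤ × ℤ → Prop := fun d => ∀ x, W x (x + d) = h (x + d) - h x
  have hcl' : ∀ x y z : ℤ × ℤ, ((y.1 - x.1) * (z.2 - x.2) - (y.2 - x.2) * (z.1 - x.1) = 1 ∨
      (y.1 - x.1) * (z.2 - x.2) - (y.2 - x.2) * (z.1 - x.1) = -1) →
      W x y + W y z + W z x = 0 := by
    intro x y z hxyz
    rcases hxyz with h1 | h1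
    · exact hcl x y z h1
    · have := hcl x z y (by linarith)
      rw [hanti x y, hanti y z, hanti z x]; linarith
  have gneg : ∀ d, Good d → Good (-d) := by
    intro d hd x
    have := hd (x + -d)
    rw [show x + -d + d = x by abel] at this
    rw [hanti, this]; ring
  have gadd : ∀ e f : ℤ × ℤ, (e.1 * f.2 - e.2 * f.1 = 1 ∨ e.1 * f.2 - e.2 * f.1 = -1) →
      Good e → Good f → Good (e + f) := by
    intro e f hef he hf x
    have h1 := hcl' x (x + e) (x + (e + f)) (by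
      simp only [Prod.fst_add, Prod.snd_add]
      rcases hef with h | h
      · left; linarith
      · right; linarith)
    have h2 := he x
    have h3 := hf (x + e)
    rw [add_assoc] at h3
    rw [hanti]; linarith
  have gv : Good (0, 1) := by
    rintro ⟨i, j⟩
    have := hB i j
    simp only [h, Prod.mk_add_mk, add_zero]
    linarith
  have gh : Good (1, 0) := by
    rintro ⟨i, j⟩
    simp only [h, Prod.mk_add_mk, add_zero]
    have step : ∀ j : ℤ, W (i, j + 1) (i + 1, j + 1) - W (i, j) (i + 1, j) =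
        W (i + 1, j) (i + 1, j + 1) - W (i, j) (i, j + 1) := by
      intro j
      have h1 := hcl (i, j) (i + 1, j) (i + 1, j + 1) (by simp)
      have h2 := hcl (i, j) (i + 1, j + 1) (i, j + 1) (by simp)
      rw [hanti (i + 1, j + 1) (i, j)] at h1
      rw [hanti (i + 1, j + 1) (i, j + 1), hanti (i, j + 1) (i, j)] at h2
      linarith
    induction j using Int.induction_on with
    | zero => have := hA i; simp only [hB0]; linarith
    | succ n ih =>
      have := step n; have := hB i n; have := hB (i + 1) n; linarith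
    | pred n ih =>
      have h1 := step (-n - 1); have h2 := hB i (-n - 1); have h3 := hB (i + 1) (-n - 1)
      rw [show (-(n : ℤ) - 1 + 1) = -n by ring] at h1 h2 h3
      linarith
  have main : ∀ N : ℕ, ∀ a b : ℕ, a + b ≤ N → Nat.Coprime a b → ∀ e f : ℤ × ℤ,
      (e.1 * f.2 - e.2 * f.1 = 1 ∨ e.1 * f.2 - e.2 * f.1 = -1) → Good e → Good f →
      Good ((a : ℤ) • e + (b : ℤ) • f) := by
    intro N
    induction N with
    | zero =>
      intro a b hab hc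
      have ha : a = 0 := by omega
      have hb : b = 0 := by omega
      subst ha hb; simp at hc
    | succ N ih =>
      intro a b hab hc e f hef he hf
      rcases Nat.eq_zero_or_pos a with rfl | ha
      · have : b = 1 := by simpa using hc
        subst this; simpa using hf
      rcases Nat.eq_zero_or_pos b with rfl | hb
      · have : a = 1 := by simpa using hc
        subst this; simpa using he
      rcases le_total a b with h1 | h1
      · obtain ⟨c, rfl⟩ := Nat.exists_eq_add_of_le h1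
        have := ih a c (by omega) (by simpa using hc) (e + f) f (by
          simp only [Prod.fst_add, Prod.snd_add]
          rcases hef with h | h
          · left; linarith
          · right; linarith) (gadd e f hef he hf) hf
        convert this using 1
        push_cast; module
      · obtain ⟨c, rfl⟩ := Nat.exists_eq_add_of_le h1
        have := ih c b (by omega) (by simpa using hc) e (e + f) (by
          simp only [Prod.fst_add, Prod.snd_add]
          rcases hef with h | h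
          · left; linarith
          · right; linarith) he (gadd e f hef he hf)
        convert this using 1
        push_cast; module
  rintro x ⟨m, n⟩ hc
  have hm := Int.natAbs_eq m
  have hn := Int.natAbs_eq n
  have hc' : Nat.Coprime m.natAbs n.natAbs := by
    have := Int.isCoprime_iff_gcd_eq_one.mp hc
    simpa [Int.gcd] using this
  have : Good (m, n) := by
    generalize m.natAbs = a at *
    generalize n.natAbs = b at *
    rcases hm with rfl | rfl <;> rcases hn with rfl | rfl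
    · have := main _ _ _ le_rfl hc' (1, 0) (0, 1) (by simp) gh gv
      convert this using 1; ext <;> simp
    · have := main _ _ _ le_rfl hc' (1, 0) (-(0, 1)) (by simp) gh (gneg _ gv)
      convert this using 1; ext <;> simp
    · have := main _ _ _ le_rfl hc' (-(1, 0)) (0, 1) (by simp) (gneg _ gh) gv
      convert this using 1; ext <;> simp
    · have := main _ _ _ le_rfl hc' (-(1, 0)) (-(0, 1)) (by simp) (gneg _ gh) (gneg _ gv)
      convert this using 1; ext <;> simp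
  exact this x

end Pool.Agent.MP_024ca5_nt

end

-- part MP_024ca5_nt.Group
section

/-! The group of totally positive units acting on the cone; invariant potential; finiteness. -/

set_option autoImplicit false
open Matrix

namespace Pool.Agent.MP_024ca5_nt

lemma exists_rep {G X : Type*} [Group G] (a : G → X → X) (h1 : ∀ x, a 1 x = x)
    (hmul : ∀ g h x, a (g * h) x = a g (a h x)) :
    ∃ (r : X → X) (γ : X → G), (∀ x, a (γ x) (r x) = x) ∧ (∀ g x, r (a g x) = r x) := by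
  let s : Setoid X :=
    { r := fun x y => ∃ g, a g y = x
      iseqv :=
        { refl := fun x => ⟨1, h1 x⟩
          symm := by
            rintro x y ⟨g, rfl⟩
            exact ⟨g⁻¹, by rw [← hmul, inv_mul_cancel, h1]⟩
          trans := by
            rintro x y z ⟨g, rfl⟩ ⟨h, rfl⟩
            exact ⟨g * h, hmul _ _ _⟩ } }
  have h : ∀ x, ∃ g, a g (Quotient.mk s x).out = x := fun x =>
    s.symm (Quotient.mk_out (s := s) x)
  choose γ hγ using h
  refine ⟨fun x => (Quotient.mk s x).out, γ, hγ, fun g x => ?_⟩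
  have : Quotient.mk s (a g x) = Quotient.mk s x := Quotient.sound ⟨g, rfl⟩
  simp only [this]

lemma map_mul_cast (M N : Matrix (Fin 3) (Fin 3) ℤ) :
    (M * N).map (Int.cast : ℤ → ℝ) = M.map (Int.cast : ℤ → ℝ) * N.map (Int.cast : ℤ → ℝ) :=
  Matrix.map_mul (f := Int.castRingHom ℝ)

lemma map_one_cast : (1 : Matrix (Fin 3) (Fin 3) ℤ).map (Int.cast : ℤ → ℝ) = 1 :=
  Matrix.map_one _ (by simp) (by simp)

lemma det_cast (M : Matrix (Fin 3) (Fin 3) ℤ) :
    (M.map (Int.cast : ℤ → ℝ)).det = (M.det : ℝ) := by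
  simp [Matrix.det_fin_three]

lemma EE_scale {r : ℝ} (hr : 0 < r) (a b : ℝ) : EE (r * a) (r * b) = EE a b := by
  have h : ∀ x, sg (r * x) = sg x := fun x => by simp [sg, hr]
  unfold EE
  rw [h, h, mul_div_mul_left _ _ hr.ne', mul_div_mul_left _ _ hr.ne']

namespace Ctx
variable (c : Ctx)

def G : Subgroup (Matrix.SpecialLinearGroup (Fin 3) ℤ) where
  carrier := {g | ∀ i, ∃ r : ℝ, 0 < r ∧ (g.1.map (Int.cast : ℤ → ℝ)) *ᵥ c.b i = r • c.b i}
  one_mem' := fun i => ⟨1, one_pos, by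
    rw [show (1 : Matrix.SpecialLinearGroup (Fin 3) ℤ).1 = 1 from rfl, map_one_cast]; simp⟩
  mul_mem' := by
    intro g h hg hh i
    obtain ⟨r, hr, e1⟩ := hg i
    obtain ⟨s, hs, e2⟩ := hh i
    refine ⟨s * r, mul_pos hs hr, ?_⟩
    rw [show (g * h).1 = g.1 * h.1 from rfl, map_mul_cast, ← mulVec_mulVec, e2, mulVec_smul, e1,
      smul_smul]
  inv_mem' := by
    intro g hg i
    obtain ⟨r, hr, e1⟩ := hg i
    refine ⟨r⁻¹, inv_pos.mpr hr, ?_⟩
    have h1 : (g⁻¹).1 * g.1 = 1 := congrArg Subtype.val (inv_mul_cancel g)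
    have h2 : (g⁻¹).1.map (Int.cast : ℤ → ℝ) *ᵥ (g.1.map (Int.cast : ℤ → ℝ) *ᵥ c.b i) = c.b i := by
      rw [mulVec_mulVec, ← map_mul_cast, h1, map_one_cast, one_mulVec]
    rw [e1, mulVec_smul] at h2
    conv_rhs => rw [← h2]
    rw [smul_smul, inv_mul_cancel₀ hr.ne', one_smul]

def av (g : c.G) (x : Fin 3 → ℤ) : Fin 3 → ℤ := g.1.1 *ᵥ x
def af (g : c.G) (f : Fin 3 → ℤ) : Fin 3 → ℤ := f ᵥ* (g⁻¹).1.1

lemma av_one (x : Fin 3 → ℤ) : c.av 1 x = x := one_mulVec x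
lemma av_mul (g h : c.G) (x : Fin 3 → ℤ) : c.av (g * h) x = c.av g (c.av h x) := by
  unfold av; rw [mulVec_mulVec]; rfl
lemma af_one (x : Fin 3 → ℤ) : c.af 1 x = x := by
  unfold af; rw [inv_one]; exact vecMul_one x
lemma af_mul (g h : c.G) (x : Fin 3 → ℤ) : c.af (g * h) x = c.af g (c.af h x) := by
  unfold af; rw [vecMul_vecMul, _root_.mul_inv_rev]; rfl

lemma av_inv (g : c.G) (x : Fin 3 → ℤ) : c.av g⁻¹ (c.av g x) = x := by
  rw [← av_mul, inv_mul_cancel, av_one]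
lemma av_inv' (g : c.G) (x : Fin 3 → ℤ) : c.av g (c.av g⁻¹ x) = x := by
  rw [← av_mul, mul_inv_cancel, av_one]
lemma af_inv (g : c.G) (x : Fin 3 → ℤ) : c.af g⁻¹ (c.af g x) = x := by
  rw [← af_mul, inv_mul_cancel, af_one]

lemma af_dot (g : c.G) (f x : Fin 3 → ℤ) : c.af g f ⬝ᵥ x = f ⬝ᵥ c.av g⁻¹ x := by
  unfold af av; rw [dotProduct_mulVec]

lemma af_av (g : c.G) (f x : Fin 3 → ℤ) : c.af g f ⬝ᵥ c.av g x = f ⬝ᵥ x := by
  rw [af_dot, av_inv]

lemma det3_av (g : c.G) (x y z : Fin 3 → ℤ) :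
    det3 (c.av g x) (c.av g y) (c.av g z) = det3 x y z := by
  unfold av; rw [det3_mulVec, g.1.2, one_mul]

lemma exists_scale (g : c.G) : ∃ r : Fin 3 → ℝ, (∀ i, 0 < r i) ∧
    (∀ i, (g.1.1.map (Int.cast : ℤ → ℝ)) *ᵥ c.b i = r i • c.b i) ∧
    (∀ i x, c.l i (c.av g x) = r i * c.l i x) ∧
    (∀ i f, rc (c.af g f) ⬝ᵥ c.b i = (r i)⁻¹ * (rc f ⬝ᵥ c.b i)) ∧
    (∀ i x y, det3 (rc (c.av g x)) (rc (c.av g y)) (c.b i) =
      (r i)⁻¹ * det3 (rc x) (rc y) (c.b i)) := by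
  choose r hr e using g.2
  have hb : ∀ i, c.b i = (r i)⁻¹ • ((g.1.1.map (Int.cast : ℤ → ℝ)) *ᵥ c.b i) := by
    intro i; rw [e, smul_smul, inv_mul_cancel₀ (hr i).ne', one_smul]
  refine ⟨r, hr, e, fun i x => c.l_diag _ r e i x, fun i f => ?_, fun i x y => ?_⟩
  · conv_lhs => rw [hb i]
    rw [dotProduct_smul, ← rc_vecMul, smul_eq_mul]
    congr 3
    unfold af
    rw [vecMul_vecMul]
    have h1 : (g⁻¹).1.1 * g.1.1 = 1 := congrArg (fun x => x.1.1) (inv_mul_cancel g)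
    rw [h1, vecMul_one]
  · conv_lhs => rw [hb i]
    unfold av
    rw [← cr_dot, dotProduct_smul, cr_dot, rc_mulVec, rc_mulVec, det3_mulVec, det_cast, g.1.2]
    simp

lemma av_mem (g : c.G) {x : Fin 3 → ℤ} (hx : x ∈ c.S) : c.av g x ∈ c.S := by
  obtain ⟨r, hr, -, h, -⟩ := c.exists_scale g
  intro i; rw [h]; exact mul_pos (hr i) (hx i)

lemma eq_one_of (g : c.G) (r : Fin 3 → ℝ)
    (e : ∀ i, (g.1.1.map (Int.cast : ℤ → ℝ)) *ᵥ c.b i = r i • c.b i) (h : ∀ i, r i = 1) :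
    g = 1 := by
  have : ∀ x, c.av g x = x := by
    intro x
    apply rc_inj
    rw [c.rc_eq x, c.rc_eq (c.av g x)]
    simp only [av, c.l_diag _ r e, h, one_mul]
  apply Subtype.ext
  apply Subtype.ext
  ext i j
  have := congrFun (this (Pi.single j 1)) i
  simpa [av, one_apply, Pi.single_apply] using this

lemma av_free (g : c.G) {x : Fin 3 → ℤ} (hx : x ≠ 0) (h : c.av g x = x) : g = 1 := by
  obtain ⟨r, hr, e, h1, -⟩ := c.exists_scale g
  refine c.eq_one_of g r e fun i => ?_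
  have := h1 i x
  rw [h] at this
  exact (mul_eq_right₀ (c.l_ne hx i)).mp this.symm

lemma af_free (g : c.G) {x : Fin 3 → ℤ} (hx : x ≠ 0) (h : c.af g x = x) : g = 1 := by
  obtain ⟨r, hr, e, -, h1, -⟩ := c.exists_scale g
  refine c.eq_one_of g r e fun i => ?_
  have := h1 i x
  rw [h] at this
  exact inv_eq_one.mp ((mul_eq_right₀ (c.f_ne hx i)).mp this.symm)

/-- the determinant against the first eigenvector -/
noncomputable def dx (x y : Fin 3 → ℤ) : ℝ := det3 (rc x) (rc y) (c.b 0)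

lemma dx_ne {u v w : Fin 3 → ℤ} (h : det3 u v w = 1) : c.dx u v ≠ 0 := by
  unfold dx
  rw [← cr_dot, ← rc_cr]
  apply c.f_ne
  intro h0
  rw [← cr_dot, h0] at h
  simp at h

lemma exists_Q (p : Fin 3 → ℤ) : ∃ Q : (Fin 3 → ℤ) → ℝ, ∀ u w, det3 p u w = 1 →
    Q w - Q u = EE (c.dx p u) (c.dx p w) := by
  by_cases h : ∃ e f, det3 p e f = 1
  swap
  · exact ⟨fun _ => 0, fun u w huw => absurd ⟨u, w, huw⟩ h⟩
  obtain ⟨e, f, hef⟩ := h
  have hef' : det3 (rc p) (rc e) (rc f) = 1 := by rw [rc_det3, hef]; simp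
  have hI : Indep (c.dx p e) (c.dx p f) := by
    intro m n hmn
    have h1 : rc (cr p (m • e + n • f)) ⬝ᵥ c.b 0 = 0 := by
      rw [← hmn, rc_cr, cr_dot, rc_add, rc_smul, rc_smul]
      simp [det3, dx]; ring
    have h2 : cr p (m • e + n • f) = 0 := by
      by_contra h3; exact c.f_ne h3 0 h1
    have h3 : det3 p (m • e + n • f) f = 0 := by rw [← cr_dot, h2]; simp
    have h4 : det3 p (m • e + n • f) e = 0 := by rw [← cr_dot, h2]; simp
    have h5 : det3 p (m • e + n • f) f = m * det3 p e f := by simp [det3]; ring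
    have h6 : det3 p (m • e + n • f) e = -n * det3 p e f := by simp [det3]; ring
    rw [hef] at h5 h6
    omega
  have hx : ∀ u, c.dx p u = (det3 p u f : ℤ) * c.dx p e + (det3 p e u : ℤ) * c.dx p f := by
    intro u
    rw [← rc_det3, ← rc_det3, ← one_mul (c.dx p u), ← hef']
    simp only [det3, dx]; ring
  refine ⟨fun u => QQ (c.dx p e) (c.dx p f) (det3 p u f) (det3 p e u), fun u w huw => ?_⟩
  rw [QQ_diff hI _ _ _ _ 1 (Or.inl rfl), hx u, hx w]
  · simp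
  · have : det3 p u f * det3 p e w - det3 p e u * det3 p w f = det3 p e f * det3 p u w := by
      simp only [det3]; ring
    rw [this, hef, huw, one_mul]

theorem exists_P : ∃ P : (Fin 3 → ℤ) → (Fin 3 → ℤ) → ℝ,
    (∀ (g : c.G) u v, u ≠ 0 → P (c.av g u) (c.av g v) = P u v) ∧
    ∀ p u w, det3 p u w = 1 → P p w - P p u = EE (c.dx p u) (c.dx p w) := by
  obtain ⟨r, γ, h1, h2⟩ := exists_rep c.av c.av_one c.av_mul
  choose Q hQ using c.exists_Q
  refine ⟨fun p u => Q (r p) (c.av (γ p)⁻¹ u), fun g u v hu => ?_, fun p u w h => ?_⟩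
  · have e1 := h1 (c.av g u)
    rw [h2] at e1
    have e2 : c.av (γ u * (γ (c.av g u))⁻¹ * g) u = u := by
      rw [av_mul, av_mul]
      conv_lhs => rw [← e1]
      rw [show γ (c.av (γ (c.av g u)) (r u)) = γ (c.av g u) by rw [e1], av_inv, h1]
    have e3 := c.av_free _ hu e2
    have e4 : (γ (c.av g u))⁻¹ * g = (γ u)⁻¹ := by
      rw [mul_assoc] at e3
      exact eq_inv_of_mul_eq_one_right e3
    simp only [h2]
    rw [← av_mul, e4]
  · have e1 : r p = c.av (γ p)⁻¹ p := by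
      conv_rhs => rw [← h1 p]
      rw [show γ (c.av (γ p) (r p)) = γ p by rw [h1], av_inv]
    obtain ⟨s, hs, -, -, -, h3⟩ := c.exists_scale (γ p)⁻¹
    simp only
    rw [hQ _ _ _ (by rw [e1, det3_av, h]), e1]
    unfold dx
    rw [h3, h3, EE_scale (inv_pos.mpr (hs 0))]

/-- two positive covectors with the same norm, congruent modulo the norm, are conjugate -/
lemma conj_of_congr (f f' : Fin 3 → ℤ) (hf : ∀ i, 0 < rc f ⬝ᵥ c.b i)
    (hf' : ∀ i, 0 < rc f' ⬝ᵥ c.b i) (hn : c.nf f' = c.nf f) (hz : ∀ j, c.nf f ∣ f' j - f j) :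
    ∃ g : c.G, c.af g f = f' := by
  choose z hz using hz
  have hf0 : f ≠ 0 := by
    rintro rfl
    have := hf 0
    have h0 : rc 0 = 0 := by ext j; simp [rc]
    simp [h0] at this
  have hN := c.nf_ne hf0
  let B : (Fin 3 → ℤ) → Matrix (Fin 3) (Fin 3) ℤ := fun f =>
    Matrix.of ![f, f ᵥ* c.A, (f ᵥ* c.A) ᵥ* c.A]
  have hB : ∀ f, (B f).det = c.nf f := fun f => (det3_eq_det _ _ _).symm
  have hff : f' = f + c.nf f • z := by ext j; have := hz j; simp; linarith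
  have hBB : B f' = B f + c.nf f • B z := by
    simp only [B]
    conv_lhs => rw [hff]
    simp only [add_vecMul, smul_vecMul]
    ext i j; fin_cases i <;> simp
  let g : Matrix (Fin 3) (Fin 3) ℤ := 1 + adjugate (B f) * B z
  have hg : B f * g = B f' := by
    simp only [g, mul_add, mul_one, ← mul_assoc, mul_adjugate, hB, hBB, smul_mul_assoc, one_mul]
  have hdet : g.det = 1 := by
    have := congrArg Matrix.det hg
    rw [det_mul, hB, hB, hn] at this
    exact (mul_eq_left₀ hN).mp this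
  have hBv : ∀ f i, (B f).map (Int.cast : ℤ → ℝ) *ᵥ c.b i =
      (rc f ⬝ᵥ c.b i) • ![1, c.μ i, c.μ i ^ 2] := by
    intro f i
    have e0 : ∀ h : Fin 3 → ℤ, rc (h ᵥ* c.A) ⬝ᵥ c.b i = c.μ i * (rc h ⬝ᵥ c.b i) := by
      intro h; rw [rc_vecMul, c.eig, dotProduct_smul, smul_eq_mul]
    ext k
    fin_cases k
    · change rc f ⬝ᵥ c.b i = _
      simp
    · change rc (f ᵥ* c.A) ⬝ᵥ c.b i = _
      rw [e0]; simp; ring
    · change rc ((f ᵥ* c.A) ᵥ* c.A) ⬝ᵥ c.b i = _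
      rw [e0, e0]; simp; ring
  have hmem : (⟨g, hdet⟩ : Matrix.SpecialLinearGroup (Fin 3) ℤ) ∈ c.G := by
    intro i
    refine ⟨(rc f' ⬝ᵥ c.b i) / (rc f ⬝ᵥ c.b i), div_pos (hf' i) (hf i), ?_⟩
    have hd : ((B f).map (Int.cast : ℤ → ℝ)).det ≠ 0 := by
      rw [det_cast, hB]; exact_mod_cast hN
    rw [← sub_eq_zero]
    apply Matrix.eq_zero_of_mulVec_eq_zero hd
    rw [mulVec_sub, mulVec_mulVec, ← map_mul_cast, hg, mulVec_smul, hBv, hBv, smul_smul,
      div_mul_cancel₀ _ (hf i).ne', sub_self]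
  refine ⟨(⟨⟨g, hdet⟩, hmem⟩ : c.G)⁻¹, ?_⟩
  unfold af
  rw [inv_inv]
  ext j
  have := congrFun (congrFun hg 0) j
  simpa [B, vecMul, dotProduct, mul_apply] using this

/-- covectors that are positive on the cone and take the value one at a lattice point of the cone
fall into finitely many orbits -/
theorem finite_orbits (T : Set (Fin 3 → ℤ)) (hT : ∀ f ∈ T, (∀ i, 0 < rc f ⬝ᵥ c.b i) ∧
    ∃ u ∈ c.S, f ⬝ᵥ u = 1)
    (hT2 : ∀ f ∈ T, ∀ f' ∈ T, ∀ g : c.G, c.af g f = f' → f = f') : T.Finite := by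
  set B : ℤ := ⌈c.Vd ^ 2⌉
  have hb : ∀ f ∈ T, |c.nf f| ≤ B := by
    intro f hf
    obtain ⟨h1, u, hu, h2⟩ := hT f hf
    have h3 : rc f ⬝ᵥ rc u = 1 := by rw [rc_dot, h2]; simp
    rw [c.dot_eq] at h3
    have p0 := mul_pos (hu 0) (h1 0)
    have p1 := mul_pos (hu 1) (h1 1)
    have p2 := mul_pos (hu 2) (h1 2)
    have e : (c.nf f : ℝ) * c.nv u = (c.l 0 u * (rc f ⬝ᵥ c.b 0)) * (c.l 1 u * (rc f ⬝ᵥ c.b 1)) *
        (c.l 2 u * (rc f ⬝ᵥ c.b 2)) * c.Vd ^ 2 := by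
      rw [nv_eq]
      have := c.nf_eq f
      linear_combination (c.l 0 u * c.l 1 u * c.l 2 u * c.Vd) * this
    have e1 : (c.l 0 u * (rc f ⬝ᵥ c.b 0)) * (c.l 1 u * (rc f ⬝ᵥ c.b 1)) *
        (c.l 2 u * (rc f ⬝ᵥ c.b 2)) ≤ 1 :=
      mul_le_one₀ (mul_le_one₀ (by linarith) p1.le (by linarith)) p2.le (by linarith)
    have e2 : |(c.nf f : ℝ)| * |(c.nv u : ℝ)| ≤ c.Vd ^ 2 := by
      rw [← abs_mul, e, abs_of_nonneg (by positivity)]
      nlinarith [sq_nonneg c.Vd]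
    have e3 : (1 : ℝ) ≤ |(c.nv u : ℝ)| := by
      have := Int.one_le_abs (c.nv_ne (c.S_ne hu))
      exact_mod_cast this
    have e4 : |(c.nf f : ℝ)| ≤ B := by
      have := Int.le_ceil (c.Vd ^ 2)
      nlinarith [abs_nonneg (c.nf f : ℝ)]
    exact_mod_cast e4
  have hne : ∀ f ∈ T, c.nf f ≠ 0 := by
    intro f hf
    obtain ⟨-, u, -, h2⟩ := hT f hf
    apply c.nf_ne
    rintro rfl
    simp at h2
  let φ : (Fin 3 → ℤ) → ℤ × (Fin 3 → ℤ) := fun f => (c.nf f, fun j => f j % c.nf f)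
  refine Set.Finite.of_finite_image (f := φ) ?_ ?_
  · refine ((Set.finite_Icc (-B) B).prod
      (Set.finite_Icc (fun _ : Fin 3 => (0 : ℤ)) (fun _ => B))).subset ?_
    rintro _ ⟨f, hf, rfl⟩
    refine ⟨abs_le.mp (hb f hf), fun j => Int.emod_nonneg _ (hne f hf), fun j => ?_⟩
    exact (Int.emod_lt_abs _ (hne f hf)).le.trans (hb f hf)
  · intro f hf f' hf' h
    have h1 : c.nf f = c.nf f' := congrArg Prod.fst h
    have h2 : ∀ j, f j % c.nf f = f' j % c.nf f' := congrFun (congrArg Prod.snd h)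
    obtain ⟨g, hg⟩ := c.conj_of_congr f f' (hT f hf).1 (hT f' hf').1 h1.symm fun j => by
      have := h2 j
      rw [← h1] at this
      exact Int.ModEq.dvd this
    exact hT2 f hf f' hf' g hg

end Ctx

end Pool.Agent.MP_024ca5_nt

end

-- part MP_024ca5_nt.Edges
section

/-! Oriented unit boundary edges of faces at distance one. -/

set_option autoImplicit false
open Matrix

namespace Pool.Agent.MP_024ca5_nt

lemma det3_swap {R : Type*} [CommRing R] (x y z : Fin 3 → R) : det3 y x z = - det3 x y z := by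
  simp only [det3]; ring
lemma det3_rot {R : Type*} [CommRing R] (x y z : Fin 3 → R) : det3 y z x = det3 x y z := by
  simp only [det3]; ring
lemma det3_self12 {R : Type*} [CommRing R] (x z : Fin 3 → R) : det3 x x z = 0 := by
  simp only [det3]; ring
lemma det3_self13 {R : Type*} [CommRing R] (x z : Fin 3 → R) : det3 x z x = 0 := by
  simp only [det3]; ring
lemma det3_self23 {R : Type*} [CommRing R] (x z : Fin 3 → R) : det3 z x x = 0 := by
  simp only [det3]; ring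

lemma cramer1 {u v w : Fin 3 → ℤ} (h : det3 u v w = 1) (x : Fin 3 → ℤ) :
    x = det3 x v w • u + det3 u x w • v + det3 u v x • w := by
  rw [← cramer3, h, one_smul]

lemma exists_primitive (d : Fin 3 → ℤ) (hd : d ≠ 0) :
    ∃ (g : ℤ) (d' φ : Fin 3 → ℤ), 0 < g ∧ d = g • d' ∧ φ ⬝ᵥ d' = 1 := by
  obtain ⟨d', h1, h2⟩ := Finset.extract_gcd d (Finset.univ_nonempty (α := Fin 3))
  obtain ⟨φ, h3⟩ := Finset.gcd_eq_sum_mul (Finset.univ : Finset (Fin 3)) d'
  refine ⟨Finset.univ.gcd d, d', φ, ?_, ?_, ?_⟩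
  · have h0 : Finset.univ.gcd d ≠ 0 := by
      intro h; apply hd; ext j
      rw [h1 j (Finset.mem_univ j), h]; simp
    have h4 : 0 ≤ Finset.univ.gcd d := by
      rw [← Finset.normalize_gcd]; exact Int.nonneg_of_normalize_eq_self (normalize_idem _)
    omega
  · ext j; exact h1 j (Finset.mem_univ j)
  · rw [dotProduct_comm, ← h2, h3]; rfl

lemma exists_cr (δ : Fin 3 → ℤ) : ∃ e f : Fin 3 → ℤ, cr e f = δ := by
  obtain ⟨a', b', hab, ha, hb⟩ : ∃ a' b' : ℤ, IsCoprime a' b' ∧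
      δ 0 = a' * (Int.gcd (δ 0) (δ 1) : ℤ) ∧ δ 1 = b' * (Int.gcd (δ 0) (δ 1) : ℤ) := by
    rcases Nat.eq_zero_or_pos (Int.gcd (δ 0) (δ 1)) with h | h
    · obtain ⟨h0, h1⟩ := Int.gcd_eq_zero_iff.mp h
      exact ⟨1, 0, isCoprime_one_left, by simp [h0, h1], by simp [h0, h1]⟩
    · obtain ⟨a', b', h1, h2, h3⟩ := Int.exists_gcd_one h
      exact ⟨a', b', Int.isCoprime_iff_gcd_eq_one.mpr h1, h2, h3⟩
  obtain ⟨s, t, hst⟩ := hab
  generalize (Int.gcd (δ 0) (δ 1) : ℤ) = g at ha hb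
  refine ⟨![b', -a', 0], ![δ 2 * s, δ 2 * t, -g], ?_⟩
  ext j
  fin_cases j
  · simp [cr, ha]
  · simp [cr, hb]
  · simp [cr]; linear_combination δ 2 * hst

namespace Ctx
variable (c : Ctx)

structure Edge (u v δ : Fin 3 → ℤ) : Prop where
  hu : u ∈ c.S
  hv : v ∈ c.S
  supp : ∀ x ∈ c.S, 1 ≤ δ ⬝ᵥ x
  du : δ ⬝ᵥ u = 1
  dv : δ ⬝ᵥ v = 1
  uni : ∃ w, det3 u v w = 1
  side : ∀ x ∈ c.S, δ ⬝ᵥ x = 1 → 0 ≤ det3 u v x
  nondeg : ∃ w ∈ c.S, δ ⬝ᵥ w = 1 ∧ 0 < det3 u v w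

/-- every supporting plane through three independent lattice points is at distance one -/
def AllOne : Prop := ∀ lam : Fin 3 → ℝ, (∀ x ∈ c.S, 1 ≤ lam ⬝ᵥ rc x) →
  ∀ u ∈ c.S, ∀ v ∈ c.S, ∀ w ∈ c.S, lam ⬝ᵥ rc u = 1 → lam ⬝ᵥ rc v = 1 → lam ⬝ᵥ rc w = 1 →
    det3 u v w ≠ 0 → ∃ δ : Fin 3 → ℤ, rc δ = lam

variable {c}

lemma Edge.unique {u v δ δ' : Fin 3 → ℤ} (h : c.Edge u v δ) (h' : c.Edge u v δ') : δ = δ' := by
  obtain ⟨w0, hw0⟩ := h.uni
  have key : ∀ x, (δ - δ') ⬝ᵥ x = det3 u v x * ((δ - δ') ⬝ᵥ w0) := by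
    intro x
    conv_lhs => rw [cramer1 hw0 x]
    simp only [dotProduct_add, dotProduct_smul, sub_dotProduct, h.du, h.dv, h'.du, h'.dv,
      smul_eq_mul]
    ring
  obtain ⟨w, hw, hw1, hw2⟩ := h.nondeg
  obtain ⟨w', hw', hw1', hw2'⟩ := h'.nondeg
  have e1 := key w
  have e2 := key w'
  rw [sub_dotProduct δ δ' w] at e1
  rw [sub_dotProduct δ δ' w'] at e2
  have := h'.supp w hw
  have := h.supp w' hw'
  have t0 : (δ - δ') ⬝ᵥ w0 = 0 := by nlinarith
  rw [← sub_eq_zero]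
  apply dotProduct_eq_zero
  intro x
  rw [key, t0, mul_zero]

lemma Edge.act {u v δ : Fin 3 → ℤ} (h : c.Edge u v δ) (g : c.G) :
    c.Edge (c.av g u) (c.av g v) (c.af g δ) where
  hu := c.av_mem g h.hu
  hv := c.av_mem g h.hv
  supp := fun x hx => by rw [af_dot]; exact h.supp _ (c.av_mem _ hx)
  du := by rw [af_av, h.du]
  dv := by rw [af_av, h.dv]
  uni := by
    obtain ⟨w, hw⟩ := h.uni
    exact ⟨c.av g w, by rw [det3_av, hw]⟩
  side := fun x hx h1 => by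
    rw [af_dot] at h1
    have := h.side _ (c.av_mem _ hx) h1
    rwa [← c.det3_av g, av_inv'] at this
  nondeg := by
    obtain ⟨w, hw, h1, h2⟩ := h.nondeg
    exact ⟨c.av g w, c.av_mem g hw, by rw [af_av, h1], by rwa [det3_av]⟩

lemma supp_real {δ : Fin 3 → ℤ} (h : ∀ x ∈ c.S, 1 ≤ δ ⬝ᵥ x) :
    ∀ x ∈ c.S, 1 ≤ rc δ ⬝ᵥ rc x := fun x hx => by
  rw [rc_dot]; exact_mod_cast h x hx

lemma Edge.flip (H : c.AllOne) {u v δ : Fin 3 → ℤ} (h : c.Edge u v δ) :
    ∃ (δ' : Fin 3 → ℤ) (s : ℝ), 0 < s ∧ c.Edge v u δ' ∧ rc δ' = rc δ + s • rc (cr u v) := by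
  obtain ⟨w0, hw0⟩ := h.uni
  have hn : cr u v ≠ 0 := by
    intro h0; rw [← cr_dot, h0] at hw0; simp at hw0
  obtain ⟨x0, hx0, hx1⟩ := c.exists_neg (cr u v) hn u h.hu (by rw [cr_dot, det3_self13])
  obtain ⟨s, hs, h1, x, hx, h2, h3⟩ := c.gift (rc δ) (rc (cr u v)) (supp_real h.supp) x0 hx0
    (by rw [rc_dot]; exact_mod_cast hx1)
  have ev : ∀ y, (rc δ + s • rc (cr u v)) ⬝ᵥ rc y =
      ((δ ⬝ᵥ y : ℤ) : ℝ) + s * ((det3 u v y : ℤ) : ℝ) := by
    intro y; rw [add_dotProduct, smul_dotProduct, rc_dot, rc_dot, cr_dot, smul_eq_mul]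
  rw [rc_dot, cr_dot] at h2
  have h2' : det3 u v x < 0 := by exact_mod_cast h2
  have hs0 : 0 < s := by
    rcases hs.lt_or_eq with h4 | h4
    · exact h4
    · rw [ev, ← h4, zero_mul, add_zero] at h3
      have := h.side x hx (by exact_mod_cast h3)
      omega
  have eu : (rc δ + s • rc (cr u v)) ⬝ᵥ rc u = 1 := by rw [ev, h.du, det3_self13]; simp
  have evv : (rc δ + s • rc (cr u v)) ⬝ᵥ rc v = 1 := by rw [ev, h.dv, det3_self23]; simp
  obtain ⟨δ', hδ'⟩ := H _ h1 u h.hu v h.hv x hx eu evv h3 h2'.ne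
  have cv : ∀ y, (rc δ + s • rc (cr u v)) ⬝ᵥ rc y = ((δ' ⬝ᵥ y : ℤ) : ℝ) := by
    intro y; rw [← hδ', rc_dot]
  refine ⟨δ', s, hs0, ⟨h.hv, h.hu, fun y hy => ?_, ?_, ?_, ⟨-w0, ?_⟩, fun y hy hy1 => ?_,
    x, hx, ?_, ?_⟩, hδ'⟩
  · have := h1 y hy; rw [cv] at this; exact_mod_cast this
  · rw [cv] at evv; exact_mod_cast evv
  · rw [cv] at eu; exact_mod_cast eu
  · rw [← hw0]; simp [det3]; ring
  · have e1 := ev y
    rw [cv, hy1] at e1
    have e2 : (1 : ℝ) ≤ ((δ ⬝ᵥ y : ℤ) : ℝ) := by exact_mod_cast h.supp y hy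
    have e3 : ((det3 u v y : ℤ) : ℝ) ≤ 0 := by
      by_contra e4
      push Not at e4
      have := mul_pos hs0 e4
      push_cast at e1
      linarith
    have e4 : det3 u v y ≤ 0 := by exact_mod_cast e3
    rw [det3_swap]; omega
  · rw [cv] at h3; exact_mod_cast h3
  · rw [det3_swap]; omega

lemma face_finite {δ : Fin 3 → ℤ} (h : ∀ x ∈ c.S, 1 ≤ δ ⬝ᵥ x) :
    {x ∈ c.S | δ ⬝ᵥ x = 1}.Finite := by
  refine (c.fin_cap (rc δ) (c.interior _ (supp_real h))).subset ?_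
  rintro x ⟨hx, h1⟩
  exact ⟨hx, by rw [rc_dot, h1]; simp⟩

lemma out_edge {δ p : Fin 3 → ℤ} (supp : ∀ x ∈ c.S, 1 ≤ δ ⬝ᵥ x) (hp : p ∈ c.S)
    (dp : δ ⬝ᵥ p = 1)
    (nd : ∃ a ∈ c.S, ∃ b ∈ c.S, ∃ d ∈ c.S, δ ⬝ᵥ a = 1 ∧ δ ⬝ᵥ b = 1 ∧ δ ⬝ᵥ d = 1 ∧ det3 a b d ≠ 0)
    (n : (Fin 3 → ℤ) →+ ℝ) (hn0 : n p = 0)
    (hn : ∀ x ∈ c.S, δ ⬝ᵥ x = 1 → x ≠ p → 0 < n x) : ∃ v, c.Edge p v δ := by
  obtain ⟨a, ha, b, hb, d, hd, da, db, dd, habd⟩ := nd
  let F : Set (Fin 3 → ℤ) := {x | (x ∈ c.S ∧ δ ⬝ᵥ x = 1) ∧ x ≠ p}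
  have hF : F.Finite := (face_finite supp).subset fun x hx => hx.1
  have hFn : F.Nonempty := by
    by_cases h1 : a = p
    · refine ⟨b, ⟨hb, db⟩, fun h2 => habd ?_⟩
      rw [h1, h2, det3_self12]
    · exact ⟨a, ⟨ha, da⟩, h1⟩
  obtain ⟨z, hz⟩ := id hFn
  obtain ⟨x, hx, hmin⟩ := Set.exists_min_image F (fun y => ((det3 p z y : ℤ) : ℝ) / n y) hF hFn
  have hside : ∀ y ∈ c.S, δ ⬝ᵥ y = 1 → 0 ≤ det3 p x y := by
    intro y hy dy
    by_cases hyp : y = p
    · rw [hyp, det3_self13]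
    have e1 := hmin y ⟨⟨hy, dy⟩, hyp⟩
    have nx := hn x hx.1.1 hx.1.2 hx.2
    have ny := hn y hy dy hyp
    have nz := hn z hz.1.1 hz.1.2 hz.2
    rw [div_le_div_iff₀ nx ny] at e1
    have e2 := congrArg n (cramer3 p z y x)
    simp only [map_add, map_zsmul, hn0] at e2
    simp only [zsmul_eq_mul, mul_zero, zero_add] at e2
    have e3 : (0 : ℝ) ≤ ((det3 p x y : ℤ) : ℝ) := by
      by_contra e4
      push Not at e4
      nlinarith [mul_pos (neg_pos.mpr e4) nz]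
    exact_mod_cast e3
  obtain ⟨g, d', φ, hg, e1, e2⟩ := exists_primitive (x - p) (sub_ne_zero.mpr hx.2)
  have e3 : δ ⬝ᵥ d' = 0 := by
    have : δ ⬝ᵥ (x - p) = 0 := by rw [dotProduct_sub, hx.1.2, dp, sub_self]
    rw [e1, dotProduct_smul, smul_eq_mul] at this
    exact (mul_eq_zero.mp this).resolve_left hg.ne'
  have hx' : x = p + g • d' := by rw [← e1]; abel
  have huni : det3 p (p + d') (cr δ φ) = 1 := by
    have : det3 p (p + d') (cr δ φ) = (δ ⬝ᵥ p) * (φ ⬝ᵥ d') - (δ ⬝ᵥ d') * (φ ⬝ᵥ p) := by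
      simp [det3, cr, dotProduct, Fin.sum_univ_three]; ring
    rw [this, dp, e2, e3]; simp
  have hside' : ∀ y ∈ c.S, δ ⬝ᵥ y = 1 → 0 ≤ det3 p (p + d') y := by
    intro y hy dy
    have h1 := hside y hy dy
    have : det3 p x y = g * det3 p (p + d') y := by rw [hx']; simp [det3]; ring
    rw [this] at h1
    exact nonneg_of_mul_nonneg_right h1 hg |> fun h => by
      by_contra h2; push Not at h2; nlinarith
  refine ⟨p + d', hp, fun i => ?_, supp, dp, by rw [dotProduct_add, dp, e3, add_zero],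
    ⟨_, huni⟩, hside', ?_⟩
  · have h1 := hx.1.1 i
    have h2 := hp i
    rw [hx', l_add, l_smul] at h1
    rw [l_add]
    have : (1 : ℝ) ≤ g := by exact_mod_cast hg
    nlinarith
  · by_contra hcon
    push Not at hcon
    have z : ∀ y ∈ c.S, δ ⬝ᵥ y = 1 → det3 p (p + d') y = 0 := fun y hy dy =>
      le_antisymm (hcon y hy dy) (hside' y hy dy)
    apply habd
    rw [cramer1 huni a, cramer1 huni b, cramer1 huni d, z a ha da, z b hb db, z d hd dd]
    generalize det3 a (p + d') (cr δ φ) = a1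
    generalize det3 b (p + d') (cr δ φ) = a2
    generalize det3 d (p + d') (cr δ φ) = a3
    generalize det3 p a (cr δ φ) = a4
    generalize det3 p b (cr δ φ) = a5
    generalize det3 p d (cr δ φ) = a6
    simp [det3]; ring

lemma Edge.next {u p δ : Fin 3 → ℤ} (h : c.Edge u p δ) : ∃ v, c.Edge p v δ := by
  obtain ⟨w0, hw0⟩ := h.uni
  obtain ⟨w, hw, hw1, hw2⟩ := h.nondeg
  by_cases h2 : p + (p - u) ∈ c.S
  · have e : ∀ y, det3 p (p + (p - u)) y = det3 u p y := fun y => by simp [det3]; ring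
    exact ⟨p + (p - u), h.hv, h2, h.supp, h.dv,
      by rw [dotProduct_add, dotProduct_sub, h.du, h.dv]; simp, ⟨w0, by rw [e, hw0]⟩,
      fun y hy dy => by rw [e]; exact h.side y hy dy, w, hw, hw1, by rwa [e]⟩
  obtain ⟨N, hN⟩ := ((face_finite h.supp).image (fun x => - det3 x p w0)).bddAbove
  have hN' : ∀ x ∈ c.S, δ ⬝ᵥ x = 1 → - det3 x p w0 ≤ N := fun x hx dx => hN ⟨x, ⟨hx, dx⟩, rfl⟩
  let n : (Fin 3 → ℤ) →+ ℝ :=
    { toFun := fun x => (((|N| + 1) * det3 u p x + det3 x p w0 : ℤ) : ℝ)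
      map_zero' := by simp [det3]
      map_add' := fun x y => by simp [det3]; ring }
  refine out_edge h.supp h.hv h.dv ⟨u, h.hu, p, h.hv, w, hw, h.du, h.dv, hw1, hw2.ne'⟩ n ?_ ?_
  · simp [n, det3_self12, det3_self23]
  · intro x hx dx hxp
    have : 0 < (|N| + 1) * det3 u p x + det3 x p w0 := by
      rcases (h.side x hx dx).lt_or_eq with h3 | h3
      · have := hN' x hx dx
        nlinarith [le_abs_self N, abs_nonneg N]
      · rw [← h3, mul_zero, zero_add]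
        have e1 := cramer1 hw0 x
        rw [← h3, zero_smul, add_zero] at e1
        have e2 : det3 x p w0 + det3 u x w0 = 1 := by
          have := congrArg (fun y => δ ⬝ᵥ y) e1
          simp only [dotProduct_add, dotProduct_smul, dx, h.du, h.dv, smul_eq_mul, mul_one] at this
          exact this.symm
        generalize det3 x p w0 = t at e1 e2
        generalize det3 u x w0 = s at e1 e2
        obtain rfl : s = 1 - t := by omega
        by_contra h4
        have h5 : t ≠ 0 := by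
          rintro rfl
          apply hxp; rw [e1]; simp
        apply h2
        intro i
        have a1 := hx i
        have a2 := h.hv i
        rw [e1, l_add, l_smul, l_smul] at a1
        rw [l_add, l_sub]
        have a3 : (t : ℝ) ≤ -1 := by exact_mod_cast (by omega : t ≤ -1)
        push_cast at a1
        nlinarith
    simp only [n, AddMonoidHom.coe_mk, ZeroHom.coe_mk]
    exact_mod_cast this

lemma Edge.in_unique {u u' p δ : Fin 3 → ℤ} (h : c.Edge u p δ) (h' : c.Edge u' p δ) :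
    u = u' := by
  obtain ⟨w0, hw0⟩ := h.uni
  obtain ⟨w1, hw1⟩ := h'.uni
  obtain ⟨w, hw, dw, hw2⟩ := h.nondeg
  have a1 := h.side u' h'.hu h'.du
  have a2 := h'.side u h.hu h.du
  have a3 : det3 u p u' = 0 := by
    have : det3 u' p u = - det3 u p u' := by simp only [det3]; ring
    omega
  have e1 := cramer1 hw0 u'
  rw [a3, zero_smul, add_zero] at e1
  have e2 : det3 u' p w0 + det3 u u' w0 = 1 := by
    have := congrArg (fun y => δ ⬝ᵥ y) e1
    simp only [dotProduct_add, dotProduct_smul, h'.du, h.du, h.dv, smul_eq_mul, mul_one] at this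
    exact this.symm
  generalize det3 u' p w0 = t at e1 e2
  generalize det3 u u' w0 = s at e1 e2
  obtain rfl : s = 1 - t := by omega
  have e3 : ∀ y, det3 u' p y = t * det3 u p y := fun y => by rw [e1]; simp [det3]; ring
  have a4 := h'.side w hw dw
  rw [e3] at a4 hw1
  rcases Int.eq_one_or_neg_one_of_mul_eq_one hw1 with rfl | rfl
  · rw [e1]; simp
  · omega

lemma exists_edge (H : c.AllOne) : ∃ u v δ, c.Edge u v δ := by
  obtain ⟨x0, hx0⟩ := c.S_nonempty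
  -- a positive functional
  obtain ⟨lam0, hlam0⟩ : ∃ lam : Fin 3 → ℝ, ∀ i, lam ⬝ᵥ c.b i = 1 := by
    refine ⟨(c.D)⁻¹ • (cr (c.b 0) (c.b 1) + cr (c.b 1) (c.b 2) + cr (c.b 2) (c.b 0)), fun i => ?_⟩
    rw [smul_dotProduct, smul_eq_mul, inv_mul_eq_iff_eq_mul₀ c.D_ne]
    simp only [add_dotProduct, cr_dot]
    fin_cases i <;> simp [det3, D] <;> ring
  have hpos : ∀ x ∈ c.S, 0 < lam0 ⬝ᵥ rc x := by
    intro x hx
    rw [c.dot_eq]; simp only [hlam0]
    have := hx 0; have := hx 1; have := hx 2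
    linarith
  have h00 := hpos x0 hx0
  have hf := c.fin_cap ((lam0 ⬝ᵥ rc x0)⁻¹ • lam0) (fun i => by
    rw [smul_dotProduct, hlam0]; simpa using h00)
  obtain ⟨u, hu, hmin⟩ := Set.exists_min_image _ (fun x => lam0 ⬝ᵥ rc x) hf
    ⟨x0, hx0, by rw [smul_dotProduct, smul_eq_mul, inv_mul_cancel₀ h00.ne']⟩
  have hu0 := hpos u hu.1
  set lam1 := (lam0 ⬝ᵥ rc u)⁻¹ • lam0 with hlam1
  have h1u : lam1 ⬝ᵥ rc u = 1 := by
    rw [hlam1, smul_dotProduct, smul_eq_mul, inv_mul_cancel₀ hu0.ne']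
  have h1 : ∀ x ∈ c.S, 1 ≤ lam1 ⬝ᵥ rc x := by
    intro x hx
    rw [hlam1, smul_dotProduct, smul_eq_mul, le_inv_mul_iff₀ hu0, mul_one]
    by_cases hx2 : ((lam0 ⬝ᵥ rc x0)⁻¹ • lam0) ⬝ᵥ rc x ≤ 1
    · exact hmin x ⟨hx, hx2⟩
    · have a1 := hu.2
      rw [smul_dotProduct, smul_eq_mul, inv_mul_le_iff₀ h00] at a1 hx2
      linarith
  -- second point
  obtain ⟨y, hy⟩ : ∃ y, cr u y ≠ 0 := by
    by_contra h0
    push Not at h0
    apply c.S_ne hu.1
    have a1 := h0 ![1, 0, 0]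
    have a2 := h0 ![0, 1, 0]
    have b1 := congrFun a1 1
    have b2 := congrFun a1 2
    have b3 := congrFun a2 2
    simp [cr] at b1 b2 b3
    ext j; fin_cases j <;> simp [b1, b2, b3]
  obtain ⟨x1, hx1, hx1'⟩ := c.exists_neg (cr u y) hy u hu.1 (by rw [cr_dot, det3_self13])
  obtain ⟨s, -, h2, v, hv, hv1, h2v⟩ := c.gift lam1 (rc (cr u y)) h1 x1 hx1
    (by rw [rc_dot]; exact_mod_cast hx1')
  have h2u : (lam1 + s • rc (cr u y)) ⬝ᵥ rc u = 1 := by
    rw [add_dotProduct, h1u, smul_dotProduct, rc_dot, cr_dot, det3_self13]; simp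
  have huv : cr u v ≠ 0 := by
    intro h0
    have : det3 u y v = - det3 u v y := by simp only [det3]; ring
    rw [rc_dot, cr_dot, this, ← cr_dot, h0] at hv1
    simp at hv1
  obtain ⟨x2, hx2, hx2'⟩ := c.exists_neg (cr u v) huv u hu.1 (by rw [cr_dot, det3_self13])
  obtain ⟨t, -, h3, w, hw, hw1, h3w⟩ := c.gift _ (rc (cr u v)) h2 x2 hx2
    (by rw [rc_dot]; exact_mod_cast hx2')
  have h3u : (lam1 + s • rc (cr u y) + t • rc (cr u v)) ⬝ᵥ rc u = 1 := by
    rw [add_dotProduct, h2u, smul_dotProduct, rc_dot, cr_dot, det3_self13]; simp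
  have h3v : (lam1 + s • rc (cr u y) + t • rc (cr u v)) ⬝ᵥ rc v = 1 := by
    rw [add_dotProduct, h2v, smul_dotProduct, rc_dot, cr_dot, det3_self23]; simp
  have hdet : det3 u v w ≠ 0 := by
    rw [rc_dot, cr_dot] at hw1
    intro h0; rw [h0] at hw1; simp at hw1
  obtain ⟨δ, hδ⟩ := H _ h3 u hu.1 v hv w hw h3u h3v h3w hdet
  rw [← hδ] at h3 h3u h3v h3w
  rw [rc_dot] at h3u h3v h3w
  have supp : ∀ x ∈ c.S, 1 ≤ δ ⬝ᵥ x := fun x hx => by
    have := h3 x hx; rw [rc_dot] at this; exact_mod_cast this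
  have du : δ ⬝ᵥ u = 1 := by exact_mod_cast h3u
  obtain ⟨p, hp, hpmin⟩ := Set.exists_min_image _ (fun x => c.l 0 x) (face_finite supp)
    ⟨u, hu.1, du⟩
  let n : (Fin 3 → ℤ) →+ ℝ :=
    { toFun := fun x => c.l 0 x - c.l 0 p * ((δ ⬝ᵥ x : ℤ) : ℝ)
      map_zero' := by
        have := c.l_sub 0 p p
        simp at this
        simp [this]
      map_add' := fun x y => by rw [l_add, dotProduct_add]; push_cast; ring }
  obtain ⟨v', hv'⟩ := out_edge supp hp.1 hp.2 ⟨u, hu.1, v, hv, w, hw, du,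
    by exact_mod_cast h3v, by exact_mod_cast h3w, hdet⟩ n (by simp [n, hp.2]) (by
      intro x hx dx hxp
      simp only [n, AddMonoidHom.coe_mk, ZeroHom.coe_mk, dx]
      have a1 := hpmin x ⟨hx, dx⟩
      have a2 := c.l_ne (sub_ne_zero.mpr hxp) 0
      rw [l_sub] at a2
      push_cast
      rcases a1.lt_or_eq with a3 | a3
      · linarith
      · exact absurd (by linarith) a2)
  exact ⟨p, v', δ, hv'⟩

end Ctx

end Pool.Agent.MP_024ca5_nt

end

-- part MP_024ca5_nt.Main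
section

/-! The Gauss-Bonnet type count: faces of a periodic sail cannot all be at distance one. -/

set_option autoImplicit false
open Matrix

namespace Pool.Agent.MP_024ca5_nt

lemma sign_identity {x y z a b d : ℝ} (hx : x ≠ 0) (hy : y ≠ 0) (hz : z ≠ 0) (ha : a ≠ 0)
    (hb : b ≠ 0) (hd : d ≠ 0) (hs : 0 < x + y + z) (hl : x * a + y * b + z * d = 0) :
    1 + sg z * sg y + sg x * sg z + sg y * sg x =
      (1 - sg a * sg b) * sg z + (1 - sg b * sg d) * sg x + (1 - sg d * sg a) * sg y := by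
  rcases lt_or_gt_of_ne hx with hx | hx <;> rcases lt_or_gt_of_ne hy with hy | hy <;>
  rcases lt_or_gt_of_ne hz with hz | hz <;> rcases lt_or_gt_of_ne ha with ha | ha <;>
  rcases lt_or_gt_of_ne hb with hb | hb <;> rcases lt_or_gt_of_ne hd with hd | hd <;>
  first
    | (exfalso; linarith)
    | (simp only [sg_pos, sg_neg', hx, hy, hz, ha, hb, hd]; norm_num; done)
    | (exfalso; nlinarith)

namespace Ctx
variable {c : Ctx}

lemma dx_swap (u v : Fin 3 → ℤ) : c.dx v u = - c.dx u v := det3_swap _ _ _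

lemma ne_zero_of_det {u v w : Fin 3 → ℤ} (h : det3 u v w = 1) : u ≠ 0 := by
  rintro rfl; simp [det3] at h

/-- half of the cochain -/
noncomputable def ZZ (c : Ctx) (P : (Fin 3 → ℤ) → (Fin 3 → ℤ) → ℝ) (δ u v : Fin 3 → ℤ) : ℝ :=
  (rc δ ⬝ᵥ c.b 0) / (2 * c.dx u v) + P u v
    - 3 / 2 * (1 - sg (c.l 1 u) * sg (c.l 1 v)) * sg (c.dx u v)

lemma ZZ_sub (P : (Fin 3 → ℤ) → (Fin 3 → ℤ) → ℝ) (δ u v : Fin 3 → ℤ) (h : c.dx u v ≠ 0) :
    ZZ c P δ u v - ZZ c P δ v u = (rc δ ⬝ᵥ c.b 0) / c.dx u v + P u v - P v u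
      - 3 * (1 - sg (c.l 1 u) * sg (c.l 1 v)) * sg (c.dx u v) := by
  unfold ZZ
  rw [dx_swap u v, sg_neg h]
  field_simp
  ring

lemma closed_tri (P : (Fin 3 → ℤ) → (Fin 3 → ℤ) → ℝ)
    (hP : ∀ p u w, det3 p u w = 1 → P p w - P p u = EE (c.dx p u) (c.dx p w))
    (δ u v w : Fin 3 → ℤ) (hδ : 0 < rc δ ⬝ᵥ c.b 0) (du : δ ⬝ᵥ u = 1) (dv : δ ⬝ᵥ v = 1)
    (dw : δ ⬝ᵥ w = 1) (h : det3 u v w = 1) :
    (ZZ c P δ u v - ZZ c P δ v u) + (ZZ c P δ v w - ZZ c P δ w v) +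
      (ZZ c P δ w u - ZZ c P δ u w) = 0 := by
  have h2 : det3 v w u = 1 := by rw [det3_rot, h]
  have h3 : det3 w u v = 1 := by rw [det3_rot, h2]
  have hz := c.dx_ne h
  have hx := c.dx_ne h2
  have hy := c.dx_ne h3
  have e1 := hP _ _ _ h
  have e2 := hP _ _ _ h2
  have e3 := hP _ _ _ h3
  rw [dx_swap w u, EE_neg_right _ hy] at e1
  rw [dx_swap u v, EE_neg_right _ hz] at e2
  rw [dx_swap v w, EE_neg_right _ hx] at e3
  have hb : c.b 0 = c.dx v w • rc u + c.dx w u • rc v + c.dx u v • rc w := by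
    have := cramer3 (rc u) (rc v) (rc w) (c.b 0)
    rw [rc_det3, h, Int.cast_one, one_smul] at this
    unfold dx
    rw [det3_rot (c.b 0), ← det3_rot (rc w) (rc u) (c.b 0)]
    exact this
  have hs : rc δ ⬝ᵥ c.b 0 = c.dx v w + c.dx w u + c.dx u v := by
    conv_lhs => rw [hb]
    simp only [dotProduct_add, dotProduct_smul, rc_dot, du, dv, dw]; simp
  have hl : c.dx v w * c.l 1 u + c.dx w u * c.l 1 v + c.dx u v * c.l 1 w = 0 := by
    have := congrArg (fun y => c.b.repr y 1) hb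
    simp only [map_add, map_smul, Finsupp.add_apply, Finsupp.smul_apply, smul_eq_mul,
      Module.Basis.repr_self] at this
    simp only [l]
    rw [← this]; simp
  have si := sign_identity hx hy hz (c.l_ne (ne_zero_of_det h) 1) (c.l_ne (ne_zero_of_det h2) 1)
    (c.l_ne (ne_zero_of_det h3) 1) (hs ▸ hδ) hl
  rw [ZZ_sub P δ u v hz, ZZ_sub P δ v w hx, ZZ_sub P δ w u hy, hs]
  unfold EE at e1 e2 e3
  generalize c.dx v w = x at *
  generalize c.dx w u = y at *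
  generalize c.dx u v = z at *
  have : (x + y + z) / z + (x + y + z) / x + (x + y + z) / y =
      3 + x / y + y / x + x / z + z / x + y / z + z / y := by field_simp; ring
  linarith

lemma edge_finite (δ : Fin 3 → ℤ) : {e : (Fin 3 → ℤ) × (Fin 3 → ℤ) | c.Edge e.1 e.2 δ}.Finite := by
  by_cases h : ∀ x ∈ c.S, 1 ≤ δ ⬝ᵥ x
  · refine ((face_finite h).prod (face_finite h)).subset ?_
    intro e he
    exact ⟨⟨he.hu, he.du⟩, ⟨he.hv, he.dv⟩⟩
  · convert Set.finite_empty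
    ext e
    simp only [Set.mem_ofPred_eq, Set.mem_empty_iff_false, iff_false]
    exact fun he => h he.supp

lemma cycle_sum (δ : Fin 3 → ℤ) (h : (Fin 3 → ℤ) → ℝ) :
    ∑ e ∈ (edge_finite (c := c) δ).toFinset, (h e.2 - h e.1) = 0 := by
  classical
  have : ∀ e : (Fin 3 → ℤ) × (Fin 3 → ℤ), ∃ v, c.Edge e.1 e.2 δ → c.Edge e.2 v δ := by
    intro e
    by_cases he : c.Edge e.1 e.2 δ
    · obtain ⟨v, hv⟩ := he.next
      exact ⟨v, fun _ => hv⟩
    · exact ⟨0, fun h => absurd h he⟩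
  choose nx hnx using this
  set E := (edge_finite (c := c) δ).toFinset with hE
  have mem : ∀ e, e ∈ E ↔ c.Edge e.1 e.2 δ := fun e => by simp [hE]
  have hmaps : ∀ e ∈ E, (e.2, nx e) ∈ E := fun e he => (mem _).mpr (hnx e ((mem _).mp he))
  have hinj : ∀ e1 ∈ E, ∀ e2 ∈ E, (e1.2, nx e1) = (e2.2, nx e2) → e1 = e2 := by
    intro e1 h1 e2 h2 h3
    have h4 : e1.2 = e2.2 := congrArg Prod.fst h3
    have h5 := (mem _).mp h2
    rw [← h4] at h5
    exact Prod.ext (((mem _).mp h1).in_unique h5) h4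
  have hsurj := Finset.surj_on_of_inj_on_of_card_le (s := E) (t := E) (fun e _ => (e.2, nx e))
    hmaps (fun a b ha hb hab => hinj a ha b hb hab) le_rfl
  rw [Finset.sum_sub_distrib, sub_eq_zero]
  refine Finset.sum_bij (fun e _ => (e.2, nx e)) hmaps hinj ?_ (fun _ _ => rfl)
  intro b hb
  obtain ⟨a, ha, h⟩ := hsurj b hb
  exact ⟨a, ha, h.symm⟩

/-- the invariant edge function -/
noncomputable def TT (c : Ctx) (P : (Fin 3 → ℤ) → (Fin 3 → ℤ) → ℝ) (δ u v : Fin 3 → ℤ) : ℝ :=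
  (rc δ ⬝ᵥ c.b 0) / c.dx u v + P u v - P v u

lemma face_sum (P : (Fin 3 → ℤ) → (Fin 3 → ℤ) → ℝ)
    (hP : ∀ p u w, det3 p u w = 1 → P p w - P p u = EE (c.dx p u) (c.dx p w))
    (δ : Fin 3 → ℤ) :
    ∑ e ∈ (edge_finite (c := c) δ).toFinset, TT c P δ e.1 e.2 = 0 := by
  rcases (edge_finite (c := c) δ).toFinset.eq_empty_or_nonempty with h0 | ⟨e0, he0⟩
  · rw [h0]; simp
  have he0' : c.Edge e0.1 e0.2 δ := by simpa using he0
  obtain ⟨e, f, hef⟩ := exists_cr δ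
  have hd : ∀ x, det3 x e f = δ ⬝ᵥ x := fun x => by rw [← hef, cr_dot, det3_rot x]
  set p := e0.1
  have hp : det3 p e f = 1 := by rw [hd, he0'.du]
  have de : δ ⬝ᵥ e = 0 := by rw [← hd, det3_self12]
  have df : δ ⬝ᵥ f = 0 := by rw [← hd, det3_self13]
  let X : ℤ × ℤ → (Fin 3 → ℤ) := fun x => p + x.1 • e + x.2 • f
  have dX : ∀ x, δ ⬝ᵥ X x = 1 := fun x => by
    simp only [X, dotProduct_add, dotProduct_smul, de, df, he0'.du]; simp
  have hδ : 0 < rc δ ⬝ᵥ c.b 0 := c.interior _ (supp_real he0'.supp) 0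
  obtain ⟨h, hh⟩ := planar_exact (fun x y => ZZ c P δ (X x) (X y) - ZZ c P δ (X y) (X x))
    (fun x y => by ring) (fun x y z hxyz => closed_tri P hP δ _ _ _ hδ (dX x) (dX y) (dX z) (by
      have : det3 (X x) (X y) (X z) = ((y.1 - x.1) * (z.2 - x.2) - (y.2 - x.2) * (z.1 - x.1)) *
          det3 p e f := by
        simp only [X, det3, Pi.add_apply, Pi.smul_apply, smul_eq_mul]; ring
      rw [this, hxyz, hp, one_mul]))
  let co : (Fin 3 → ℤ) → ℤ × ℤ := fun u => (det3 p u f, det3 p e u)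
  have hco : ∀ u, δ ⬝ᵥ u = 1 → X (co u) = u := fun u du => by
    conv_rhs => rw [cramer1 hp u, hd, du, one_smul]
  rw [← cycle_sum (c := c) δ (fun u => h (co u))]
  refine Finset.sum_congr rfl fun x hx => ?_
  have hx' : c.Edge x.1 x.2 δ := by simpa using hx
  obtain ⟨w, hw⟩ := hx'.uni
  have := hh (co x.1) (co x.2 - co x.1) (by
    refine ⟨det3 x.1 e w, det3 x.1 f w, ?_⟩
    have e1 : x.2 = x.1 + (co x.2 - co x.1).1 • e + (co x.2 - co x.1).2 • f := by
      conv_lhs => rw [← hco x.2 hx'.dv]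
      conv_rhs => rw [← hco x.1 hx'.du]
      simp only [hco x.1 hx'.du]
      simp only [X, Prod.fst_sub, Prod.snd_sub, sub_smul]
      have e2 := hco x.1 hx'.du
      simp only [X] at e2
      conv_rhs => enter [1, 1]; rw [← e2]
      abel
    generalize (co x.2 - co x.1).1 = m at e1
    generalize (co x.2 - co x.1).2 = n at e1
    rw [← hw, e1]
    simp only [det3, Pi.add_apply, Pi.smul_apply, smul_eq_mul]; ring)
  simp only [add_sub_cancel, hco x.1 hx'.du, hco x.2 hx'.dv] at this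
  rw [← this, ZZ_sub P δ _ _ (c.dx_ne hw), sg_pos (hx'.hu 1), sg_pos (hx'.hv 1)]
  simp [TT]

theorem not_allOne (c : Ctx) : ¬ c.AllOne := by
  classical
  intro H
  obtain ⟨P, hPi, hP⟩ := c.exists_P
  obtain ⟨r, γ, hγ, hr⟩ := exists_rep c.af c.af_one c.af_mul
  have hrr : ∀ δ, c.af (γ δ)⁻¹ δ = r δ := fun δ => by
    conv_lhs => enter [3]; rw [← hγ δ]
    rw [af_inv]
  have hr2 : ∀ δ, r (r δ) = r δ := fun δ => by
    conv_lhs => rw [← hrr δ]
    rw [hr]
  have TTi : ∀ (g : c.G) δ u v, c.Edge u v δ →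
      TT c P (c.af g δ) (c.av g u) (c.av g v) = TT c P δ u v := by
    intro g δ u v he
    obtain ⟨s, hs, -, -, h1, h2⟩ := c.exists_scale g
    unfold TT dx
    rw [h1, h2, hPi _ _ _ (c.S_ne he.hu), hPi _ _ _ (c.S_ne he.hv),
      mul_div_mul_left _ _ (inv_pos.mpr (hs 0)).ne']
  let D0 : Set (Fin 3 → ℤ) := {δ | (∃ u v, c.Edge u v δ) ∧ r δ = δ}
  have hD0 : D0.Finite := by
    refine c.finite_orbits D0 ?_ ?_
    · rintro δ ⟨⟨u, v, he⟩, -⟩
      exact ⟨c.interior _ (supp_real he.supp), u, he.hu, he.du⟩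
    · rintro δ ⟨-, h1⟩ δ' ⟨-, h2⟩ g hg
      rw [← h1, ← h2, ← hg, hr]
  let E0 : Finset (Σ _ : Fin 3 → ℤ, (Fin 3 → ℤ) × (Fin 3 → ℤ)) :=
    hD0.toFinset.sigma fun δ => (edge_finite (c := c) δ).toFinset
  have mem : ∀ e, e ∈ E0 ↔ c.Edge e.2.1 e.2.2 e.1 ∧ r e.1 = e.1 := by
    intro e
    simp only [E0, Finset.mem_sigma, Set.Finite.mem_toFinset, D0, Set.mem_ofPred_eq]
    exact ⟨fun h => ⟨h.2, h.1.2⟩, fun h => ⟨⟨⟨_, _, h.1⟩, h.2⟩, h.1⟩⟩
  let T : (Σ _ : Fin 3 → ℤ, (Fin 3 → ℤ) × (Fin 3 → ℤ)) → ℝ := fun e => TT c P e.1 e.2.1 e.2.2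
  have hsum : ∑ e ∈ E0, T e = 0 := by
    rw [Finset.sum_sigma]
    exact Finset.sum_eq_zero fun δ _ => face_sum P hP δ
  have : ∀ e : (Σ _ : Fin 3 → ℤ, (Fin 3 → ℤ) × (Fin 3 → ℤ)), ∃ δ', c.Edge e.2.1 e.2.2 e.1 →
      c.Edge e.2.2 e.2.1 δ' ∧ T e + TT c P δ' e.2.2 e.2.1 < 0 := by
    rintro ⟨δ, u, v⟩
    by_cases he : c.Edge u v δ
    · obtain ⟨δ', s, hs, h1, h2⟩ := he.flip H
      refine ⟨δ', fun _ => ⟨h1, ?_⟩⟩
      obtain ⟨w, hw⟩ := he.uni
      have hz := c.dx_ne hw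
      simp only [T, TT]
      rw [h2, add_dotProduct, smul_dotProduct, rc_cr, cr_dot, dx_swap u v, smul_eq_mul]
      change _ + ((rc δ ⬝ᵥ c.b 0 + s * c.dx u v) / -c.dx u v + _ - _) < 0
      have : (rc δ ⬝ᵥ c.b 0 + s * c.dx u v) / -c.dx u v = -(rc δ ⬝ᵥ c.b 0 / c.dx u v) - s := by
        field_simp; ring
      rw [this]; linarith
    · exact ⟨0, fun h => absurd h he⟩
  choose fl hfl using this
  let ι : (Σ _ : Fin 3 → ℤ, (Fin 3 → ℤ) × (Fin 3 → ℤ)) →
      (Σ _ : Fin 3 → ℤ, (Fin 3 → ℤ) × (Fin 3 → ℤ)) := fun e =>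
    ⟨r (fl e), c.av (γ (fl e))⁻¹ e.2.2, c.av (γ (fl e))⁻¹ e.2.1⟩
  have hmaps : ∀ e ∈ E0, ι e ∈ E0 := by
    intro e he
    rw [mem] at he ⊢
    refine ⟨?_, hr2 _⟩
    have := (hfl e he.1).1.act (γ (fl e))⁻¹
    rwa [hrr] at this
  have hT : ∀ e ∈ E0, T e + T (ι e) < 0 := by
    intro e he
    rw [mem] at he
    have := TTi (γ (fl e))⁻¹ _ _ _ (hfl e he.1).1
    rw [hrr] at this
    simp only [T, ι]
    rw [this]
    exact (hfl e he.1).2
  have hinj : ∀ e1 ∈ E0, ∀ e2 ∈ E0, ι e1 = ι e2 → e1 = e2 := by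
    rintro ⟨δ1, u1, v1⟩ h1 ⟨δ2, u2, v2⟩ h2 h3
    rw [mem] at h1 h2
    simp only [ι, Sigma.mk.injEq, heq_eq_eq, Prod.mk.injEq] at h3
    obtain ⟨-, h4, h5⟩ := h3
    set g1 := γ (fl ⟨δ1, u1, v1⟩)
    set g2 := γ (fl ⟨δ2, u2, v2⟩)
    have e1 : c.av (g2 * g1⁻¹) u1 = u2 := by rw [av_mul, h5, av_inv']
    have e2 : c.av (g2 * g1⁻¹) v1 = v2 := by rw [av_mul, h4, av_inv']
    have e3 := h1.1.act (g2 * g1⁻¹)
    simp only [e1, e2] at e3
    have e4 := e3.unique h2.1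
    have e5 : δ1 = δ2 := by
      have a1 : r δ1 = δ1 := h1.2
      have a2 : r δ2 = δ2 := h2.2
      simp only at e4
      rw [← a1, ← a2, ← e4, hr]
    have e6 : δ1 ≠ 0 := by
      intro h0
      have := h1.1.du
      simp [h0] at this
    have e7 := c.af_free (g2 * g1⁻¹) e6 (e4.trans e5.symm)
    rw [e7, av_one] at e1 e2
    rw [e5, e1, e2]
  have hsurj := Finset.surj_on_of_inj_on_of_card_le (s := E0) (t := E0) (fun e _ => ι e)
    hmaps (fun a b ha hb hab => hinj a ha b hb hab) le_rfl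
  have hsum2 : ∑ e ∈ E0, T (ι e) = ∑ e ∈ E0, T e := by
    refine Finset.sum_bij (fun e _ => ι e) hmaps hinj ?_ (fun _ _ => rfl)
    intro b hb
    obtain ⟨a, ha, h⟩ := hsurj b hb
    exact ⟨a, ha, h.symm⟩
  have hne : E0.Nonempty := by
    obtain ⟨u, v, δ, he⟩ := exists_edge H
    refine ⟨⟨r δ, c.av (γ δ)⁻¹ u, c.av (γ δ)⁻¹ v⟩, (mem _).mpr ⟨?_, hr2 _⟩⟩
    have := he.act (γ δ)⁻¹
    rwa [hrr] at this
  have := Finset.sum_lt_sum_of_nonempty hne (f := fun e => T e + T (ι e)) (g := fun _ => 0) hT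
  rw [Finset.sum_add_distrib, hsum2, hsum] at this
  simp at this

end Ctx

end Pool.Agent.MP_024ca5_nt

end

-- part MP_024ca5_nt.Bridge
section

/-! From the hypotheses on the matrix to the abstract context. -/

set_option autoImplicit false
open Matrix Polynomial

namespace Pool.Agent.MP_024ca5_nt

lemma irr_of_irreducible (A : Matrix (Fin 3) (Fin 3) ℤ)
    (hA : Irreducible (A.charpoly.map (Int.castRingHom ℚ))) (a : Fin 3 → ℤ) (ha : a ≠ 0) :
    (a 0 • (1 : Matrix (Fin 3) (Fin 3) ℤ) + a 1 • A + a 2 • (A * A)).det ≠ 0 := by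
  set A' : Matrix (Fin 3) (Fin 3) ℚ := A.map (Int.castRingHom ℚ) with hA'
  rw [← Matrix.charpoly_map] at hA
  set p : ℚ[X] := C (a 0 : ℚ) + C (a 1 : ℚ) * X + C (a 2 : ℚ) * X ^ 2 with hp
  have hp0 : p ≠ 0 := by
    intro h
    apply ha
    have h0 := congrArg (fun q => q.coeff 0) h
    have h1 := congrArg (fun q => q.coeff 1) h
    have h2 := congrArg (fun q => q.coeff 2) h
    simp only [hp, coeff_add, coeff_C_mul, coeff_C, coeff_X, coeff_X_pow, coeff_zero] at h0 h1 h2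
    norm_num at h0 h1 h2
    ext j; fin_cases j <;> simp [h0, h1, h2]
  have hdeg : p.natDegree ≤ 2 := by rw [hp]; compute_degree
  have hnd : ¬ A'.charpoly ∣ p := by
    intro h
    have := Polynomial.natDegree_le_of_dvd h hp0
    rw [Matrix.charpoly_natDegree_eq_dim] at this
    simp at this
    omega
  obtain ⟨u, w, huw⟩ := (hA.coprime_iff_not_dvd).mpr hnd
  have h1 := congrArg (Polynomial.aeval A') huw
  rw [map_add, map_mul, map_mul, Matrix.aeval_self_charpoly, mul_zero, zero_add, map_one] at h1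
  have h2 : (Polynomial.aeval A' p).det ≠ 0 := by
    intro h0
    have := congrArg Matrix.det h1
    rw [det_mul, h0, mul_zero, det_one] at this
    exact zero_ne_one this
  intro h0
  apply h2
  have h3 : Polynomial.aeval A' p = (a 0 • (1 : Matrix (Fin 3) (Fin 3) ℤ) + a 1 • A +
      a 2 • (A * A)).map (Int.castRingHom ℚ) := by
    simp only [hp, map_add, map_mul, aeval_C, aeval_X, pow_two, Algebra.algebraMap_eq_smul_one,
      smul_mul_assoc, one_mul]
    ext i j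
    simp only [hA', Matrix.add_apply, Matrix.smul_apply, Matrix.map_apply, Matrix.mul_apply,
      Matrix.one_apply, smul_eq_mul, eq_intCast]
    push_cast
    rfl
  rw [h3]
  change ((Int.castRingHom ℚ).mapMatrix _).det = 0
  rw [← RingHom.map_det, h0, map_zero]

lemma allOne_of (c : Ctx) (K : Set (Fin 3 → ℤ)) (hK : K = c.S)
    (h : ¬ ∃ f : Fin 3 → ℤ, (∀ d : ℤ, (∀ i, d ∣ f i) → IsUnit d) ∧
            ∃ c : ℤ, 2 ≤ c ∧
              (∀ x ∈ K, c ≤ f ⬝ᵥ x) ∧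
              ∃ p ∈ K, ∃ q ∈ K, ∃ r ∈ K,
                f ⬝ᵥ p = c ∧ f ⬝ᵥ q = c ∧ f ⬝ᵥ r = c ∧
                LinearIndependent ℤ ![q - p, r - p]) : c.AllOne := by
  subst hK
  intro lam hl u hu v hv w hw lu lv lw hd
  set N : Fin 3 → ℤ := det3 u v w • (cr u v + cr v w + cr w u) with hN
  have Nu : N ⬝ᵥ u = det3 u v w ^ 2 := by
    simp only [hN, smul_dotProduct, add_dotProduct, cr_dot, smul_eq_mul, det3]; ring
  have Nv : N ⬝ᵥ v = det3 u v w ^ 2 := by
    simp only [hN, smul_dotProduct, add_dotProduct, cr_dot, smul_eq_mul, det3]; ring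
  have Nw : N ⬝ᵥ w = det3 u v w ^ 2 := by
    simp only [hN, smul_dotProduct, add_dotProduct, cr_dot, smul_eq_mul, det3]; ring
  have hd2 : 0 < det3 u v w ^ 2 := by positivity
  have hN0 : N ≠ 0 := by
    intro h0; rw [h0] at Nu; simp at Nu; exact hd (by simpa using Nu.symm)
  obtain ⟨g, f, φ, hg, e1, e2⟩ := exists_primitive N hN0
  set k := f ⬝ᵥ u with hk
  have fu : g * k = det3 u v w ^ 2 := by rw [← Nu, e1, smul_dotProduct]; rfl
  have fv : f ⬝ᵥ v = k := by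
    apply mul_left_cancel₀ hg.ne'
    rw [fu, ← Nv, e1, smul_dotProduct]; rfl
  have fw : f ⬝ᵥ w = k := by
    apply mul_left_cancel₀ hg.ne'
    rw [fu, ← Nw, e1, smul_dotProduct]; rfl
  have hk0 : 0 < k := by
    by_contra h0; push Not at h0; nlinarith
  have hd' : ((det3 u v w : ℤ) : ℝ) ≠ 0 := by exact_mod_cast hd
  have key : ∀ y : Fin 3 → ℝ, rc f ⬝ᵥ y = k * (lam ⬝ᵥ y) := by
    intro y
    have e := cramer3 (rc u) (rc v) (rc w) y
    rw [rc_det3] at e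
    have a1 := congrArg (fun z => rc f ⬝ᵥ z) e
    have a2 := congrArg (fun z => lam ⬝ᵥ z) e
    simp only [dotProduct_add, dotProduct_smul, smul_eq_mul, rc_dot, fv, fw, ← hk, lu, lv, lw]
      at a1 a2
    apply mul_left_cancel₀ hd'
    rw [a1]
    linear_combination (-k : ℝ) * a2
  by_cases h2 : 2 ≤ k
  · exfalso
    apply h
    refine ⟨f, fun d hdv => ?_, k, h2, fun x hx => ?_, u, hu, v, hv, w, hw, rfl, fv, fw, ?_⟩
    · apply isUnit_of_dvd_one
      rw [← e2]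
      exact Finset.dvd_sum fun i _ => Dvd.dvd.mul_left (hdv i) _
    · have a1 := key (rc x)
      have a2 := hl x hx
      rw [rc_dot] at a1
      have a3 : (0 : ℝ) < k := by exact_mod_cast hk0
      have : (k : ℝ) ≤ ((f ⬝ᵥ x : ℤ) : ℝ) := by nlinarith
      exact_mod_cast this
    · rw [LinearIndependent.pair_iff]
      intro s t hst
      have a1 : det3 u (s • (v - u) + t • (w - u)) w = s * det3 u v w := by simp [det3]; ring
      have a2 : det3 u v (s • (v - u) + t • (w - u)) = t * det3 u v w := by simp [det3]; ring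
      rw [hst] at a1 a2
      have b1 : det3 u 0 w = 0 := by simp [det3]
      have b2 : det3 u v 0 = 0 := by simp [det3]
      rw [b1] at a1
      rw [b2] at a2
      exact ⟨(mul_eq_zero.mp a1.symm).resolve_right hd, (mul_eq_zero.mp a2.symm).resolve_right hd⟩
  · have : k = 1 := by omega
    refine ⟨f, ?_⟩
    rw [← sub_eq_zero]
    apply dotProduct_eq_zero
    intro y
    rw [sub_dotProduct, key, this]; simp

theorem sail_main (A : Matrix (Fin 3) (Fin 3) ℤ)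
    (hA : Irreducible (A.charpoly.map (Int.castRingHom ℚ)))
    (μ : Fin 3 → ℝ) (v : Fin 3 → (Fin 3 → ℝ)) (hμ : Function.Injective μ) (hv : ∀ i, v i ≠ 0)
    (he : ∀ i, (A.map (Int.cast : ℤ → ℝ)) *ᵥ v i = μ i • v i) (K : Set (Fin 3 → ℤ))
    (hK : K = {x : Fin 3 → ℤ | x ≠ 0 ∧
                ∃ t : Fin 3 → ℝ, (∀ i, 0 ≤ t i) ∧
                  (fun j => (x j : ℝ)) = ∑ i, t i • v i}) :
    ∃ f : Fin 3 → ℤ, (∀ d : ℤ, (∀ i, d ∣ f i) → IsUnit d) ∧
            ∃ c : ℤ, 2 ≤ c ∧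
              (∀ x ∈ K, c ≤ f ⬝ᵥ x) ∧
              ∃ p ∈ K, ∃ q ∈ K, ∃ r ∈ K,
                f ⬝ᵥ p = c ∧ f ⬝ᵥ q = c ∧ f ⬝ᵥ r = c ∧
                LinearIndependent ℤ ![q - p, r - p] := by
  have li : LinearIndependent ℝ v :=
    Module.End.eigenvectors_linearIndependent' (Matrix.toLin' (A.map (Int.cast : ℤ → ℝ))) μ hμ v
      fun i => ⟨Module.End.mem_eigenspace_iff.mpr (by rw [Matrix.toLin'_apply, he]), hv i⟩
  let b := basisOfLinearIndependentOfCardEqFinrank li (by simp)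
  have hb : ∀ i, b i = v i := fun i => by simp [b]
  let c : Ctx := ⟨A, μ, b, hμ, fun i => by rw [hb, he], irr_of_irreducible A hA⟩
  by_contra h
  refine c.not_allOne (allOne_of c K ?_ h)
  rw [hK]
  ext x
  constructor
  · rintro ⟨hx, t, ht, e⟩ i
    have a1 := c.l_ne hx i
    have a2 : c.l i x = t i := by
      have : rc x = ∑ i, t i • b i := by simp only [hb]; exact e
      change b.repr (rc x) i = t i
      rw [this, b.repr_sum_self]
    rw [a2] at a1 ⊢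
    exact (ht i).lt_of_ne a1.symm
  · intro hx
    refine ⟨c.S_ne hx, fun i => c.l i x, fun i => (hx i).le, ?_⟩
    simp only [← hb]
    exact (b.sum_repr (rc x)).symm

end Pool.Agent.MP_024ca5_nt

end
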