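import Pool.Agent.MP_024ca5_nt.Mg.SailGeom

attribute [-instance] RKHS.instFunLike Fintype.decidableForallFintype
  IdemSemiring.toCanonicallyOrderedAdd AddQuantale.instAddLeftMono CoalgHomClass.toSemilinearMapClass
  GrpTypeEquivalenceGrp.grpGroup NumberField.to_charZero NormedAlgebra.toAlgebra
  ValuationRing.instIsBezout TotallySeparatedSpace.t2Space DivisionRing.isSimpleRing
  RingHomClass.toLinearMapClassNNRat CompletePartialOrder.toPartialOrder
  MonTypeEquivalenceMon.monMonoid Multiset.decidableDforallMultiset Int.decidableLTLE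
  IsDedekindDomain.isPrincipalIdealRing NeZero.of_gt' instCoeHTCOfCoeHeadOfCoeOTC
  SemilinearIsometryClass.toSemilinearMapClass AddQuantale.instAddRightMono
  Finset.decidableDforallFinset LinearOrderedCommMonoidWithZero.toPosMulStrictMono
  TestFunctionClass.toDFunLike RingHomClass.toLinearMapClassRat
  Vector.instDecidableForallForallMemOfDecidablePred LieAdmissibleRing.toNonUnitalNonAssocRing
  NonUnitalAlgSemiHomClass.toDistribMulActionSemiHomClass Int.decidableLELE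
  LeftPreLieRing.toNonUnitalNonAssocRing AlgHom.instContinuousLinearMapClassOfAlgHomClass
  Group.IsPerfect.subsingleton_of_isMulCommutative Array.instDecidableForallForallMemOfDecidablePred
  Invertible.toNeZero instCoeHTCTOfCoeTailOfCoeHTC IsTopologicalTorsor.toContinuousSMul
  instIsPrincipalIdealRingOfIsSemisimpleRing
  PositiveLinearMap.instContinuousLinearMapClassComplexOfLinearMapClassOfOrderHomClass
  Option.decidableForallMem

-- part MP_024ca5_nt.H20.Comb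
section

/-! A periodic sail whose torus consists of two triangles at integer distances 2 and 3:
the lattice part of the argument. -/

set_option autoImplicit false
open Matrix

namespace Pool.Agent.MP_024ca5_nt.NoUnit

def mY : Matrix (Fin 3) (Fin 3) ℤ := !![-1, -5, -7; -1, 33, 14; 2, 1, 9]
def mYi : Matrix (Fin 3) (Fin 3) ℤ := !![283, 38, 161; 37, 5, 21; -67, -9, -38]
def mZ : Matrix (Fin 3) (Fin 3) ℤ := !![38, 4, 21; 5, 8, 7; -9, -1, -5]
def mZi : Matrix (Fin 3) (Fin 3) ℤ := !![-33, -1, -140; -38, -1, -161; 67, 2, 284]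
def f1 : Fin 3 → ℤ := ![2, 2, 3]
def f2 : Fin 3 → ℤ := ![3, 3, 14]
def pa : Fin 3 → ℤ := ![1, 0, 0]
def pb : Fin 3 → ℤ := ![0, 1, 0]
def pc : Fin 3 → ℤ := ![-1, -1, 2]
def pd : Fin 3 → ℤ := ![38, 5, -9]

lemma YYi : mY * mYi = 1 := by decide
lemma YiY : mYi * mY = 1 := by decide
lemma ZZi : mZ * mZi = 1 := by decide
lemma ZiZ : mZi * mZ = 1 := by decide

/-- mutually inverse integer matrices preserving `S` -/
structure Good (S : Set (Fin 3 → ℤ)) (M N : Matrix (Fin 3) (Fin 3) ℤ) : Prop where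
  mn : M * N = 1
  nm : N * M = 1
  hm : ∀ x ∈ S, M *ᵥ x ∈ S
  hn : ∀ x ∈ S, N *ᵥ x ∈ S

lemma Good.symm {S : Set (Fin 3 → ℤ)} {M N : Matrix (Fin 3) (Fin 3) ℤ} (h : Good S M N) :
    Good S N M := ⟨h.nm, h.mn, h.hn, h.hm⟩

lemma Good.mul {S : Set (Fin 3 → ℤ)} {M N M' N' : Matrix (Fin 3) (Fin 3) ℤ} (h : Good S M N)
    (h' : Good S M' N') : Good S (M * M') (N' * N) where
  mn := by rw [mul_assoc, ← mul_assoc M', h'.mn, one_mul, h.mn]
  nm := by rw [mul_assoc, ← mul_assoc N, h.nm, one_mul, h'.nm]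
  hm := fun x hx => by rw [← mulVec_mulVec]; exact h.hm _ (h'.hm _ hx)
  hn := fun x hx => by rw [← mulVec_mulVec]; exact h'.hn _ (h.hn _ hx)

lemma Good.one (S : Set (Fin 3 → ℤ)) : Good S 1 1 :=
  ⟨one_mul _, one_mul _, fun x hx => by simpa using hx, fun x hx => by simpa using hx⟩

/-- what the argument needs about the set of lattice points of the cone -/
structure Hyp (S : Set (Fin 3 → ℤ)) : Prop where
  gY : Good S mY mYi
  gZ : Good S mZ mZi
  ha : pa ∈ S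
  add : ∀ x ∈ S, ∀ y ∈ S, x + y ∈ S
  p1 : ∀ x ∈ S, 0 < f1 ⬝ᵥ x
  p2 : ∀ x ∈ S, 0 < f2 ⬝ᵥ x

variable {S : Set (Fin 3 → ℤ)}

lemma Hyp.hc (H : Hyp S) : pc ∈ S := by
  have := H.gY.hm _ H.ha
  rwa [show mY *ᵥ pa = pc by decide] at this
lemma Hyp.hd (H : Hyp S) : pd ∈ S := by
  have := H.gZ.hm _ H.ha
  rwa [show mZ *ᵥ pa = pd by decide] at this
lemma Hyp.hb (H : Hyp S) : pb ∈ S := by
  have := H.gY.hm _ H.hd
  rwa [show mY *ᵥ pd = pb by decide] at this

def Cone1 (y : Fin 3 → ℤ) : Prop := 0 ≤ 2 * y 0 + y 2 ∧ 0 ≤ 2 * y 1 + y 2 ∧ 0 ≤ y 2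
def Cone2 (y : Fin 3 → ℤ) : Prop := 0 ≤ 9 * y 0 + 38 * y 2 ∧ 0 ≤ 9 * y 1 + 5 * y 2 ∧ y 2 ≤ 0

lemma d1 (y : Fin 3 → ℤ) : f1 ⬝ᵥ y = 2 * y 0 + 2 * y 1 + 3 * y 2 := by
  simp [f1, dotProduct, Fin.sum_univ_three]
lemma d2 (y : Fin 3 → ℤ) : f2 ⬝ᵥ y = 3 * y 0 + 3 * y 1 + 14 * y 2 := by
  simp [f2, dotProduct, Fin.sum_univ_three]

/-- every lattice point of the cone can be moved into the cone over one of the two triangles,
where the corresponding normalised functional is the smallest of the whole orbit -/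
lemma Hyp.reduce (H : Hyp S) {x : Fin 3 → ℤ} (hx : x ∈ S) : ∃ M N, Good S M N ∧
    ((Cone1 (M *ᵥ x) ∧ 3 * (f1 ⬝ᵥ M *ᵥ x) ≤ 3 * (f1 ⬝ᵥ x) ∧ 3 * (f1 ⬝ᵥ M *ᵥ x) ≤ 2 * (f2 ⬝ᵥ x)) ∨
     (Cone2 (M *ᵥ x) ∧ 2 * (f2 ⬝ᵥ M *ᵥ x) ≤ 3 * (f1 ⬝ᵥ x) ∧ 2 * (f2 ⬝ᵥ M *ᵥ x) ≤ 2 * (f2 ⬝ᵥ x))) := by
  classical
  have ex : ∃ n : ℕ, ∃ M N, Good S M N ∧
      (3 * (f1 ⬝ᵥ M *ᵥ x) = n ∨ 2 * (f2 ⬝ᵥ M *ᵥ x) = n) :=
    ⟨(3 * (f1 ⬝ᵥ x)).toNat, 1, 1, Good.one S, Or.inl (by
      have := H.p1 x hx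
      rw [one_mulVec]; omega)⟩
  obtain ⟨M, N, hG, hn⟩ := Nat.find_spec ex
  have mn : ∀ M' N', Good S M' N' → ((Nat.find ex : ℕ) : ℤ) ≤ 3 * (f1 ⬝ᵥ M' *ᵥ x) ∧
      ((Nat.find ex : ℕ) : ℤ) ≤ 2 * (f2 ⬝ᵥ M' *ᵥ x) := by
    intro M' N' hG'
    have q1 := H.p1 _ (hG'.hm x hx)
    have q2 := H.p2 _ (hG'.hm x hx)
    have a1 := Nat.find_min' ex (m := (3 * (f1 ⬝ᵥ M' *ᵥ x)).toNat) ⟨M', N', hG', Or.inl (by omega)⟩
    have a2 := Nat.find_min' ex (m := (2 * (f2 ⬝ᵥ M' *ᵥ x)).toNat) ⟨M', N', hG', Or.inr (by omega)⟩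
    omega
  have m0 := mn 1 1 (Good.one S)
  have m1 := mn M N hG
  have mA := mn _ _ (H.gY.mul hG)
  have mB := mn _ _ (H.gY.symm.mul hG)
  have mC := mn _ _ (H.gZ.mul hG)
  have mD := mn _ _ (H.gZ.symm.mul hG)
  rw [one_mulVec] at m0
  rw [← mulVec_mulVec] at mA mB mC mD
  refine ⟨M, N, hG, ?_⟩
  generalize M *ᵥ x = y at *
  have eA : f1 ⬝ᵥ mY *ᵥ y = 2 * y 0 + 59 * y 1 + 41 * y 2 := by
    simp only [dotProduct, f1, mulVec, mY, Int.reduceNeg, of_apply, cons_val', cons_val_fin_one, Fin.sum_univ_three, Fin.isValue, cons_val_zero, cons_val_one, cons_val, neg_mul, one_mul]; ring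
  have eB : f2 ⬝ᵥ mYi *ᵥ y = 22 * y 0 + 3 * y 1 + 14 * y 2 := by
    simp only [dotProduct, f2, mulVec, mYi, Int.reduceNeg, of_apply, cons_val', cons_val_fin_one, Fin.sum_univ_three, Fin.isValue, cons_val_zero, cons_val_one, cons_val, neg_mul]; ring
  have eC : f2 ⬝ᵥ mZ *ᵥ y = 3 * y 0 + 22 * y 1 + 14 * y 2 := by
    simp only [dotProduct, f2, mulVec, mZ, Int.reduceNeg, of_apply, cons_val', cons_val_fin_one, Fin.sum_univ_three, Fin.isValue, cons_val_zero, cons_val_one, cons_val, neg_mul, one_mul]; ring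
  have eD : f1 ⬝ᵥ mZi *ᵥ y = 59 * y 0 + 2 * y 1 + 250 * y 2 := by
    simp only [dotProduct, f1, mulVec, mZi, Int.reduceNeg, of_apply, cons_val', cons_val_fin_one, Fin.sum_univ_three, Fin.isValue, cons_val_zero, cons_val_one, cons_val, neg_mul, one_mul]; ring
  have e1 := d1 y
  have e2 := d2 y
  unfold Cone1 Cone2
  rcases hn with hn | hn
  · left; omega
  · right; omega

lemma Hyp.supp (H : Hyp S) {x : Fin 3 → ℤ} (hx : x ∈ S) : 2 ≤ f1 ⬝ᵥ x ∧ 3 ≤ f2 ⬝ᵥ x := by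
  obtain ⟨M, N, hG, h⟩ := H.reduce hx
  have q1 := H.p1 _ (hG.hm x hx)
  have q2 := H.p2 _ (hG.hm x hx)
  generalize M *ᵥ x = y at *
  have e1 := d1 y
  have e2 := d2 y
  unfold Cone1 Cone2 at h
  rcases h with h | h
  · have : 2 ≤ f1 ⬝ᵥ y := by omega
    omega
  · have : 3 ≤ f2 ⬝ᵥ y := by
      by_contra hlt
      have h6 : -6 ≤ y 2 := by omega
      have h0 : y 2 ≤ 0 := h.1.2.2
      generalize y 2 = z at *
      interval_cases z <;> omega
    omega

lemma Hyp.sum (H : Hyp S) (V : Finset (Fin 3 → ℤ)) (hne : V.Nonempty) (hV : ∀ v ∈ V, v ∈ S) :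
    ∑ v ∈ V, v ∈ S := by
  classical
  induction hne using Finset.Nonempty.cons_induction with
  | singleton a => simpa using hV a (by simp)
  | cons a s ha _ ih =>
    rw [Finset.sum_cons]
    exact H.add _ (hV a (by simp)) _ (ih fun v hv => hV v (by simp [hv]))

/-- a finite set of lattice points on a supporting plane can be moved into the plane of one of the
two triangles -/
lemma Hyp.face (H : Hyp S) (f : Fin 3 → ℤ) (c : ℤ) (hc : 0 < c) (hf : ∀ x ∈ S, c ≤ f ⬝ᵥ x)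
    (V : Finset (Fin 3 → ℤ)) (hne : V.Nonempty) (hV : ∀ v ∈ V, v ∈ S ∧ f ⬝ᵥ v = c) :
    ∃ M N, Good S M N ∧ ((∀ v ∈ V, f1 ⬝ᵥ M *ᵥ v = 2) ∨ ∀ v ∈ V, f2 ⬝ᵥ M *ᵥ v = 3) := by
  have hx := H.sum V hne fun v hv => (hV v hv).1
  obtain ⟨M, N, hG, h⟩ := H.reduce hx
  refine ⟨M, N, hG, ?_⟩
  have fx : f ⬝ᵥ ∑ v ∈ V, v = c * V.card := by
    rw [dotProduct_sum, Finset.sum_congr rfl fun v hv => (hV v hv).2]
    simp [mul_comm]
  have back : ∑ v ∈ V, v = N *ᵥ (M *ᵥ ∑ v ∈ V, v) := by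
    rw [mulVec_mulVec, hG.nm, one_mulVec]
  have key : ∀ (g : Fin 3 → ℤ) (n : ℤ), (∀ x ∈ S, n ≤ g ⬝ᵥ x) →
      g ⬝ᵥ M *ᵥ ∑ v ∈ V, v ≤ n * V.card → ∀ v ∈ V, g ⬝ᵥ M *ᵥ v = n := by
    intro g n hg hle
    rw [mulVec_sum, dotProduct_sum] at hle
    have h1 : ∀ v ∈ V, n ≤ g ⬝ᵥ M *ᵥ v := fun v hv => hg _ (hG.hm _ (hV v hv).1)
    have h2 : ∑ _v ∈ V, n = ∑ v ∈ V, g ⬝ᵥ M *ᵥ v := by
      refine le_antisymm (Finset.sum_le_sum h1) ?_
      simpa only [Finset.sum_const, Int.nsmul_eq_mul, mul_comm] using hle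
    exact fun v hv => ((Finset.sum_eq_sum_iff_of_le h1).mp h2 v hv).symm
  have ka := hf _ (hG.hn _ H.ha)
  have kb := hf _ (hG.hn _ H.hb)
  have kc := hf _ (hG.hn _ H.hc)
  have kd := hf _ (hG.hn _ H.hd)
  rw [back] at fx
  rw [dotProduct_mulVec] at ka kb kc kd fx
  generalize f ᵥ* N = φ at ka kb kc kd fx
  have e1 := d1 (M *ᵥ ∑ v ∈ V, v)
  have e2 := d2 (M *ᵥ ∑ v ∈ V, v)
  have ey : φ ⬝ᵥ M *ᵥ ∑ v ∈ V, v = φ 0 * (M *ᵥ ∑ v ∈ V, v) 0 + φ 1 * (M *ᵥ ∑ v ∈ V, v) 1 +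
      φ 2 * (M *ᵥ ∑ v ∈ V, v) 2 := by
    simp only [dotProduct, Fin.sum_univ_three]
  simp only [pa, pb, pc, pd, dotProduct, Fin.sum_univ_three, cons_val_zero, cons_val_one,
    cons_val_two, Fin.isValue, head_cons, tail_cons] at ka kb kc kd
  rcases h with ⟨⟨c1, c2, c3⟩, -⟩ | ⟨⟨c1, c2, c3⟩, -⟩
  · left
    refine key f1 2 (fun x hx => (H.supp hx).1) (le_of_mul_le_mul_left ?_ hc)
    rw [e1]
    rw [ey] at fx
    generalize M *ᵥ ∑ v ∈ V, v = y at *
    linarith only [mul_nonneg c1 (sub_nonneg.2 ka), mul_nonneg c2 (sub_nonneg.2 kb), mul_nonneg c3 (sub_nonneg.2 kc), fx]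
  · right
    refine key f2 3 (fun x hx => (H.supp hx).2) (le_of_mul_le_mul_left ?_ hc)
    rw [e2]
    rw [ey] at fx
    generalize M *ᵥ ∑ v ∈ V, v = y at *
    linarith only [mul_nonneg c1 (sub_nonneg.2 ka), mul_nonneg c2 (sub_nonneg.2 kb), mul_nonneg (neg_nonneg.2 c3) (sub_nonneg.2 kd), fx]

end Pool.Agent.MP_024ca5_nt.NoUnit

end

-- part MP_024ca5_nt.H20.Geom
section

/-! A periodic sail whose torus consists of two triangles at integer distances 2 and 3: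
eigenvectors, the cone and the faces. -/

set_option autoImplicit false
open Matrix Polynomial Pool.Agent.MP_024ca5_nt.Sail

namespace Pool.Agent.MP_024ca5_nt.NoUnit

lemma exists_roots : ∃ s t u : ℝ, (0 < s ∧ s < 1 / 100) ∧ (7446 / 1000 < t ∧ t < 7447 / 1000) ∧
    s + t + u = 41 ∧ s * t + s * u + t * u = 250 ∧ s * t * u = 1 := by
  have hc : Continuous fun x : ℝ => x ^ 3 - 41 * x ^ 2 + 250 * x - 1 := by fun_prop
  obtain ⟨s, hs, es⟩ := intermediate_value_Ioo (show (0 : ℝ) ≤ 1 / 100 by norm_num)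
    hc.continuousOn (show (0 : ℝ) ∈ Set.Ioo _ _ by constructor <;> norm_num)
  obtain ⟨t, ht, et⟩ := intermediate_value_Ioo' (show (7446 / 1000 : ℝ) ≤ 7447 / 1000 by norm_num)
    hc.continuousOn (show (0 : ℝ) ∈ Set.Ioo _ _ by constructor <;> norm_num)
  simp only at es et
  have hne : s - t ≠ 0 := ne_of_lt (by linarith [hs.2, ht.1])
  have e2 : s ^ 2 + s * t + t ^ 2 - 41 * (s + t) + 250 = 0 := by
    apply mul_left_cancel₀ hne
    linear_combination es - et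
  refine ⟨s, t, 41 - s - t, hs, ht, by ring, by linear_combination -e2, ?_⟩
  linear_combination es - s * e2

lemma charpoly_Y : mY.charpoly = X ^ 3 - 41 * X ^ 2 + 250 * X - 1 := by
  simp only [charpoly, mY, Int.reduceNeg, det_fin_three, Fin.isValue, charmatrix_apply_eq, of_apply, cons_val', cons_val_zero, cons_val_fin_one, eq_intCast, Int.cast_neg, Int.cast_one, sub_neg_eq_add, cons_val_one, Int.cast_ofNat, cons_val, ne_eq, Fin.reduceEq, not_false_eq_true, charmatrix_apply_ne, mul_neg, mul_one, neg_neg, zero_ne_one, one_ne_zero, neg_mul]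
  ring

lemma irr_Y : Irreducible (mY.charpoly.map (Int.castRingHom ℚ)) := by
  have hm : mY.charpoly.Monic := mY.charpoly_monic
  have hd : mY.charpoly.natDegree = 3 := by simp
  have hd' : (mY.charpoly.map (Int.castRingHom ℚ)).natDegree = 3 := by
    rw [hm.natDegree_map, hd]
  rw [Polynomial.irreducible_iff_roots_eq_zero_of_degree_le_three (by omega) (by omega)]
  refine Multiset.eq_zero_of_forall_notMem fun r hr => ?_
  have h0 : aeval r mY.charpoly = 0 := by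
    have := (mem_roots (hm.map _).ne_zero).mp hr
    rwa [IsRoot.def, eval_map] at this
  obtain ⟨n, rfl⟩ := isInteger_of_is_root_of_monic hm h0
  rw [charpoly_Y] at h0
  have h1 : n ^ 3 - 41 * n ^ 2 + 250 * n - 1 = 0 := by
    have : ((n ^ 3 - 41 * n ^ 2 + 250 * n - 1 : ℤ) : ℚ) = 0 := by
      simpa only [Int.cast_sub, Int.cast_add, Int.cast_pow, Int.cast_mul, Int.cast_ofNat, Int.cast_one, algebraMap_int_eq, eq_intCast, aeval_sub, map_add, map_pow, aeval_X, map_mul, map_ofNat, map_one] using h0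
    exact_mod_cast this
  have h2 : n * (n ^ 2 - 41 * n + 250) = 1 := by linear_combination h1
  rcases Int.eq_one_or_neg_one_of_mul_eq_one h2 with rfl | rfl <;> norm_num at h1

/-- the projection of the first basis vector to an eigenline -/
noncomputable def ev (s t u : ℝ) : Fin 3 → ℝ :=
  ((s - t) * (s - u))⁻¹ • ![-8 + (t + u) + t * u, -4 + (t + u), 15 - 2 * (t + u)]

lemma ev_eig {s t u : ℝ} (e1 : s + t + u = 41) (e2 : s * t + s * u + t * u = 250)
    (e3 : s * t * u = 1) : (mY.map (Int.cast : ℤ → ℝ)) *ᵥ ev s t u = s • ev s t u := by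
  unfold ev
  rw [mulVec_smul, smul_comm]
  congr 1
  ext j
  fin_cases j <;> simp only [mulVec, dotProduct, mY, Int.reduceNeg, Fin.zero_eta, Fin.isValue, map_apply, of_apply, cons_val', cons_val_fin_one, cons_val_zero, Nat.succ_eq_add_one, Nat.reduceAdd, Fin.sum_univ_three, Int.cast_neg, Int.cast_one, neg_mul, one_mul, neg_add_rev, neg_neg, cons_val_one, Int.cast_ofNat, cons_val, Pi.smul_apply, smul_eq_mul, Fin.mk_one, Fin.reduceFinMk]
  · linear_combination 8 * e1 - e2 - e3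
  · linear_combination 4 * e1 - e2
  · linear_combination (-15) * e1 + 2 * e2

lemma ev_sum {s t u : ℝ} (h1 : s ≠ t) (h2 : s ≠ u) (h3 : t ≠ u) :
    ev s t u + ev t s u + ev u s t = rc pa := by
  have a1 := sub_ne_zero.2 h1
  have a2 := sub_ne_zero.2 h2
  have a3 := sub_ne_zero.2 h3
  have b1 := sub_ne_zero.2 h1.symm
  have b2 := sub_ne_zero.2 h2.symm
  have b3 := sub_ne_zero.2 h3.symm
  ext j
  fin_cases j <;> simp [ev, rc, pa] <;> field_simp <;> ring

lemma ev_dot (f : Fin 3 → ℤ) (s t u : ℝ) : rc f ⬝ᵥ ev s t u = ((s - t) * (s - u))⁻¹ *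
    (f 0 * (-8 + (t + u) + t * u) + f 1 * (-4 + (t + u)) + f 2 * (15 - 2 * (t + u))) := by
  simp [ev, rc, dotProduct, Fin.sum_univ_three]; ring

lemma good_of (cx : Ctx) (M N : Matrix (Fin 3) (Fin 3) ℤ) (h1 : M * N = 1) (h2 : N * M = 1)
    (r : Fin 3 → ℝ) (hr : ∀ i, 0 < r i)
    (h : ∀ i, (M.map (Int.cast : ℤ → ℝ)) *ᵥ cx.b i = r i • cx.b i) : Good cx.S M N := by
  refine ⟨h1, h2, fun x hx i => ?_, fun x hx i => ?_⟩
  · rw [cx.l_diag M r h]; exact mul_pos (hr i) (hx i)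
  · have := cx.l_diag M r h i (N *ᵥ x)
    rw [mulVec_mulVec, h1, one_mulVec] at this
    have h3 := hx i
    rw [this] at h3
    exact (mul_pos_iff_of_pos_left (hr i)).mp h3

theorem exists_ctx : ∃ cx : Ctx, cx.A = mY ∧ (∀ i, cx.l i pa = 1) ∧ Hyp cx.S ∧
    (mY.charpoly.map (Int.castRingHom ℝ)).roots.toFinset.card = 3 := by
  obtain ⟨s, t, u, ⟨s0, s1⟩, ⟨t0, t1⟩, e1, e2, e3⟩ := exists_roots
  have u0 : 67 / 2 < u := by linarith
  have u1 : u < 34 := by linarith only [s0, t0, e1]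
  have hst : s < t := by linarith only [s1, t0]
  have hsu : s < u := by linarith only [s1, t1, e1]
  have htu : t < u := by linarith only [s1, t1, e1]
  let μ : Fin 3 → ℝ := ![s, t, u]
  let w : Fin 3 → Fin 3 → ℝ := ![ev s t u, ev t s u, ev u s t]
  have hμ : Function.Injective μ := by
    intro i j h
    fin_cases i <;> fin_cases j <;> simp [μ] at h ⊢ <;> linarith only [s1, t0, h, t1, e1]
  have he : ∀ i, (mY.map (Int.cast : ℤ → ℝ)) *ᵥ w i = μ i • w i := by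
    intro i
    fin_cases i
    · exact ev_eig e1 e2 e3
    · exact ev_eig (s := t) (t := s) (u := u) (by linarith only [e1]) (by linarith only [e2]) (by linarith only [e3])
    · exact ev_eig (s := u) (t := s) (u := t) (by linarith only [e1]) (by linarith only [e2]) (by linarith only [e3])
  have D0 : 0 < ((s - t) * (s - u))⁻¹ := inv_pos.2 (mul_pos_of_neg_of_neg (by linarith only [s1, t0]) (by linarith only [s1, t1, e1]))
  have D1 : ((t - s) * (t - u))⁻¹ < 0 := inv_lt_zero.2 (mul_neg_of_pos_of_neg (by linarith only [s1, t0]) (by linarith only [s1, t1, e1]))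
  have D2 : 0 < ((u - s) * (u - t))⁻¹ := inv_pos.2 (mul_pos (by linarith only [s1, t1, e1]) (by linarith only [s1, t1, e1]))
  have tu : 245 < t * u := by nlinarith only [s1, e1, e2]
  have su : s * u < 1 := by nlinarith only [s0, s1, t0, e1]
  have st : 0 < s * t := by positivity
  have P1 : ∀ i, 0 < rc f1 ⬝ᵥ w i := by
    intro i
    fin_cases i
    · exact (ev_dot f1 s t u).symm ▸ mul_pos D0 (by simp only [f1, Fin.isValue, cons_val_zero, Int.cast_ofNat, cons_val_one, cons_val]; linarith only [s0, s1, e1, tu])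
    · exact (ev_dot f1 t s u).symm ▸ mul_pos_of_neg_of_neg D1 (by simp only [f1, Fin.isValue, cons_val_zero, Int.cast_ofNat, cons_val_one, cons_val]; linarith only [t1, e1, su])
    · exact (ev_dot f1 u s t).symm ▸ mul_pos D2 (by simp only [f1, Fin.isValue, cons_val_zero, Int.cast_ofNat, cons_val_one, cons_val]; linarith only [s1, t1, st])
  have P2 : ∀ i, 0 < rc f2 ⬝ᵥ w i := by
    intro i
    fin_cases i
    · exact (ev_dot f2 s t u).symm ▸ mul_pos D0 (by simp only [f2, Fin.isValue, cons_val_zero, Int.cast_ofNat, cons_val_one, cons_val]; linarith only [s0, s1, e1, tu])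
    · exact (ev_dot f2 t s u).symm ▸ mul_pos_of_neg_of_neg D1 (by simp only [f2, Fin.isValue, cons_val_zero, Int.cast_ofNat, cons_val_one, cons_val]; linarith only [t1, e1, su])
    · exact (ev_dot f2 u s t).symm ▸ mul_pos D2 (by simp only [f2, Fin.isValue, cons_val_zero, Int.cast_ofNat, cons_val_one, cons_val]; linarith only [s1, t1, st])
  have hw : ∀ i, w i ≠ 0 := fun i h => by simpa [h] using P1 i
  have li : LinearIndependent ℝ w :=
    Module.End.eigenvectors_linearIndependent' (Matrix.toLin' (mY.map (Int.cast : ℤ → ℝ))) μ hμ w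
      fun i => ⟨Module.End.mem_eigenspace_iff.mpr (by rw [Matrix.toLin'_apply, he]), hw i⟩
  obtain ⟨b, hb⟩ : ∃ b : Module.Basis (Fin 3) ℝ (Fin 3 → ℝ), ∀ i, b i = w i :=
    ⟨basisOfLinearIndependentOfCardEqFinrank li (by simp), fun i => by simp⟩
  have heb : ∀ i, (mY.map (Int.cast : ℤ → ℝ)) *ᵥ b i = μ i • b i := fun i => by rw [hb, he]
  let cx : Ctx := ⟨mY, μ, b, hμ, heb, irr_of_irreducible mY irr_Y⟩
  have ha : ∀ i, cx.l i pa = 1 := by
    intro i
    have : rc pa = ∑ j, (1 : ℝ) • b j := by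
      simp only [one_smul, hb, Fin.sum_univ_three]
      exact (ev_sum hst.ne hsu.ne htu.ne).symm
    show b.repr (rc pa) i = 1
    rw [this, b.repr_sum_self]
  have pos : ∀ f : Fin 3 → ℤ, (∀ i, 0 < rc f ⬝ᵥ w i) → ∀ x ∈ cx.S, 0 < f ⬝ᵥ x := by
    intro f hf x hx
    have h := cx.dot_eq (rc f) x
    rw [rc_dot] at h
    have g : ∀ i, 0 < cx.l i x * (rc f ⬝ᵥ cx.b i) := fun i =>
      mul_pos (hx i) (by show 0 < rc f ⬝ᵥ b i; rw [hb]; exact hf i)
    have : (0 : ℝ) < ((f ⬝ᵥ x : ℤ) : ℝ) := by rw [h]; linarith only [g 0, g 1, g 2]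
    exact_mod_cast this
  have hZ : mZ.map (Int.cast : ℤ → ℝ) = (7 : ℝ)⁻¹ • (mY.map (Int.cast : ℤ → ℝ) *
      mY.map (Int.cast : ℤ → ℝ) - (39 : ℝ) • mY.map (Int.cast : ℤ → ℝ) + (235 : ℝ) • 1) := by
    ext i j
    fin_cases i <;> fin_cases j <;> simp only [mZ, Int.reduceNeg, Fin.zero_eta, Fin.isValue, map_apply, of_apply, cons_val', cons_val_zero, cons_val_fin_one, Int.cast_ofNat, mY, Matrix.smul_apply, Matrix.add_apply, Matrix.sub_apply, Matrix.mul_apply, Fin.sum_univ_three, Int.cast_neg, Int.cast_one, mul_neg, mul_one, neg_neg, cons_val_one, cons_val, neg_mul, smul_eq_mul, sub_neg_eq_add, one_apply_eq, Fin.mk_one, one_mul, Nat.reduceAdd, ne_eq, zero_ne_one, not_false_eq_true, one_apply_ne, mul_zero, add_zero, Fin.reduceFinMk, Fin.reduceEq, one_ne_zero] <;> norm_num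
  refine ⟨cx, rfl, ha, ⟨good_of cx _ _ YYi YiY μ (fun i => ?_) heb,
    good_of cx _ _ ZZi ZiZ (fun i => 7⁻¹ * (μ i ^ 2 - 39 * μ i + 235)) (fun i => ?_) fun i => ?_,
    fun i => by rw [ha]; exact one_pos, fun x hx y hy i => ?_, pos f1 P1, pos f2 P2⟩, ?_⟩
  · fin_cases i <;> simp [μ] <;> linarith only [s0, t0, s1, t1, e1]
  · refine mul_pos (by norm_num) ?_
    fin_cases i <;> simp [μ] <;> nlinarith only [s1, t1, e1, su]
  · show _ *ᵥ b i = _ • b i
    rw [hZ, smul_mulVec, add_mulVec, sub_mulVec, ← mulVec_mulVec, heb, mulVec_smul, heb,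
      smul_mulVec, heb, smul_mulVec, one_mulVec]
    module
  · rw [cx.l_add]; exact add_pos (hx i) (hy i)
  · have : mY.charpoly.map (Int.castRingHom ℝ) = (X - C s) * (X - C t) * (X - C u) := by
      rw [charpoly_Y]
      have c1 : C s + C t + C u = (41 : ℝ[X]) := by rw [← map_add, ← map_add, e1]; rfl
      have c2 : C s * C t + C s * C u + C t * C u = (250 : ℝ[X]) := by
        rw [← map_mul, ← map_mul, ← map_mul, ← map_add, ← map_add, e2]; rfl
      have c3 : C s * C t * C u = (1 : ℝ[X]) := by rw [← map_mul, ← map_mul, e3]; rfl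
      simp only [Polynomial.map_sub, Polynomial.map_add, Polynomial.map_mul, Polynomial.map_pow,
        map_X, Polynomial.map_one, Polynomial.map_ofNat]
      linear_combination X ^ 2 * c1 - X * c2 + c3
    rw [this, roots_mul (mul_ne_zero (mul_ne_zero (X_sub_C_ne_zero _) (X_sub_C_ne_zero _))
      (X_sub_C_ne_zero _)), roots_mul (mul_ne_zero (X_sub_C_ne_zero _) (X_sub_C_ne_zero _))]
    simp only [roots_X_sub_C, Multiset.toFinset_add, Multiset.toFinset_singleton]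
    rw [Finset.card_eq_three]
    exact ⟨s, t, u, hst.ne, hsu.ne, htu.ne, by ext; simp⟩

lemma latt_eq (cx : Ctx) : {y | y ∈ closure {y : Fin 3 → ℝ | ∀ i, 0 < cx.b.repr y i} ∧
    ∃ z : Fin 3 → ℤ, z ≠ 0 ∧ y = fun i => (z i : ℝ)} = rc '' cx.S := by
  rw [closure_eq]
  ext y
  constructor
  · rintro ⟨hy, z, hz, rfl⟩
    exact ⟨z, fun i => (hy i).lt_of_ne (cx.l_ne hz i).symm, rfl⟩
  · rintro ⟨z, hz, rfl⟩
    exact ⟨fun i => (hz i).le, z, cx.S_ne hz, rfl⟩

/-- a supporting plane through three independent lattice points cuts out a face (the argument of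
`sail_face`, for a given plane) -/
lemma face_of_supp (cx : Ctx) (f : Fin 3 → ℤ) (hf : Finset.univ.gcd f = 1) (c : ℤ) (hc : 0 < c)
    (hsupp : ∀ x ∈ cx.S, c ≤ f ⬝ᵥ x) (p q r : Fin 3 → ℤ) (hp : p ∈ cx.S)
    (fp : f ⬝ᵥ p = c) (hq : q ∈ cx.S) (fq : f ⬝ᵥ q = c) (hr : r ∈ cx.S) (fr : f ⬝ᵥ r = c)
    (hli : LinearIndependent ℤ ![q - p, r - p]) :
    ∃ F, IsSailFace {y : Fin 3 → ℝ | ∀ i, 0 < cx.b.repr y i} F c := by
  have hcR : (0 : ℝ) < c := by exact_mod_cast hc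
  have hT := latt_eq cx
  let l : (Fin 3 → ℝ) →L[ℝ] ℝ := LinearMap.toContinuousLinearMap
    { toFun := fun y => rc f ⬝ᵥ y
      map_add' := fun y z => dotProduct_add _ _ _
      map_smul' := fun a y => dotProduct_smul _ _ _ }
  have hl : ∀ y, l y = rc f ⬝ᵥ y := fun y => rfl
  have hlz : ∀ z, l (rc z) = ((f ⬝ᵥ z : ℤ) : ℝ) := fun z => by rw [hl, rc_dot]
  have hTl : ∀ y ∈ rc '' cx.S, (c : ℝ) ≤ l y := by
    rintro _ ⟨z, hz, rfl⟩
    rw [hlz]
    exact_mod_cast hsupp z hz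
  obtain ⟨g1, g2⟩ := face_eq (rc '' cx.S) l c hTl
  have hfin : {x ∈ cx.S | f ⬝ᵥ x = c}.Finite := by
    have hlam : ∀ x, ((c : ℝ)⁻¹ • rc f) ⬝ᵥ rc x = ((f ⬝ᵥ x : ℤ) : ℝ) / c := fun x => by
      rw [smul_dotProduct, rc_dot, smul_eq_mul]; ring
    refine (cx.fin_cap ((c : ℝ)⁻¹ • rc f) (cx.interior _ fun x hx => ?_)).subset ?_
    · rw [hlam, le_div_iff₀ hcR, one_mul]
      exact_mod_cast hsupp x hx
    · rintro x ⟨hx, hx'⟩
      refine ⟨hx, ?_⟩
      rw [hlam, hx', div_self hcR.ne']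
  have hpts : {y ∈ rc '' cx.S | l y = c} = rc '' (hfin.toFinset : Set (Fin 3 → ℤ)) := by
    ext y
    simp only [Set.Finite.coe_toFinset]
    constructor
    · rintro ⟨⟨z, hz, rfl⟩, h⟩
      rw [hlz] at h
      exact ⟨z, ⟨hz, by exact_mod_cast h⟩, rfl⟩
    · rintro ⟨z, ⟨hz, h⟩, rfl⟩
      exact ⟨⟨z, hz, rfl⟩, by rw [hlz, h]⟩
  have memF : ∀ z ∈ cx.S, f ⬝ᵥ z = c → rc z ∈ {y ∈ convexHull ℝ (rc '' cx.S) | l y = c} :=
    fun z hz h => ⟨subset_convexHull ℝ _ ⟨z, hz, rfl⟩, by rw [hlz, h]⟩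
  refine ⟨{y ∈ convexHull ℝ (rc '' cx.S) | l y = c}, ?_⟩
  unfold IsSailFace kleinHull
  rw [hT]
  refine ⟨fun _ => ⟨-l, ?_⟩, fun y hy => mem_frontier_of _ l c hcR g1 y hy.1 hy.2,
    ⟨hfin.toFinset, ?_⟩, f, ?_, hc, ?_⟩
  · ext y
    constructor
    · rintro ⟨hy, h⟩
      refine ⟨hy, fun z hz => ?_⟩
      have := g1 z hz
      simp only [_root_.neg_apply]
      linarith only [h, this]
    · rintro ⟨hy, h⟩
      refine ⟨hy, le_antisymm ?_ (g1 y hy)⟩
      have h1 := h _ (memF p hp fp).1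
      have h2 := (memF p hp fp).2
      simp only [_root_.neg_apply] at h1
      linarith only [h2, h1]
  · rw [g2, hpts]; rfl
  · exact hf
  · have hdot : ∀ y : Fin 3 → ℝ, ∑ i, (f i : ℝ) * y i = l y := fun y => rfl
    apply Set.Subset.antisymm
    · intro y hy
      show ∑ i, (f i : ℝ) * y i = c
      rw [hdot]
      refine affineSpan_induction (p := fun y => l y = c) hy (fun z hz => hz.2) ?_
      intro a u w z hu hw hz
      simp [hu, hw, hz]
    · intro y hy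
      have hy' : rc f ⬝ᵥ y = c := hy
      obtain ⟨s, t, rfl⟩ := plane_span f p q r c hc fp fq fr hli y hy'
      have mp := subset_affineSpan ℝ _ (memF p hp fp)
      have mq := subset_affineSpan ℝ _ (memF q hq fq)
      have mr := subset_affineSpan ℝ _ (memF r hr fr)
      have m1 := AffineSubspace.smul_vsub_vadd_mem _ s mq mp mp
      have m2 := AffineSubspace.smul_vsub_vadd_mem _ t mr mp m1
      have e : rc p + s • (rc q - rc p) + t • (rc r - rc p) =
          t • (rc r -ᵥ rc p) +ᵥ s • (rc q -ᵥ rc p) +ᵥ rc p := by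
        simp only [vsub_eq_sub, vadd_eq_add]
        abel
      rw [e]
      exact m2

/-- the data of a face, in lattice terms -/
lemma supp_of_face (cx : Ctx) (F : Set (Fin 3 → ℝ)) (c : ℤ)
    (h : IsSailFace {y : Fin 3 → ℝ | ∀ i, 0 < cx.b.repr y i} F c) :
    ∃ (f : Fin 3 → ℤ) (V : Finset (Fin 3 → ℤ)), Finset.univ.gcd f = 1 ∧ 0 < c ∧
      (∀ x ∈ cx.S, c ≤ f ⬝ᵥ x) ∧ V.Nonempty ∧ (∀ v ∈ V, v ∈ cx.S ∧ f ⬝ᵥ v = c) ∧
      ∀ (g : Fin 3 → ℤ) (n : ℤ), (∀ v ∈ V, g ⬝ᵥ v = n) → c • g = n • f := by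
  obtain ⟨hE, -, ⟨V, hV⟩, f, hf, hc, hA⟩ := h
  unfold kleinHull at hE
  rw [latt_eq] at hE
  have hcR : (0 : ℝ) < c := by exact_mod_cast hc
  have hV' : F = convexHull ℝ (rc '' (V : Set (Fin 3 → ℤ))) := hV
  have hA' : ∀ y, y ∈ affineSpan ℝ F ↔ rc f ⬝ᵥ y = c := fun y => Set.ext_iff.mp hA y
  have memV : ∀ v ∈ V, rc v ∈ F := fun v hv => hV' ▸ subset_convexHull ℝ _ ⟨v, hv, rfl⟩
  have hne : V.Nonempty := by
    rcases V.eq_empty_or_nonempty with rfl | h
    · exfalso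
      obtain ⟨φ, hφ⟩ := Finset.gcd_eq_sum_mul (Finset.univ : Finset (Fin 3)) f
      have h1 : f ⬝ᵥ φ = 1 := by rw [← hf, hφ]; rfl
      have := (hA' (rc (c • φ))).mpr (by rw [rc_dot, dotProduct_smul, h1]; simp)
      simp only [hV', Finset.coe_empty, Set.image_empty, convexHull_empty, AffineSubspace.span_empty, zsmul_eq_mul] at this
      exact AffineSubspace.notMem_bot _ _ _ this
    · exact h
  obtain ⟨p, hp⟩ := hne
  have fV : ∀ v ∈ V, f ⬝ᵥ v = c := fun v hv => by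
    have := (hA' _).mp (subset_affineSpan ℝ _ (memV v hv))
    rw [rc_dot] at this
    exact_mod_cast this
  -- a linear functional constant on the face is proportional to `f`
  have prop : ∀ (l : (Fin 3 → ℝ) →ₗ[ℝ] ℝ) (n : ℝ), (∀ y ∈ F, l y = n) →
      ∀ y, c * l y = n * (rc f ⬝ᵥ y) := by
    intro l n hl y
    have h1 : ∀ z ∈ affineSpan ℝ F, l z = n := fun z hz =>
      affineSpan_induction (p := fun y => l y = n) hz hl (by
        intro a u w z hu hw hz
        simp [hu, hw, hz])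
    have fp : rc f ⬝ᵥ rc p = c := by rw [rc_dot, fV p hp]
    have h2 := h1 (y + (1 - (rc f ⬝ᵥ y) / c) • rc p) ((hA' _).mpr (by
      rw [dotProduct_add, dotProduct_smul, fp, smul_eq_mul]; field_simp; ring))
    rw [map_add, map_smul, hl _ (memV p hp), smul_eq_mul] at h2
    have h3 : l y = n * (rc f ⬝ᵥ y) / c := by linear_combination h2
    rw [h3]; field_simp
  obtain ⟨l, hl⟩ := hE ⟨_, memV p hp⟩
  have hF : ∀ y ∈ F, y ∈ convexHull ℝ (rc '' cx.S) ∧ ∀ z ∈ convexHull ℝ (rc '' cx.S), l z ≤ l y :=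
    fun y hy => by rw [hl] at hy; exact hy
  have hS : ∀ v ∈ V, v ∈ cx.S := by
    intro v hv i
    have hv0 : v ≠ 0 := by
      rintro rfl
      have := fV _ hv
      simp at this
      omega
    refine lt_of_le_of_ne ?_ (cx.l_ne hv0 i).symm
    have : convexHull ℝ (rc '' cx.S) ⊆ {y | 0 ≤ cx.b.coord i y} :=
      convexHull_min (by rintro _ ⟨z, hz, rfl⟩; exact (hz i).le)
        (convex_halfSpace_ge (cx.b.coord i).isLinear 0)
    exact this (hF _ (memV v hv)).1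
  have hin : ∀ x ∈ cx.S, rc x ∈ convexHull ℝ (rc '' cx.S) := fun x hx =>
    subset_convexHull ℝ _ ⟨x, hx, rfl⟩
  have lc := prop l (l (rc p)) fun y hy =>
    le_antisymm ((hF _ (memV p hp)).2 y (hF y hy).1) ((hF y hy).2 _ (hF _ (memV p hp)).1)
  have hpp : p + p ∈ cx.S := fun i => by rw [cx.l_add]; exact add_pos (hS p hp i) (hS p hp i)
  have neg : l (rc p) < 0 := by
    have h1 := (hF _ (memV p hp)).2 _ (hin _ hpp)
    rw [rc_add, map_add] at h1
    refine lt_of_le_of_ne (by linarith only [h1]) fun h0 => ?_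
    have z : ∀ y, l y = 0 := fun y => by
      have := lc y
      rw [h0, zero_mul] at this
      exact (mul_eq_zero.mp this).resolve_left hcR.ne'
    have : rc (p + p) ∈ F := by rw [hl]; exact ⟨hin _ hpp, fun y _ => by rw [z, z]⟩
    have h2 := (hA' _).mp (subset_affineSpan ℝ _ this)
    rw [rc_dot, dotProduct_add, fV p hp] at h2
    push_cast at h2
    linarith only [hcR, h2]
  refine ⟨f, V, hf, hc, fun x hx => ?_, ⟨p, hp⟩, fun v hv => ⟨hS v hv, fV v hv⟩, fun g n hg => ?_⟩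
  · have h1 := (hF _ (memV p hp)).2 _ (hin x hx)
    have h2 : c * l (rc x) = l (rc p) * (rc f ⬝ᵥ rc x) := lc (rc x)
    rw [rc_dot] at h2
    have : (c : ℝ) ≤ ((f ⬝ᵥ x : ℤ) : ℝ) := by nlinarith only [hcR, neg, h1, h2]
    exact_mod_cast this
  · let m : (Fin 3 → ℝ) →ₗ[ℝ] ℝ :=
      { toFun := fun y => rc g ⬝ᵥ y
        map_add' := fun y z => dotProduct_add _ _ _
        map_smul' := fun a y => dotProduct_smul _ _ _ }
    have h1 := prop m n (by
      rw [hV']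
      refine fun y hy => convexHull_min (t := {y | m y = n}) ?_ (convex_hyperplane m.isLinear _) hy
      rintro _ ⟨v, hv, rfl⟩
      show rc g ⬝ᵥ rc v = n
      rw [rc_dot, hg v hv])
    ext j
    have h2 : c * (rc g ⬝ᵥ Pi.single j 1) = n * (rc f ⬝ᵥ Pi.single j 1) := h1 (Pi.single j 1)
    simp only [dotProduct_single, mul_one, rc] at h2
    simp only [Pi.smul_apply, smul_eq_mul]
    exact_mod_cast h2

lemma dist_eq {S : Set (Fin 3 → ℤ)} {M N : Matrix (Fin 3) (Fin 3) ℤ} (hG : Good S M N)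
    {f g y : Fin 3 → ℤ} {c n : ℤ} (hf : Finset.univ.gcd f = 1) (hc : 0 < c) (hn : 0 < n)
    (hy : g ⬝ᵥ y = 1) (h : c • (g ᵥ* M) = n • f) : c = n := by
  obtain ⟨φ, hφ⟩ := Finset.gcd_eq_sum_mul (Finset.univ : Finset (Fin 3)) f
  have h1 : f ⬝ᵥ φ = 1 := by rw [← hf, hφ]; rfl
  have h2 := congrArg (· ⬝ᵥ φ) h
  have h3 := congrArg (· ⬝ᵥ N *ᵥ y) h
  simp only [smul_dotProduct, smul_eq_mul, h1, mul_one] at h2 h3
  rw [← dotProduct_mulVec, mulVec_mulVec, hG.mn, one_mulVec, hy, mul_one] at h3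
  exact Int.dvd_antisymm hc.le hn.le ⟨_, h2.symm⟩ ⟨_, h3⟩

theorem distances : ∃ x₀ : Fin 3 → ℝ, x₀ = ![1, 0, 0] ∧ x₀ ∉ eigenPlanes mY ∧
    {c : ℤ | ∃ F, IsSailFace (connectedComponentIn (eigenPlanes mY)ᶜ x₀) F c} = {2, 3} := by
  obtain ⟨cx, hA, ha, H, -⟩ := exists_ctx
  have hpl := mem_planes cx.A cx.μ cx.b cx.inj cx.eig
  rw [hA] at hpl
  have h0 : ∀ i, 0 < cx.b.repr (rc pa) i := H.ha
  refine ⟨rc pa, by ext j; fin_cases j <;> simp [rc, pa], fun h => ?_, ?_⟩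
  · obtain ⟨k, hk⟩ := (hpl _).mp h
    exact (h0 k).ne' hk
  rw [component_eq cx.b _ hpl _ h0]
  ext c
  constructor
  · rintro ⟨F, hF⟩
    obtain ⟨f, V, hf, hc, hs, hne, hV, hg⟩ := supp_of_face cx F c hF
    obtain ⟨M, N, hG, h | h⟩ := H.face f c hc hs V hne hV
    · left
      exact dist_eq hG hf hc (by norm_num) (g := f1) (y := ![-1, 0, 1]) (by decide)
        (hg _ 2 fun v hv => by rw [← dotProduct_mulVec, h v hv])
    · right
      exact dist_eq hG hf hc (by norm_num) (g := f2) (y := ![5, 0, -1]) (by decide)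
        (hg _ 3 fun v hv => by rw [← dotProduct_mulVec, h v hv])
  · rintro (rfl | rfl)
    · refine face_of_supp cx f1 (by decide) 2 (by norm_num) (fun x hx => (H.supp hx).1) pa pb pc
        H.ha (by decide) H.hb (by decide) H.hc (by decide) ?_
      rw [LinearIndependent.pair_iff]
      intro s t h
      have e1 := congrFun h 1
      have e2 := congrFun h 2
      simp only [pb, pa, sub_cons, head_cons, zero_sub, Int.reduceNeg, tail_cons, sub_zero, sub_self, smul_cons, Int.zsmul_eq_mul, mul_neg, mul_one, smul_zero, pc, Int.reduceSub, zero_empty, smul_empty, Fin.isValue, Pi.add_apply, cons_val_one, cons_val_zero, Pi.zero_apply, cons_val, zero_add, mul_eq_zero, OfNat.ofNat_ne_zero, or_false] at e1 e2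
      omega
    · refine face_of_supp cx f2 (by decide) 3 (by norm_num) (fun x hx => (H.supp hx).2) pa pb pd
        H.ha (by decide) H.hb (by decide) H.hd (by decide) ?_
      rw [LinearIndependent.pair_iff]
      intro s t h
      have e1 := congrFun h 1
      have e2 := congrFun h 2
      simp only [pb, pa, sub_cons, head_cons, zero_sub, Int.reduceNeg, tail_cons, sub_zero, sub_self, smul_cons, Int.zsmul_eq_mul, mul_neg, mul_one, smul_zero, pd, Int.reduceSub, zero_empty, smul_empty, Fin.isValue, Pi.add_apply, cons_val_one, cons_val_zero, Pi.zero_apply, cons_val, zero_add, neg_eq_zero, mul_eq_zero, OfNat.ofNat_ne_zero, or_false] at e1 e2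
      omega

end Pool.Agent.MP_024ca5_nt.NoUnit

end
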