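import Pool.Agent.MP_024ca5_nt.Mg.Bridge
import Pool.Agent.MP_024ca5_nt.SailDefs

/-! From the lattice statement to faces of the sail as subsets of real space. -/

set_option autoImplicit false
open Matrix Polynomial

namespace Pool.Agent.MP_024ca5_nt.Sail

lemma exists_eig (A : Matrix (Fin 3) (Fin 3) ℤ)
    (h : (A.charpoly.map (Int.castRingHom ℝ)).roots.toFinset.card = 3) :
    ∃ (μ : Fin 3 → ℝ) (v : Fin 3 → (Fin 3 → ℝ)), Function.Injective μ ∧ (∀ i, v i ≠ 0) ∧
      ∀ i, (A.map (Int.cast : ℤ → ℝ)) *ᵥ v i = μ i • v i := by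
  set s := (A.charpoly.map (Int.castRingHom ℝ)).roots.toFinset with hs
  let e := s.orderEmbOfFin h
  have hroot : ∀ i, ∃ v : Fin 3 → ℝ, v ≠ 0 ∧ (A.map (Int.cast : ℤ → ℝ)) *ᵥ v = e i • v := by
    intro i
    have h1 : e i ∈ s := s.orderEmbOfFin_mem h i
    rw [hs, Multiset.mem_toFinset] at h1
    have h2 := Polynomial.isRoot_of_mem_roots h1
    rw [← Matrix.charpoly_map, IsRoot.def, Matrix.eval_charpoly] at h2
    obtain ⟨v, hv, h3⟩ := Matrix.exists_mulVec_eq_zero_iff.mpr h2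
    refine ⟨v, hv, ?_⟩
    rw [sub_mulVec, sub_eq_zero] at h3
    have h4 : (Matrix.scalar (Fin 3) (e i)) *ᵥ v = e i • v := by
      ext j; simp [Matrix.scalar, mulVec_diagonal]
    rw [← h4, h3]; rfl
  choose v hv using hroot
  exact ⟨fun i => e i, v, e.injective, fun i => (hv i).1, fun i => (hv i).2⟩

section
variable (A : Matrix (Fin 3) (Fin 3) ℤ) (μ : Fin 3 → ℝ) (b : Module.Basis (Fin 3) ℝ (Fin 3 → ℝ))

lemma repr_mulVec (he : ∀ i, (A.map (Int.cast : ℤ → ℝ)) *ᵥ b i = μ i • b i) (u : Fin 3 → ℝ)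
    (i : Fin 3) : b.repr ((A.map (Int.cast : ℤ → ℝ)) *ᵥ u) i = μ i * b.repr u i := by
  have h1 : (A.map (Int.cast : ℤ → ℝ)) *ᵥ u = ∑ j, (μ j * b.repr u j) • b j := by
    conv_lhs => rw [← b.sum_repr u]
    rw [Matrix.mulVec_sum]
    refine Finset.sum_congr rfl fun j _ => ?_
    rw [Matrix.mulVec_smul, he, smul_smul, mul_comm]
  rw [h1, b.repr_sum_self]

lemma mem_planes (hμ : Function.Injective μ)
    (he : ∀ i, (A.map (Int.cast : ℤ → ℝ)) *ᵥ b i = μ i • b i) (x : Fin 3 → ℝ) :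
    x ∈ eigenPlanes A ↔ ∃ k, b.repr x k = 0 := by
  constructor
  · rintro ⟨a, a', u, w, _, _, _, hu, hw, hx⟩
    have hk : ∃ k, μ k ≠ a ∧ μ k ≠ a' := by
      by_contra hc
      push Not at hc
      have h01 : μ 0 ≠ μ 1 := fun h => by simpa using hμ h
      have h02 : μ 0 ≠ μ 2 := fun h => by simpa using hμ h
      have h12 : μ 1 ≠ μ 2 := fun h => by simpa using hμ h
      have c0 := hc 0
      have c1 := hc 1
      have c2 := hc 2
      by_cases e0 : μ 0 = a
      · exact h12 ((c1 fun h => h01 (e0.trans h.symm)).trans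
          (c2 fun h => h02 (e0.trans h.symm)).symm)
      · by_cases e1 : μ 1 = a
        · exact h02 ((c0 e0).trans (c2 fun h => h12 (e1.trans h.symm)).symm)
        · exact h01 ((c0 e0).trans (c1 e1).symm)
    obtain ⟨k, k1, k2⟩ := hk
    have z : ∀ (t : ℝ) (y : Fin 3 → ℝ), μ k ≠ t → (A.map (Int.cast : ℤ → ℝ)) *ᵥ y = t • y →
        b.repr y k = 0 := by
      intro t y ht hy
      have h1 := repr_mulVec A μ b he y k
      rw [hy, map_smul, Finsupp.smul_apply, smul_eq_mul] at h1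
      have h2 : (μ k - t) * b.repr y k = 0 := by linarith
      exact (mul_eq_zero.mp h2).resolve_left (sub_ne_zero.mpr ht)
    obtain ⟨s, t, rfl⟩ := Submodule.mem_span_pair.mp hx
    refine ⟨k, ?_⟩
    simp [z a u k1 hu, z a' w k2 hw]
  · rintro ⟨k, hk⟩
    have aux : ∀ i j : Fin 3, i ≠ j → x = b.repr x i • b i + b.repr x j • b j →
        x ∈ eigenPlanes A := by
      intro i j hij hx
      exact ⟨μ i, μ j, b i, b j, fun h => hij (hμ h), b.ne_zero i, b.ne_zero j, he i, he j,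
        Submodule.mem_span_pair.mpr ⟨_, _, hx.symm⟩⟩
    have hx : x = b.repr x 0 • b 0 + b.repr x 1 • b 1 + b.repr x 2 • b 2 := by
      conv_lhs => rw [← b.sum_repr x, Fin.sum_univ_three]
    fin_cases k
    · refine aux 1 2 (by decide) ?_
      have hk' : b.repr x 0 = 0 := hk
      conv_lhs => rw [hx, hk']
      simp
    · refine aux 0 2 (by decide) ?_
      have hk' : b.repr x 1 = 0 := hk
      conv_lhs => rw [hx, hk']
      simp
    · refine aux 0 1 (by decide) ?_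
      have hk' : b.repr x 2 = 0 := hk
      conv_lhs => rw [hx, hk']
      simp

lemma cont_repr (i : Fin 3) : Continuous fun y : Fin 3 → ℝ => b.repr y i :=
  (b.coord i).continuous_of_finiteDimensional

lemma component_eq (W : Set (Fin 3 → ℝ)) (hW : ∀ x, x ∈ W ↔ ∃ k, b.repr x k = 0)
    (x₀ : Fin 3 → ℝ) (h0 : ∀ i, 0 < b.repr x₀ i) :
    connectedComponentIn Wᶜ x₀ = {y | ∀ i, 0 < b.repr y i} := by
  have hx0 : x₀ ∈ Wᶜ := fun h => by
    obtain ⟨k, hk⟩ := (hW _).mp h
    exact (h0 k).ne' hk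
  apply Set.Subset.antisymm
  · intro y hy i
    have hpre : IsPreconnected (connectedComponentIn Wᶜ x₀) := isPreconnected_connectedComponentIn
    have hsub : connectedComponentIn Wᶜ x₀ ⊆ {y | 0 < b.repr y i} ∪ {y | b.repr y i < 0} := by
      intro z hz
      have h1 : z ∈ Wᶜ := connectedComponentIn_subset _ _ hz
      have h2 : b.repr z i ≠ 0 := fun h => h1 ((hW _).mpr ⟨i, h⟩)
      rcases lt_or_gt_of_ne h2 with h | h
      · exact Or.inr h
      · exact Or.inl h
    have := hpre.subset_left_of_subset_union (isOpen_lt continuous_const (cont_repr b i))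
      (isOpen_lt (cont_repr b i) continuous_const)
      (Set.disjoint_left.mpr fun z (h1 : 0 < b.repr z i) (h2 : b.repr z i < 0) => by linarith)
      hsub ⟨x₀, mem_connectedComponentIn hx0, h0 i⟩
    exact this hy
  · refine IsPreconnected.subset_connectedComponentIn (Convex.isPreconnected ?_) h0 ?_
    · intro y hy z hz s t hs ht hst i
      simp only [map_add, map_smul, Finsupp.add_apply, Finsupp.smul_apply, smul_eq_mul]
      have h1 := hy i
      have h2 := hz i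
      rcases hs.eq_or_lt with h | h
      · have : t = 1 := by linarith
        rw [← h, this]; simpa using h2
      · have := mul_pos h h1
        have := mul_nonneg ht h2.le
        linarith
    · intro y hy h
      obtain ⟨k, hk⟩ := (hW _).mp h
      exact (hy k).ne' hk

lemma closure_eq : closure {y : Fin 3 → ℝ | ∀ i, 0 < b.repr y i} = {y | ∀ i, 0 ≤ b.repr y i} := by
  apply Set.Subset.antisymm
  · refine closure_minimal (fun y hy i => (hy i).le) ?_
    rw [Set.ofPred_forall]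
    exact isClosed_iInter fun i => isClosed_le continuous_const (cont_repr b i)
  · intro y hy
    set o : Fin 3 → ℝ := ∑ j, (1 : ℝ) • b j with ho
    have hlim : Filter.Tendsto (fun t : ℝ => y + t • o) (nhdsWithin 0 (Set.Ioi 0)) (nhds y) := by
      have : Continuous fun t : ℝ => y + t • o := by fun_prop
      have h2 := this.tendsto 0
      simp only [zero_smul, add_zero] at h2
      exact h2.mono_left nhdsWithin_le_nhds
    refine mem_closure_of_tendsto hlim ?_
    filter_upwards [self_mem_nhdsWithin] with t ht i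
    have h1 : b.repr o i = 1 := by rw [ho, b.repr_sum_self]
    simp only [map_add, map_smul, Finsupp.add_apply, Finsupp.smul_apply, smul_eq_mul, h1]
    have := hy i
    have ht' : (0 : ℝ) < t := ht
    linarith

end

/-- the exposed face of a convex hull cut out by a supporting plane -/
lemma face_eq (T : Set (Fin 3 → ℝ)) (l : (Fin 3 → ℝ) →L[ℝ] ℝ) (c : ℝ) (hT : ∀ y ∈ T, c ≤ l y) :
    (∀ y ∈ convexHull ℝ T, c ≤ l y) ∧
      {y ∈ convexHull ℝ T | l y = c} = convexHull ℝ {y ∈ T | l y = c} := by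
  have hV : ∀ y ∈ convexHull ℝ {y ∈ T | l y = c}, l y = c := by
    intro y hy
    have : convexHull ℝ {y ∈ T | l y = c} ⊆ {y | l y = c} :=
      convexHull_min (fun y hy => hy.2) (convex_hyperplane l.toLinearMap.isLinear c)
    exact this hy
  have hconv : Convex ℝ ({y | c < l y} ∪ convexHull ℝ {y ∈ T | l y = c}) := by
    have hge : ∀ y ∈ ({y | c < l y} ∪ convexHull ℝ {y ∈ T | l y = c}), c ≤ l y := by
      rintro y (h | h)
      · exact le_of_lt h
      · exact (hV y h).ge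
    intro y hy z hz s t hs ht hst
    have hl : l (s • y + t • z) = s * l y + t * l z := by simp
    have hc : c = s * c + t * c := by rw [← add_mul, hst, one_mul]
    have gy := hge y hy
    have gz := hge z hz
    rcases hs.eq_or_lt with h | h
    · have : t = 1 := by linarith
      rw [← h, this]; simpa using hz
    rcases ht.eq_or_lt with h' | h'
    · have : s = 1 := by linarith
      rw [← h', this]; simpa using hy
    rcases hy with hy | hy
    · left
      show c < l (s • y + t • z)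
      have hy' : c < l y := hy
      rw [hl]; nlinarith
    rcases hz with hz | hz
    · left
      show c < l (s • y + t • z)
      have hz' : c < l z := hz
      rw [hl]; nlinarith
    · right
      exact convex_convexHull ℝ _ hy hz hs ht hst
  have hsub : convexHull ℝ T ⊆ {y | c < l y} ∪ convexHull ℝ {y ∈ T | l y = c} := by
    refine convexHull_min (fun y hy => ?_) hconv
    rcases (hT y hy).eq_or_lt with h | h
    · exact Or.inr (subset_convexHull ℝ _ ⟨hy, h.symm⟩)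
    · exact Or.inl h
  refine ⟨fun y hy => ?_, Set.Subset.antisymm ?_ ?_⟩
  · rcases hsub hy with h | h
    · exact le_of_lt h
    · exact (hV y h).ge
  · rintro y ⟨hy, hl⟩
    rcases hsub hy with h | h
    · exact absurd hl (ne_of_gt h)
    · exact h
  · intro y hy
    exact ⟨convexHull_mono (fun z hz => hz.1) hy, hV y hy⟩

lemma mem_frontier_of (H : Set (Fin 3 → ℝ)) (l : (Fin 3 → ℝ) →L[ℝ] ℝ) (c : ℝ) (hc : 0 < c)
    (hH : ∀ y ∈ H, c ≤ l y) (y : Fin 3 → ℝ) (hy : y ∈ H) (hl : l y = c) : y ∈ frontier H := by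
  refine ⟨subset_closure hy, fun hi => ?_⟩
  have hlim : Filter.Tendsto (fun t : ℝ => t • y) (nhdsWithin 1 (Set.Iio 1)) (nhds y) := by
    have : Continuous fun t : ℝ => t • y := by fun_prop
    have h2 := this.tendsto 1
    simp only [one_smul] at h2
    exact h2.mono_left nhdsWithin_le_nhds
  have h1 : ∀ᶠ t in nhdsWithin (1 : ℝ) (Set.Iio 1), t • y ∈ H :=
    hlim (mem_interior_iff_mem_nhds.mp hi)
  obtain ⟨t, h2, h3⟩ := (h1.and self_mem_nhdsWithin).exists
  have h4 := hH _ h2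
  have h5 : t < 1 := h3
  rw [map_smul, smul_eq_mul, hl] at h4
  nlinarith

lemma cr_ne {a d : Fin 3 → ℤ} (h : LinearIndependent ℤ ![a, d]) : cr a d ≠ 0 := by
  intro h0
  rw [LinearIndependent.pair_iff] at h
  have e0 := congrFun h0 0
  have e1 := congrFun h0 1
  have e2 := congrFun h0 2
  simp [cr] at e0 e1 e2
  have k : ∀ i, a i = 0 := by
    intro i
    have := (h (d i) (-(a i)) ?_).2
    · simpa using this
    · ext j
      fin_cases i <;> fin_cases j <;> simp <;> linarith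
  have := (h 1 0 (by ext j; simp [k j])).1
  exact one_ne_zero this

lemma plane_span (f p q r : Fin 3 → ℤ) (c : ℤ) (hc : 0 < c) (hp : f ⬝ᵥ p = c) (hq : f ⬝ᵥ q = c)
    (hr : f ⬝ᵥ r = c) (h : LinearIndependent ℤ ![q - p, r - p]) (y : Fin 3 → ℝ)
    (hy : rc f ⬝ᵥ y = c) :
    ∃ s t : ℝ, y = rc p + s • (rc q - rc p) + t • (rc r - rc p) := by
  have hn := cr_ne h
  have hd : det3 p q r ≠ 0 := by
    intro h0
    apply hn
    have key : c • cr (q - p) (r - p) = det3 p q r • f := by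
      simp only [dotProduct, Fin.sum_univ_three] at hp hq hr
      ext j
      fin_cases j
      · simp [cr, det3]
        linear_combination (-(q 1 * r 2 - q 2 * r 1)) * hp + (p 1 * r 2 - p 2 * r 1) * hq -
          (p 1 * q 2 - p 2 * q 1) * hr
      · simp [cr, det3]
        linear_combination (-(q 2 * r 0 - q 0 * r 2)) * hp + (p 2 * r 0 - p 0 * r 2) * hq -
          (p 2 * q 0 - p 0 * q 2) * hr
      · simp [cr, det3]
        linear_combination (-(q 0 * r 1 - q 1 * r 0)) * hp + (p 0 * r 1 - p 1 * r 0) * hq -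
          (p 0 * q 1 - p 1 * q 0) * hr
    rw [h0, zero_smul] at key
    exact (smul_eq_zero.mp key).resolve_left hc.ne'
  have hd' : ((det3 p q r : ℤ) : ℝ) ≠ 0 := by exact_mod_cast hd
  have hc' : (c : ℝ) ≠ 0 := by exact_mod_cast hc.ne'
  have e := cramer3 (rc p) (rc q) (rc r) y
  rw [rc_det3] at e
  have a1 := congrArg (fun z => rc f ⬝ᵥ z) e
  simp only [dotProduct_add, dotProduct_smul, smul_eq_mul, rc_dot, hp, hq, hr, hy] at a1
  set D : ℝ := ((det3 p q r : ℤ) : ℝ)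
  set α := det3 y (rc q) (rc r)
  set β := det3 (rc p) y (rc r)
  set γ := det3 (rc p) (rc q) y
  have a2 : D = α + β + γ := by
    apply mul_right_cancel₀ hc'
    linarith
  refine ⟨β / D, γ / D, ?_⟩
  ext j
  have ej := congrFun e j
  simp only [Pi.add_apply, Pi.smul_apply, Pi.sub_apply, smul_eq_mul] at ej ⊢
  field_simp
  linear_combination ej - rc p j * a2

theorem sail_face (A : Matrix (Fin 3) (Fin 3) ℤ)
    (hA : Irreducible (A.charpoly.map (Int.castRingHom ℚ)))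
    (h3 : (A.charpoly.map (Int.castRingHom ℝ)).roots.toFinset.card = 3)
    (x₀ : Fin 3 → ℝ) (hx₀ : x₀ ∉ eigenPlanes A) :
    ∃ (F : Set (Fin 3 → ℝ)) (c : ℤ), 2 ≤ c ∧
      IsSailFace (connectedComponentIn (eigenPlanes A)ᶜ x₀) F c := by
  obtain ⟨μ, v, hμ, hv, he⟩ := exists_eig A h3
  have mk : ∀ w : Fin 3 → (Fin 3 → ℝ), (∀ i, w i ≠ 0) →
      (∀ i, (A.map (Int.cast : ℤ → ℝ)) *ᵥ w i = μ i • w i) →
      ∃ b : Module.Basis (Fin 3) ℝ (Fin 3 → ℝ), ∀ i, b i = w i := by
    intro w hw hw'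
    have li : LinearIndependent ℝ w :=
      Module.End.eigenvectors_linearIndependent' (Matrix.toLin' (A.map (Int.cast : ℤ → ℝ))) μ hμ w
        fun i => ⟨Module.End.mem_eigenspace_iff.mpr (by rw [Matrix.toLin'_apply, hw']), hw i⟩
    exact ⟨basisOfLinearIndependentOfCardEqFinrank li (by simp), fun i => by simp⟩
  obtain ⟨b0, hb0⟩ := mk v hv he
  have he0 : ∀ i, (A.map (Int.cast : ℤ → ℝ)) *ᵥ b0 i = μ i • b0 i := fun i => by rw [hb0, he]
  have hne : ∀ k, b0.repr x₀ k ≠ 0 := fun k hk => hx₀ ((mem_planes A μ b0 hμ he0 x₀).mpr ⟨k, hk⟩)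
  obtain ⟨b, hb⟩ := mk (fun i => b0.repr x₀ i • b0 i)
    (fun i => smul_ne_zero (hne i) (b0.ne_zero i))
    (fun i => by rw [Matrix.mulVec_smul, he0, smul_comm])
  have heb : ∀ i, (A.map (Int.cast : ℤ → ℝ)) *ᵥ b i = μ i • b i := fun i => by
    rw [hb, Matrix.mulVec_smul, he0, smul_comm]
  have h0 : ∀ i, 0 < b.repr x₀ i := by
    intro i
    have : x₀ = ∑ j, (1 : ℝ) • b j := by
      simp only [one_smul, hb]
      exact (b0.sum_repr x₀).symm
    rw [this, b.repr_sum_self]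
    exact one_pos
  rw [component_eq b _ (mem_planes A μ b hμ heb) x₀ h0]
  let cx : Ctx := ⟨A, μ, b, hμ, heb, irr_of_irreducible A hA⟩
  have main : ∃ f : Fin 3 → ℤ, (∀ d : ℤ, (∀ i, d ∣ f i) → IsUnit d) ∧
      ∃ c : ℤ, 2 ≤ c ∧ (∀ x ∈ cx.S, c ≤ f ⬝ᵥ x) ∧
        ∃ p ∈ cx.S, ∃ q ∈ cx.S, ∃ r ∈ cx.S, f ⬝ᵥ p = c ∧ f ⬝ᵥ q = c ∧ f ⬝ᵥ r = c ∧
          LinearIndependent ℤ ![q - p, r - p] := by
    by_contra h
    exact cx.not_allOne (allOne_of cx _ rfl h)
  obtain ⟨f, hf, c, hc2, hsupp, p, hp, q, hq, r, hr, fp, fq, fr, hli⟩ := main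
  have hc : 0 < c := by omega
  have hcR : (0 : ℝ) < c := by exact_mod_cast hc
  have hT : {y | y ∈ closure {y : Fin 3 → ℝ | ∀ i, 0 < b.repr y i} ∧
      ∃ z : Fin 3 → ℤ, z ≠ 0 ∧ y = fun i => (z i : ℝ)} = rc '' cx.S := by
    rw [closure_eq]
    ext y
    constructor
    · rintro ⟨hy, z, hz, rfl⟩
      exact ⟨z, fun i => (hy i).lt_of_ne (cx.l_ne hz i).symm, rfl⟩
    · rintro ⟨z, hz, rfl⟩
      exact ⟨fun i => (hz i).le, z, cx.S_ne hz, rfl⟩
  let l : (Fin 3 → ℝ) →L[ℝ] ℝ := LinearMap.toContinuousLinearMap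
    { toFun := fun y => rc f ⬝ᵥ y
      map_add' := fun y z => dotProduct_add _ _ _
      map_smul' := fun a y => dotProduct_smul _ _ _ }
  have hl : ∀ y, l y = rc f ⬝ᵥ y := fun y => rfl
  have hlz : ∀ z, l (rc z) = ((f ⬝ᵥ z : ℤ) : ℝ) := fun z => by rw [hl, rc_dot]
  have hTl : ∀ y ∈ rc '' cx.S, (c : ℝ) ≤ l y := by
    rintro _ ⟨z, hz, rfl⟩
    rw [hlz]
    exact_mod_cast hsupp z hz
  obtain ⟨g1, g2⟩ := face_eq (rc '' cx.S) l c hTl
  have hfin : {x ∈ cx.S | f ⬝ᵥ x = c}.Finite := by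
    have hlam : ∀ x, ((c : ℝ)⁻¹ • rc f) ⬝ᵥ rc x = ((f ⬝ᵥ x : ℤ) : ℝ) / c := fun x => by
      rw [smul_dotProduct, rc_dot, smul_eq_mul]; ring
    refine (cx.fin_cap ((c : ℝ)⁻¹ • rc f) (cx.interior _ fun x hx => ?_)).subset ?_
    · rw [hlam, le_div_iff₀ hcR, one_mul]
      exact_mod_cast hsupp x hx
    · rintro x ⟨hx, hx'⟩
      refine ⟨hx, ?_⟩
      rw [hlam, hx', div_self hcR.ne']
  have hpts : {y ∈ rc '' cx.S | l y = c} = rc '' (hfin.toFinset : Set (Fin 3 → ℤ)) := by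
    ext y
    simp only [Set.Finite.coe_toFinset]
    constructor
    · rintro ⟨⟨z, hz, rfl⟩, h⟩
      rw [hlz] at h
      exact ⟨z, ⟨hz, by exact_mod_cast h⟩, rfl⟩
    · rintro ⟨z, ⟨hz, h⟩, rfl⟩
      exact ⟨⟨z, hz, rfl⟩, by rw [hlz, h]⟩
  have memF : ∀ z ∈ cx.S, f ⬝ᵥ z = c → rc z ∈ {y ∈ convexHull ℝ (rc '' cx.S) | l y = c} :=
    fun z hz h => ⟨subset_convexHull ℝ _ ⟨z, hz, rfl⟩, by rw [hlz, h]⟩
  refine ⟨{y ∈ convexHull ℝ (rc '' cx.S) | l y = c}, c, hc2, ?_⟩
  unfold IsSailFace kleinHull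
  rw [hT]
  refine ⟨fun _ => ⟨-l, ?_⟩, fun y hy => mem_frontier_of _ l c hcR g1 y hy.1 hy.2,
    ⟨hfin.toFinset, ?_⟩, f, ?_, hc, ?_⟩
  · ext y
    constructor
    · rintro ⟨hy, h⟩
      refine ⟨hy, fun z hz => ?_⟩
      have := g1 z hz
      simp only [_root_.neg_apply]
      linarith
    · rintro ⟨hy, h⟩
      refine ⟨hy, le_antisymm ?_ (g1 y hy)⟩
      have h1 := h _ (memF p hp fp).1
      have h2 := (memF p hp fp).2
      simp only [_root_.neg_apply] at h1
      linarith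
  · rw [g2, hpts]; rfl
  · have h1 := hf _ fun i => Finset.gcd_dvd (f := f) (Finset.mem_univ i)
    rw [← Finset.normalize_gcd]
    exact normalize_eq_one.mpr h1
  · have hdot : ∀ y : Fin 3 → ℝ, ∑ i, (f i : ℝ) * y i = l y := fun y => rfl
    apply Set.Subset.antisymm
    · intro y hy
      show ∑ i, (f i : ℝ) * y i = c
      rw [hdot]
      refine affineSpan_induction (p := fun y => l y = c) hy (fun z hz => hz.2) ?_
      intro a u w z hu hw hz
      simp [hu, hw, hz]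
    · intro y hy
      have hy' : rc f ⬝ᵥ y = c := hy
      obtain ⟨s, t, rfl⟩ := plane_span f p q r c hc fp fq fr hli y hy'
      have mp := subset_affineSpan ℝ _ (memF p hp fp)
      have mq := subset_affineSpan ℝ _ (memF q hq fq)
      have mr := subset_affineSpan ℝ _ (memF r hr fr)
      have m1 := AffineSubspace.smul_vsub_vadd_mem _ s mq mp mp
      have m2 := AffineSubspace.smul_vsub_vadd_mem _ t mr mp m1
      have e : rc p + s • (rc q - rc p) + t • (rc r - rc p) =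
          t • (rc r -ᵥ rc p) +ᵥ s • (rc q -ᵥ rc p) +ᵥ rc p := by
        simp only [vsub_eq_sub, vadd_eq_add]
        abel
      rw [e]
      exact m2

theorem face_image (C F : Set (Fin 3 → ℝ)) (c : ℤ) (h : IsSailFace C F c)
    (g : Matrix (Fin 3) (Fin 3) ℤ) (hg : g.det = 1)
    (hC : (fun y => (g.map (Int.cast : ℤ → ℝ)) *ᵥ y) '' C = C) :
    IsSailFace C ((fun y => (g.map (Int.cast : ℤ → ℝ)) *ᵥ y) '' F) c := by
  set g' : Matrix (Fin 3) (Fin 3) ℤ := g.adjugate with hg'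
  have i1 : g * g' = 1 := by rw [hg', Matrix.mul_adjugate, hg, one_smul]
  have i2 : g' * g = 1 := by rw [hg', Matrix.adjugate_mul, hg, one_smul]
  have j1 : ∀ y, (g.map (Int.cast : ℤ → ℝ)) *ᵥ ((g'.map (Int.cast : ℤ → ℝ)) *ᵥ y) = y := by
    intro y; rw [Matrix.mulVec_mulVec, ← map_mul_cast, i1, map_one_cast, Matrix.one_mulVec]
  have j2 : ∀ y, (g'.map (Int.cast : ℤ → ℝ)) *ᵥ ((g.map (Int.cast : ℤ → ℝ)) *ᵥ y) = y := by
    intro y; rw [Matrix.mulVec_mulVec, ← map_mul_cast, i2, map_one_cast, Matrix.one_mulVec]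
  let E0 : (Fin 3 → ℝ) ≃ₗ[ℝ] (Fin 3 → ℝ) :=
    { toFun := fun y => (g.map (Int.cast : ℤ → ℝ)) *ᵥ y
      invFun := fun y => (g'.map (Int.cast : ℤ → ℝ)) *ᵥ y
      map_add' := fun y z => Matrix.mulVec_add _ _ _
      map_smul' := fun a y => Matrix.mulVec_smul _ _ _
      left_inv := j2
      right_inv := j1 }
  let E : (Fin 3 → ℝ) ≃L[ℝ] (Fin 3 → ℝ) := E0.toContinuousLinearEquiv
  have hE : (fun y => (g.map (Int.cast : ℤ → ℝ)) *ᵥ y) = E := rfl
  have hEs : ∀ y, E.symm y = (g'.map (Int.cast : ℤ → ℝ)) *ᵥ y := fun y => rfl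
  have hEz : ∀ z, E (rc z) = rc (g *ᵥ z) := fun z => (rc_mulVec g z).symm
  rw [hE] at hC ⊢
  have hcl : E '' closure C = closure C := by
    have := E.toHomeomorph.image_closure C
    simp only [ContinuousLinearEquiv.coe_toHomeomorph] at this
    rw [this, hC]
  have hH : E '' kleinHull C = kleinHull C := by
    unfold kleinHull
    have := (E : (Fin 3 → ℝ) →ₗ[ℝ] (Fin 3 → ℝ)).image_convexHull
      {y | y ∈ closure C ∧ ∃ z : Fin 3 → ℤ, z ≠ 0 ∧ y = fun i => (z i : ℝ)}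
    simp only [LinearEquiv.coe_coe, ContinuousLinearEquiv.coe_toLinearEquiv] at this
    rw [this]
    congr 1
    ext y
    constructor
    · rintro ⟨_, ⟨h1, z, hz, rfl⟩, rfl⟩
      refine ⟨hcl ▸ Set.mem_image_of_mem _ h1, g *ᵥ z, fun h0 => hz ?_, hEz z⟩
      rw [← Matrix.one_mulVec z, ← i2, ← Matrix.mulVec_mulVec, h0, Matrix.mulVec_zero]
    · rintro ⟨h1, z, hz, rfl⟩
      rw [← hcl] at h1
      obtain ⟨w, hw, hw'⟩ := h1
      refine ⟨w, ⟨hw, g' *ᵥ z, fun h0 => hz ?_, ?_⟩, hw'⟩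
      · rw [← Matrix.one_mulVec z, ← i1, ← Matrix.mulVec_mulVec, h0, Matrix.mulVec_zero]
      · rw [← E.symm_apply_apply w, hw', hEs]
        exact (rc_mulVec g' z).symm
  obtain ⟨h1, h2, ⟨V, h3⟩, f, h4, h5, h6⟩ := h
  refine ⟨fun hne => ?_, ?_, ⟨V.image fun z => g *ᵥ z, ?_⟩, f ᵥ* g', ?_, h5, ?_⟩
  · obtain ⟨l, hl⟩ := h1 hne.of_image
    refine ⟨l.comp (E.symm : (Fin 3 → ℝ) →L[ℝ] (Fin 3 → ℝ)), ?_⟩
    ext y
    constructor
    · rintro ⟨w, hw, rfl⟩
      rw [hl] at hw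
      refine ⟨hH ▸ Set.mem_image_of_mem _ hw.1, fun z hz => ?_⟩
      rw [← hH] at hz
      obtain ⟨u, hu, rfl⟩ := hz
      simpa using hw.2 u hu
    · rintro ⟨hy, hy'⟩
      have hy2 := hy
      rw [← hH] at hy2
      obtain ⟨w, hw, rfl⟩ := hy2
      refine Set.mem_image_of_mem _ ?_
      rw [hl]
      refine ⟨hw, fun u hu => ?_⟩
      simpa using hy' (E u) (hH ▸ Set.mem_image_of_mem _ hu)
  · have := E.toHomeomorph.image_frontier (kleinHull C)
    simp only [ContinuousLinearEquiv.coe_toHomeomorph] at this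
    rw [hH] at this
    rw [← this]
    exact Set.image_mono h2
  · have := (E : (Fin 3 → ℝ) →ₗ[ℝ] (Fin 3 → ℝ)).image_convexHull
      ((fun (z : Fin 3 → ℤ) (i : Fin 3) => (z i : ℝ)) '' (V : Set (Fin 3 → ℤ)))
    simp only [LinearEquiv.coe_coe, ContinuousLinearEquiv.coe_toLinearEquiv] at this
    rw [h3, this, Finset.coe_image, Set.image_image, Set.image_image]
    congr 1
    exact Set.image_congr fun z _ => hEz z
  · rw [← Finset.normalize_gcd]
    refine normalize_eq_one.mpr (isUnit_of_dvd_one ?_)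
    rw [← h4]
    refine Finset.dvd_gcd fun i _ => ?_
    have e : f = (f ᵥ* g') ᵥ* g := by rw [Matrix.vecMul_vecMul, i2, Matrix.vecMul_one]
    have e' : f i = ∑ j, (f ᵥ* g') j * g j i := congrFun e i
    rw [e']
    exact Finset.dvd_sum fun j _ => Dvd.dvd.mul_right (Finset.gcd_dvd (Finset.mem_univ j)) _
  · have := AffineSubspace.map_span
      (E : (Fin 3 → ℝ) →ₗ[ℝ] (Fin 3 → ℝ)).toAffineMap F
    have e2 : (affineSpan ℝ (E '' F) : Set (Fin 3 → ℝ)) = E '' (affineSpan ℝ F : Set (Fin 3 → ℝ)) := by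
      have e3 := congrArg (fun s : AffineSubspace ℝ (Fin 3 → ℝ) => (s : Set (Fin 3 → ℝ))) this
      simp only [AffineSubspace.coe_map] at e3
      exact e3.symm
    rw [e2, h6]
    ext y
    have e4 : ∑ i, (((f ᵥ* g') i : ℤ) : ℝ) * y i = ∑ i, (f i : ℝ) * E.symm y i :=
      rc_vecMul g' f y
    constructor
    · rintro ⟨w, hw, rfl⟩
      show ∑ i, (((f ᵥ* g') i : ℤ) : ℝ) * E w i = c
      rw [e4, E.symm_apply_apply]
      exact hw
    · intro hy
      refine ⟨E.symm y, ?_, E.apply_symm_apply y⟩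
      show ∑ i, (f i : ℝ) * E.symm y i = c
      rw [← e4]
      exact hy

end Pool.Agent.MP_024ca5_nt.Sail
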